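import Mathlib
import Pool.Agent.H932R2.Final

set_option autoImplicit false

/-!
# Ranks modulo the members of a family of ideals
-/

namespace Pool.Agent.H932R3

open Polynomial Pool.Agent.H932R2

variable {K : Type*} [Field K]

/-- A family of ideals stable under the substitutions used for the compressions. -/
structure Stable (𝓘 : Set (Ideal K[X][X])) : Prop where
  subY : ∀ J ∈ 𝓘, ∀ (ρ : ℕ) (t : K), t ≠ 0 → ∃ J' ∈ 𝓘, J' ≤ J.comap (subY ρ t)
  subX : ∀ J ∈ 𝓘, ∀ t : K, t ≠ 0 → ∃ J' ∈ 𝓘, J' ≤ J.comap (subX t)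

/-- For some member of the family, the monomials in `M` span a space having at least `n`
elements linearly independent modulo that member. -/
def RkS (𝓘 : Set (Ideal K[X][X])) (M : Set (ℕ × ℕ)) (n : ℕ) : Prop :=
  ∃ J ∈ 𝓘, RkI J M n

theorem RkS.mono {𝓘 : Set (Ideal K[X][X])} {M M' : Set (ℕ × ℕ)} {n : ℕ}
    (h : M ⊆ M') (hR : RkS 𝓘 M n) : RkS 𝓘 M' n := by
  obtain ⟨J, hJ, hR⟩ := hR
  exact ⟨J, hJ, hR.mono h⟩

theorem RkS.subset {𝓘 : Set (Ideal K[X][X])} {M M' : Finset (ℕ × ℕ)}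
    (hR : RkS 𝓘 (↑M : Set (ℕ × ℕ)) M.card) (h : M' ⊆ M) :
    RkS 𝓘 (↑M' : Set (ℕ × ℕ)) M'.card := by
  obtain ⟨J, hJ, hR⟩ := hR
  exact ⟨J, hJ, hR.subset h⟩

/-- Transfer of ranks along a one-parameter family of substitutions. -/
theorem RkS.transfer [Infinite K] {𝓘 : Set (Ideal K[X][X])} {M M' : Set (ℕ × ℕ)}
    {n : ℕ} (B : ℕ) (ψ : K → K[X][X] →ₐ[K] K[X][X])
    (hI : ∀ t : K, t ≠ 0 → ∀ J ∈ 𝓘, ∃ J' ∈ 𝓘, J' ≤ J.comap (ψ t))
    (hM : ∀ p ∈ M', ∃ w : ℕ → K[X][X], w 0 = mon K p ∧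
      ∀ t : K, t ≠ 0 → ∑ k ∈ Finset.range (B + 1), t ^ k • w k ∈
        (mspan K M).map (ψ t).toLinearMap)
    (hR : RkS 𝓘 M' n) : RkS 𝓘 M n := by
  classical
  obtain ⟨J, hJ, v, hv, hli⟩ := hR
  have hgood : ∀ f ∈ mspan K M', ∃ w : ℕ → K[X][X], w 0 = f ∧
      ∀ t : K, t ≠ 0 → ∑ k ∈ Finset.range (B + 1), t ^ k • w k ∈
        (mspan K M).map (ψ t).toLinearMap := by
    intro f hf
    refine Submodule.span_induction ?_ ?_ ?_ ?_ hf
    · rintro _ ⟨p, hp, rfl⟩
      exact hM p hp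
    · exact ⟨fun _ => 0, rfl, fun t _ => by simp⟩
    · rintro a b _ _ ⟨wa, ha0, ha⟩ ⟨wb, hb0, hb⟩
      refine ⟨fun k => wa k + wb k, by simp only [ha0, hb0], fun t ht => ?_⟩
      have := Submodule.add_mem _ (ha t ht) (hb t ht)
      rw [← Finset.sum_add_distrib] at this
      simpa only [smul_add] using this
    · rintro c a _ ⟨wa, ha0, ha⟩
      refine ⟨fun k => c • wa k, by simp only [ha0], fun t ht => ?_⟩
      have := Submodule.smul_mem _ c (ha t ht)
      rw [Finset.smul_sum] at this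
      simpa only [smul_comm c] using this
  choose w hw0 hw using fun i => hgood (v i) (hv i)
  obtain ⟨W, hW⟩ : ∃ W : Fin n → ℕ → K[X][X] ⧸ J,
      ∀ i k, W i k = Ideal.Quotient.mkₐ K J (w i k) := ⟨_, fun _ _ => rfl⟩
  have h0 : LinearIndependent K (fun j => W j 0) := by
    simp only [hW, hw0]
    exact (li_mk_iff _ _).2 hli
  obtain ⟨t, ht, hli'⟩ := exists_ne_zero_li B W h0
  have hli'' : ∀ c : Fin n → K, ∑ i, c i • (∑ k ∈ Finset.range (B + 1), t ^ k • w i k) ∈
      J → ∀ i, c i = 0 := by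
    intro c hc
    refine Fintype.linearIndependent_iff.1 hli' c ?_
    have h1 : Ideal.Quotient.mkₐ K J
        (∑ i, c i • (∑ k ∈ Finset.range (B + 1), t ^ k • w i k)) = 0 := by
      rw [Ideal.Quotient.mkₐ_eq_mk, Ideal.Quotient.eq_zero_iff_mem]
      exact hc
    rw [← h1, map_sum]
    refine Finset.sum_congr rfl fun i _ => ?_
    rw [map_smul, map_sum]
    congr 1
    exact Finset.sum_congr rfl fun k _ => by rw [hW, map_smul]
  choose u hu hu' using fun i => Submodule.mem_map.1 (hw i t ht)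
  obtain ⟨J', hJ', hle⟩ := hI t ht J hJ
  refine ⟨J', hJ', u, hu, fun c hc => hli'' c ?_⟩
  have h1 := hle hc
  rw [Ideal.mem_comap, map_sum] at h1
  convert h1 using 2 with i
  rw [map_smul, ← hu' i]
  rfl

theorem RkS.compressY [Infinite K] {𝓘 : Set (Ideal K[X][X])} (h𝓘 : Stable 𝓘)
    {M M' : Set (ℕ × ℕ)} {n : ℕ} (ρ B : ℕ)
    (hK : ∀ k : ℕ, 0 < k → k ≤ B → (k : K) ≠ 0) (h : DomY ρ B M M')
    (hR : RkS 𝓘 M' n) : RkS 𝓘 M n := by
  classical
  refine RkS.transfer B (subY ρ) (fun t ht J hJ => h𝓘.subY J hJ ρ t ht) (fun p hp => ?_) hR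
  obtain ⟨i, q⟩ := p
  obtain ⟨f, hf, hfM⟩ := h _ hp
  simp only at hfM f
  obtain ⟨c, hc⟩ := exists_choose_inverse B q hK f hf (fun a => (hfM a).1)
  refine ⟨fun k => (∑ a, c a * ((f a).choose (q + k) : K)) •
    mon K (i + ρ * q - ρ * (q + k), q + k), ?_, fun t ht => ?_⟩
  · simp only [add_zero]
    rw [hc q le_rfl]
    simp
  · have key : subY ρ t (∑ a, c a • mon K (i + ρ * q - ρ * f a, f a)) =
        t ^ q • ∑ k ∈ Finset.range (B + 1), t ^ k •
          ((∑ a, c a * ((f a).choose (q + k) : K)) •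
            mon K (i + ρ * q - ρ * (q + k), q + k)) := by
      rw [map_sum]
      have h1 : ∀ a, subY ρ t (c a • mon K (i + ρ * q - ρ * f a, f a)) =
          ∑ j ∈ Finset.range (q + (B + 1)), (t ^ j * (c a * ((f a).choose j : K))) •
            mon K (i + ρ * q - ρ * j, j) := by
        intro a
        rw [map_smul, subY_mon ρ t _ _ (hfM a).2.1 (q + B) (by have := (hfM a).1; omega),
          Finset.smul_sum]
        refine Finset.sum_congr rfl fun j _ => ?_
        rw [smul_smul]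
        congr 1
        ring
      simp only [h1]
      rw [Finset.sum_comm, Finset.sum_range_add]
      have h2 : ∑ j ∈ Finset.range q, ∑ a, (t ^ j * (c a * ((f a).choose j : K))) •
            mon K (i + ρ * q - ρ * j, j) = 0 := by
        refine Finset.sum_eq_zero fun j hj => ?_
        rw [Finset.mem_range] at hj
        rw [← Finset.sum_smul, ← Finset.mul_sum, hc j hj.le, if_neg (by omega), mul_zero,
          zero_smul]
      rw [h2, zero_add, Finset.smul_sum]
      refine Finset.sum_congr rfl fun k _ => ?_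
      rw [← Finset.sum_smul, ← Finset.mul_sum, smul_smul, smul_smul]
      congr 1
      ring
    have key' : ∑ k ∈ Finset.range (B + 1), t ^ k •
          ((∑ a, c a * ((f a).choose (q + k) : K)) •
            mon K (i + ρ * q - ρ * (q + k), q + k)) =
        (t ^ q)⁻¹ • subY ρ t (∑ a, c a • mon K (i + ρ * q - ρ * f a, f a)) := by
      rw [key, smul_smul, inv_mul_cancel₀ (pow_ne_zero _ ht), one_smul]
    rw [key', ← map_smul]
    refine Submodule.mem_map_of_mem (Submodule.smul_mem _ _ (Submodule.sum_mem _ fun a _ =>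
      Submodule.smul_mem _ _ (Submodule.subset_span ⟨_, (hfM a).2.2, rfl⟩)))

theorem RkS.compressX [Infinite K] {𝓘 : Set (Ideal K[X][X])} (h𝓘 : Stable 𝓘)
    {M M' : Set (ℕ × ℕ)} {n : ℕ} (B : ℕ) (hK : ∀ k : ℕ, 0 < k → k ≤ B → (k : K) ≠ 0)
    (h : DomX B M M') (hR : RkS 𝓘 M' n) : RkS 𝓘 M n := by
  classical
  refine RkS.transfer B subX (fun t ht J hJ => h𝓘.subX J hJ t ht) (fun p hp => ?_) hR
  obtain ⟨i, q⟩ := p
  obtain ⟨f, hf, hfM⟩ := h _ hp
  simp only at hfM f
  obtain ⟨c, hc⟩ := exists_choose_inverse B i hK f hf (fun a => (hfM a).1)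
  refine ⟨fun k => (∑ a, c a * ((f a).choose (i + k) : K)) • mon K (i + k, q), ?_,
    fun t ht => ?_⟩
  · simp only [add_zero]
    rw [hc i le_rfl]
    simp
  · have key : subX t (∑ a, c a • mon K (f a, q)) =
        t ^ i • ∑ k ∈ Finset.range (B + 1), t ^ k •
          ((∑ a, c a * ((f a).choose (i + k) : K)) • mon K (i + k, q)) := by
      rw [map_sum]
      have h1 : ∀ a, subX t (c a • mon K (f a, q)) =
          ∑ j ∈ Finset.range (i + (B + 1)), (t ^ j * (c a * ((f a).choose j : K))) •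
            mon K (j, q) := by
        intro a
        rw [map_smul, subX_mon t _ _ (i + B) (by have := (hfM a).1; omega),
          Finset.smul_sum]
        refine Finset.sum_congr rfl fun j _ => ?_
        rw [smul_smul]
        congr 1
        ring
      simp only [h1]
      rw [Finset.sum_comm, Finset.sum_range_add]
      have h2 : ∑ j ∈ Finset.range i, ∑ a, (t ^ j * (c a * ((f a).choose j : K))) •
            mon K (j, q) = 0 := by
        refine Finset.sum_eq_zero fun j hj => ?_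
        rw [Finset.mem_range] at hj
        rw [← Finset.sum_smul, ← Finset.mul_sum, hc j hj.le, if_neg (by omega), mul_zero,
          zero_smul]
      rw [h2, zero_add, Finset.smul_sum]
      refine Finset.sum_congr rfl fun k _ => ?_
      rw [← Finset.sum_smul, ← Finset.mul_sum, smul_smul, smul_smul]
      congr 1
      ring
    have key' : ∑ k ∈ Finset.range (B + 1), t ^ k •
          ((∑ a, c a * ((f a).choose (i + k) : K)) • mon K (i + k, q)) =
        (t ^ i)⁻¹ • subX t (∑ a, c a • mon K (f a, q)) := by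
      rw [key, smul_smul, inv_mul_cancel₀ (pow_ne_zero _ ht), one_smul]
    rw [key', ← map_smul]
    refine Submodule.mem_map_of_mem (Submodule.smul_mem _ _ (Submodule.sum_mem _ fun a _ =>
      Submodule.smul_mem _ _ (Submodule.subset_span ⟨_, (hfM a).2, rfl⟩)))

/-- The polynomials whose coefficient of `y ^ l` is divisible by `∏ (x - x_a) ^ (w_a - l)`. -/
noncomputable def prodPoly {r : ℕ} (x : Fin r → K) (w : Fin r → ℕ) (l : ℕ) : K[X] :=
  ∏ a, (X - C (x a)) ^ (w a - l)

theorem prodPoly_dvd {r : ℕ} (x : Fin r → K) (w : Fin r → ℕ) {l l' : ℕ} (h : l ≤ l') :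
    prodPoly x w l' ∣ prodPoly x w l :=
  Finset.prod_dvd_prod_of_dvd _ _ fun a _ => pow_dvd_pow _ (by omega)

/-- The ideal `⋂ (y - γ, x - x_a) ^ (w_a)` for distinct `x_a`, in general its analogue. -/
noncomputable def wIdeal {r : ℕ} (x : Fin r → K) (γ : K[X]) (w : Fin r → ℕ) :
    Ideal K[X][X] where
  carrier := {f | ∀ l, prodPoly x w l ∣ (sh 0 γ f).coeff l}
  zero_mem' := by
    intro l
    simp
  add_mem' := by
    intro a b ha hb l
    rw [map_add, coeff_add]
    exact dvd_add (ha l) (hb l)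
  smul_mem' := by
    intro c a ha l
    rw [smul_eq_mul, map_mul, coeff_mul]
    refine Finset.dvd_sum fun p hp => ?_
    have hp := Finset.HasAntidiagonal.mem_antidiagonal.1 hp
    refine Dvd.dvd.mul_left ?_ _
    exact (prodPoly_dvd x w (show p.2 ≤ l by omega)).trans (ha p.2)

theorem mem_wIdeal {r : ℕ} {x : Fin r → K} {γ : K[X]} {w : Fin r → ℕ} {f : K[X][X]} :
    f ∈ wIdeal x γ w ↔ ∀ l, prodPoly x w l ∣ (sh 0 γ f).coeff l := Iff.rfl

/-- The family of the ideals `wIdeal x γ w`, with `x` in a given class. -/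
def wFam {r : ℕ} (𝒞 : Set (Fin r → K)) (w : Fin r → ℕ) : Set (Ideal K[X][X]) :=
  {J | ∃ x ∈ 𝒞, ∃ γ : K[X], J = wIdeal x γ w}

end Pool.Agent.H932R3
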