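import Mathlib
import Pool.Agent.H932R3.Fam2

set_option autoImplicit false

/-!
# The chain of balanced shapes, for a stable family of ideals
-/

namespace Pool.Agent.H932R3

open Polynomial Pool.Agent.H932R2

variable {K : Type*} [Field K] [Infinite K] {𝓘 : Set (Ideal K[X][X])} {n : ℕ}

theorem chain_step_aux (h𝓘 : Stable 𝓘) {s u t j : ℕ} (hs : 0 < s) (hg : Good s u t j)
    (hu : u ≤ s + 1 + t + (if 0 < j then 1 else 0)) (B : ℕ) (hB : u ≤ B)
    (hK : ∀ k : ℕ, 0 < k → k ≤ B → (k : K) ≠ 0) :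
    ∃ u' t' j', Good (s + 2) u' t' j' ∧ u' ≤ u ∧ sz (s + 2) u' t' j' = sz s u t j ∧
      (RkS 𝓘 (Lset (s + 2) ((s + 2) * u' + t') j') n → RkS 𝓘 (Lset s (s * u + t) j) n) := by
  obtain ⟨ht, hj, hu2⟩ := hg
  have key : ∀ V' j', DomY (s + 2) B (Bset s (s * u + t) u t j) (Lset (s + 2) V' j') →
      RkS 𝓘 (Lset (s + 2) V' j') n → RkS 𝓘 (Lset s (s * u + t) j) n := fun V' j' h1 h2 =>
    RkS.compressY h𝓘 (s + 1) B hK (step_one rfl hB hu) (RkS.compressY h𝓘 (s + 2) B hK h1 h2)
  rcases Nat.lt_or_ge t u with h1 | h1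
  · obtain ⟨w, rfl⟩ : ∃ w, u = w + 1 := ⟨u - 1, by omega⟩
    rcases Nat.lt_or_ge (t + j) (w + 1) with h2 | h2
    · rcases Nat.lt_or_ge (s + 1 + t) (w + 1) with h3 | h3
      · -- boundary case
        have hw : w = s + 1 := by split_ifs at hu <;> omega
        have ht0 : t = 0 := by omega
        have hj0 : 0 < j := by
          by_contra hj0
          rw [if_neg hj0] at hu
          omega
        subst hw
        subst ht0
        refine ⟨s, s + 1, j - 1, ⟨by omega, by omega, by omega⟩, by omega, ?_, ?_⟩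
        · obtain ⟨j, rfl⟩ : ∃ i, j = i + 1 := ⟨j - 1, by omega⟩
          rw [Nat.add_sub_cancel]
          unfold sz
          ring
        · refine key _ _ ?_
          have := step_two_d (s := s) (V := s * (s + 2)) (j := j) (B := B) rfl hB hj0 (by omega)
          convert this using 2 <;> ring
      · refine ⟨w, s + 1 + t - (w + 1), t + j, ⟨by omega, by omega, by omega⟩, by omega, ?_, ?_⟩
        · obtain ⟨x, hx⟩ : ∃ x, s + 1 + t = w + 1 + x := Nat.exists_eq_add_of_le h3
          have hx' : s + 1 + t - (w + 1) = x := by omega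
          rw [hx']
          unfold sz
          zify at hx ⊢
          linear_combination 2 * (-(w : ℤ) - 1) * hx
        · refine key _ _ ?_
          have := step_two_b (s := s) (V := s * (w + 1) + t) (j := j) (B := B) rfl hB h2 h3
          convert this using 2
          have e1 : (s + 2) * w = s * w + 2 * w := by ring
          have e2 : s * (w + 1) = s * w + s := by ring
          omega
    · refine ⟨w, s + 2 + t - (w + 1), t + j - (w + 1), ⟨by omega, by omega, by omega⟩, by omega,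
        ?_, ?_⟩
      · obtain ⟨x, hx⟩ : ∃ x, s + 2 + t = w + 1 + x := Nat.exists_eq_add_of_le (by omega)
        have hx' : s + 2 + t - (w + 1) = x := by omega
        obtain ⟨y, hy⟩ : ∃ y, t + j = w + 1 + y := Nat.exists_eq_add_of_le (by omega)
        have hy' : t + j - (w + 1) = y := by omega
        rw [hx', hy']
        unfold sz
        zify at hx hy ⊢
        linear_combination 2 * (-(w : ℤ) - 1) * hx - 2 * hy
      · refine key _ _ ?_
        have := step_two_c (s := s) (V := s * (w + 1) + t) (j := j) (B := B) rfl hB hj h1 h2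
          (by omega)
        convert this using 2
        have e1 : (s + 2) * w = s * w + 2 * w := by ring
        have e2 : s * (w + 1) = s * w + s := by ring
        omega
  · refine ⟨u, t - u, j, ⟨by omega, by omega, by omega⟩, by omega, ?_, ?_⟩
    · obtain ⟨x, rfl⟩ := Nat.exists_eq_add_of_le h1
      rw [Nat.add_sub_cancel_left]
      unfold sz
      ring
    · refine key _ _ ?_
      have := step_two_a (s := s) (V := s * u + t) (j := j) (B := B) rfl hB ht hj h1
      convert this using 2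
      have e1 : (s + 2) * u = s * u + 2 * u := by ring
      omega

theorem chain_step (h𝓘 : Stable 𝓘) {s u t j : ℕ} (hs : 0 < s) (hg : Good s u t j) (B : ℕ) (hB : u ≤ B)
    (hK : ∀ k : ℕ, 0 < k → k ≤ B → (k : K) ≠ 0) :
    ∃ u' t' j', Good (s + 2) u' t' j' ∧ u' ≤ u ∧ sz (s + 2) u' t' j' = sz s u t j ∧
      (RkS 𝓘 (Lset (s + 2) ((s + 2) * u' + t') j') n → RkS 𝓘 (Lset s (s * u + t) j) n) := by
  by_cases hu : u ≤ s + 1 + t + (if 0 < j then 1 else 0)
  · exact chain_step_aux h𝓘 hs hg hu B hB hK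
  · obtain ⟨ht, hj, hu2⟩ := hg
    have hj0 : j = 0 := by
      by_contra h
      rw [if_pos (Nat.pos_of_ne_zero h)] at hu
      omega
    subst hj0
    have ht0 : t = 0 := by
      split_ifs at hu <;> omega
    subst ht0
    have hu' : u = s + 2 := by
      split_ifs at hu <;> omega
    subst hu'
    obtain ⟨u', t', j', h1, h2, h3, h4⟩ := chain_step_aux (n := n) h𝓘 (s := s)
      (u := s + 1) (t := s - 1) (j := s + 2) hs ⟨by omega, by omega, by omega⟩
      (by rw [if_pos (by omega)]; omega) B (by omega) hK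
    refine ⟨u', t', j', h1, by omega, ?_, ?_⟩
    · rw [h3]
      obtain ⟨w, rfl⟩ : ∃ w, s = w + 1 := ⟨s - 1, by omega⟩
      rw [Nat.add_sub_cancel]
      unfold sz
      ring
    · rw [add_zero, Lset_boundary hs]
      exact h4

theorem chain (h𝓘 : Stable 𝓘) {s : ℕ} (hs : 0 < s) (B : ℕ) (hK : ∀ k : ℕ, 0 < k → k ≤ B → (k : K) ≠ 0) (κ : ℕ) :
    ∀ u t j, Good s u t j → u ≤ B →
    ∃ u' t' j', Good (s + 2 * κ) u' t' j' ∧ u' ≤ u ∧ sz (s + 2 * κ) u' t' j' = sz s u t j ∧
      (RkS 𝓘 (Lset (s + 2 * κ) ((s + 2 * κ) * u' + t') j') n →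
        RkS 𝓘 (Lset s (s * u + t) j) n) := by
  induction κ with
  | zero =>
    intro u t j hg _
    exact ⟨u, t, j, hg, le_rfl, rfl, fun h => h⟩
  | succ κ ih =>
    intro u t j hg hB
    obtain ⟨u', t', j', h1, h2, h3, h4⟩ := ih u t j hg hB
    obtain ⟨u'', t'', j'', h1', h2', h3', h4'⟩ := chain_step (n := n) h𝓘
      (by omega) h1 B (by omega) hK
    exact ⟨u'', t'', j'', h1', by omega, h3'.trans h3, fun h => h4 (h4' h)⟩

/-- Full rank of the balanced shape of slope `s` from that of slope `r = s + 2 κ`. -/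
theorem RkS.balanced (h𝓘 : Stable 𝓘) {r s κ : ℕ} (hs : 0 < s) (hr : r = s + 2 * κ)
    {u₀ t₀ j₀ : ℕ} (ht₀ : t₀ < r) (hj₀ : j₀ ≤ u₀ + 1)
    (hbase : RkS 𝓘 (↑(Lfin r u₀ t₀ j₀) : Set (ℕ × ℕ)) (Lfin r u₀ t₀ j₀).card)
    {u t j : ℕ} (ht : t < s) (hj : j ≤ u + 1) (h : sz s u t j = sz r u₀ t₀ j₀)
    (hc : κ = 0 ∨ sz r u₀ t₀ j₀ < s * (s + 3) * (s + 4)) (B : ℕ) (hB : u ≤ B)
    (hK : ∀ k : ℕ, 0 < k → k ≤ B → (k : K) ≠ 0) :
    RkS 𝓘 (↑(Lfin s u t j) : Set (ℕ × ℕ)) (Lfin s u t j).card := by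
  rcases hc with rfl | hc
  · rw [mul_zero, add_zero] at hr
    subst hr
    rwa [Lfin_eq ht hj ht₀ hj₀ h]
  · have hg : Good s u t j := good_of_sz ht hj (by rw [h]; exact hc)
    obtain ⟨u', t', j', h1, h2, h3, h4⟩ := chain (n := (Lfin s u t j).card) h𝓘
      hs B hK κ u t j hg hB
    rw [coe_Lfin ht hj]
    refine h4 ?_
    rw [← hr] at h1 h3 ⊢
    rw [← coe_Lfin h1.1 h1.2.1, Lfin_eq h1.1 h1.2.1 ht₀ hj₀ (h3.trans h)]
    have h6 : (Lfin r u₀ t₀ j₀).card = (Lfin s u t j).card := by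
      have h7 := card_Lfin (s := r) (t := t₀) hj₀
      have h8 := card_Lfin (s := s) (t := t) hj
      omega
    rw [← h6]
    exact hbase

end Pool.Agent.H932R3
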