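import Mathlib
import Pool.Agent.H932R3.Diff

set_option autoImplicit false

/-!
# Choosing the position of a gadget
-/

namespace Pool.Agent.H932R3

/-- Lower end of the window. -/
noncomputable def wl (k : ℕ) (P : ℝ) : ℝ := ck k / (2 * P ^ (k + 2))

/-- Upper end of the window. -/
noncomputable def wu (k : ℕ) (P : ℝ) : ℝ := 9 * ck k / (10 * P ^ (k + 2))

theorem wl_succ (k : ℕ) {P : ℝ} (hP : 0 < P) :
    wl (k + 1) (5 * P) = 5 * (k + 2) / P * (ck k / P ^ (k + 2)) := by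
  unfold wl
  rw [ck_succ]
  have h : (shi k : ℝ) = 10 * 5 ^ (k + 3) := by
    unfold shi
    push_cast
    ring
  rw [h, mul_pow]
  have : k + 1 + 2 = k + 3 := by ring
  rw [this, pow_succ P (k + 2)]
  field_simp
  ring

theorem wu_succ (k : ℕ) {P : ℝ} (hP : 0 < P) :
    wu (k + 1) (5 * P) = wl (k + 1) (5 * P) + 4 * (k + 2) * ck k / P ^ (k + 3) := by
  rw [wl_succ k hP]
  unfold wu
  rw [ck_succ]
  have h : (shi k : ℝ) = 10 * 5 ^ (k + 3) := by
    unfold shi
    push_cast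
    ring
  rw [h, mul_pow]
  have : k + 1 + 2 = k + 3 := by ring
  rw [this, pow_succ P (k + 2)]
  field_simp
  ring

theorem pow_ratio {P a : ℝ} (n : ℕ) (hP : 0 < P) (ha : 0 ≤ a) (h : 10 * (n * a) ≤ P) :
    9 * (P + a) ^ n ≤ 10 * P ^ n := by
  have h1 : -2 ≤ -(a / (P + a)) := by
    have : a / (P + a) ≤ 1 := by
      rw [div_le_one (by positivity)]
      linarith
    linarith
  have h2 := one_add_mul_le_pow h1 n
  have h3 : 1 + -(a / (P + a)) = P / (P + a) := by
    field_simp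
    ring
  rw [h3, div_pow] at h2
  have h4 : n * a / (P + a) ≤ 1 / 10 := by
    rw [div_le_div_iff₀ (by positivity) (by norm_num)]
    linarith
  have h5 : (9 : ℝ) / 10 ≤ P ^ n / (P + a) ^ n := by
    refine le_trans ?_ h2
    have : (n : ℝ) * -(a / (P + a)) = -(n * a / (P + a)) := by ring
    rw [this]
    linarith
  rw [div_le_div_iff₀ (by norm_num) (by positivity)] at h5
  linarith

theorem stage (k P : ℕ) (hP : 10 * ((k + 2) * (3 + shS k)) ≤ P) {T : ℝ} (hT1 : wl k P ≤ T)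
    (hT2 : T ≤ wu k P) :
    ∃ i : ℕ, P + 3 + 4 * i ≤ 2 * P + 3 ∧
      wl (k + 1) (5 * P) ≤ T - Gk k ((P + 3 + 4 * i : ℕ) : ℝ) ∧
      T - Gk k ((P + 3 + 4 * i : ℕ) : ℝ) ≤ wu (k + 1) (5 * P) := by
  classical
  have hS : 4 ≤ shS k := by
    induction k with
    | zero => exact le_refl _
    | succ k _ =>
      have h1 := shS_le k
      rw [shS]
      omega
  have hP0 : 0 < P := by
    have : 0 < (k + 2) * (3 + shS k) := by positivity
    omega
  have hPR : (0 : ℝ) < P := by exact_mod_cast hP0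
  have hPk : 20 * (k + 2) ≤ P := by
    have : (k + 2) * 2 ≤ (k + 2) * (3 + shS k) := Nat.mul_le_mul_left _ (by omega)
    omega
  have hc := ck_pos k
  obtain ⟨A, hA⟩ : ∃ A, A = ck k / (P : ℝ) ^ (k + 2) := ⟨_, rfl⟩
  have hA0 : 0 < A := by rw [hA]; positivity
  have hwl : wl k P = A / 2 := by
    rw [hA]; unfold wl; field_simp
  have hwu : wu k P = 9 / 10 * A := by
    rw [hA]; unfold wu; field_simp
  have hl' : wl (k + 1) (5 * P) ≤ A / 4 := by
    rw [wl_succ k hPR, ← hA]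
    have h1 : 5 * ((k : ℝ) + 2) / P ≤ 1 / 4 := by
      rw [div_le_div_iff₀ hPR (by norm_num)]
      have : ((20 * (k + 2) : ℕ) : ℝ) ≤ P := by exact_mod_cast hPk
      push_cast at this
      linarith
    nlinarith
  have hl0 : 0 < wl (k + 1) (5 * P) := by
    rw [wl_succ k hPR, ← hA]
    positivity
  have hex : ∃ i : ℕ, Gk k ((P + 3 + 4 * i : ℕ) : ℝ) ≤ T - wl (k + 1) (5 * P) := by
    refine ⟨P / 4, ?_⟩
    have h1 : 2 * P ≤ P + 3 + 4 * (P / 4) := by omega
    have h2 : (2 * (P : ℝ)) ≤ ((P + 3 + 4 * (P / 4) : ℕ) : ℝ) := by exact_mod_cast h1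
    have h3 := (Gk_bounds k (y := ((P + 3 + 4 * (P / 4) : ℕ) : ℝ)) (by linarith)).2
    have h4 : ck k / ((P + 3 + 4 * (P / 4) : ℕ) : ℝ) ^ (k + 2) ≤ ck k / (2 * (P : ℝ)) ^ (k + 2) :=
      div_le_div_of_nonneg_left hc.le (by positivity) (pow_le_pow_left₀ (by positivity) h2 _)
    have h5 : ck k / (2 * (P : ℝ)) ^ (k + 2) ≤ A / 4 := by
      rw [mul_pow, hA, div_div, div_le_div_iff₀ (by positivity) (by positivity)]
      have h6 : (4 : ℝ) ≤ 2 ^ (k + 2) := by
        have : (1 : ℝ) ≤ 2 ^ k := one_le_pow₀ (by norm_num)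
        rw [pow_add]
        norm_num
        linarith
      have h7 : 0 < ck k * (P : ℝ) ^ (k + 2) := by positivity
      nlinarith
    linarith
  obtain ⟨i, hi, hmin⟩ : ∃ i : ℕ, Gk k ((P + 3 + 4 * i : ℕ) : ℝ) ≤ T - wl (k + 1) (5 * P) ∧
      ∀ j < i, ¬ Gk k ((P + 3 + 4 * j : ℕ) : ℝ) ≤ T - wl (k + 1) (5 * P) :=
    ⟨Nat.find hex, Nat.find_spec hex, fun j hj => Nat.find_min hex hj⟩
  have hbig : ∀ j : ℕ, 2 * P ≤ P + 3 + 4 * j →
      Gk k ((P + 3 + 4 * j : ℕ) : ℝ) ≤ T - wl (k + 1) (5 * P) := by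
    intro j h1
    have h2 : (2 * (P : ℝ)) ≤ ((P + 3 + 4 * j : ℕ) : ℝ) := by exact_mod_cast h1
    have h3 := (Gk_bounds k (y := ((P + 3 + 4 * j : ℕ) : ℝ)) (by linarith)).2
    have h4 : ck k / ((P + 3 + 4 * j : ℕ) : ℝ) ^ (k + 2) ≤ ck k / (2 * (P : ℝ)) ^ (k + 2) :=
      div_le_div_of_nonneg_left hc.le (by positivity) (pow_le_pow_left₀ (by positivity) h2 _)
    have h5 : ck k / (2 * (P : ℝ)) ^ (k + 2) ≤ A / 4 := by
      rw [mul_pow, hA, div_div, div_le_div_iff₀ (by positivity) (by positivity)]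
      have h6 : (4 : ℝ) ≤ 2 ^ (k + 2) := by
        have : (1 : ℝ) ≤ 2 ^ k := one_le_pow₀ (by norm_num)
        rw [pow_add]
        norm_num
        linarith
      have h7 : 0 < ck k * (P : ℝ) ^ (k + 2) := by positivity
      nlinarith
    linarith
  refine ⟨i, ?_, by linarith, ?_⟩
  · by_contra hcon
    have hi0 : 0 < i := by omega
    exact hmin (i - 1) (by omega) (hbig (i - 1) (by omega))
  · rcases Nat.eq_zero_or_pos i with rfl | hi0
    · exfalso
      have h1 := (Gk_bounds k (y := ((P + 3 + 4 * 0 : ℕ) : ℝ)) (by positivity)).1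
      have h2 : ((P + 3 + 4 * 0 : ℕ) : ℝ) + shS k = P + (3 + shS k : ℕ) := by
        push_cast
        ring
      rw [h2] at h1
      have h3 := pow_ratio (P := (P : ℝ)) (a := ((3 + shS k : ℕ) : ℝ)) (k + 2) hPR
        (Nat.cast_nonneg _) (by
          have : ((10 * ((k + 2) * (3 + shS k)) : ℕ) : ℝ) ≤ P := by exact_mod_cast hP
          push_cast at this ⊢
          linarith)
      have h4 : 9 / 10 * A ≤ ck k / ((P : ℝ) + ((3 + shS k : ℕ) : ℝ)) ^ (k + 2) := by
        rw [hA, ← mul_div_assoc, div_le_div_iff₀ (by positivity) (by positivity)]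
        nlinarith
      linarith
    · have h1 := hmin (i - 1) (by omega)
      rw [not_le] at h1
      have hy : (0 : ℝ) < ((P + 3 + 4 * (i - 1) : ℕ) : ℝ) := by positivity
      have h2 := Gk_diff k hy
      have h3 : ((P + 3 + 4 * (i - 1) : ℕ) : ℝ) + 4 = ((P + 3 + 4 * i : ℕ) : ℝ) := by
        have : P + 3 + 4 * (i - 1) + 4 = P + 3 + 4 * i := by omega
        rw [← this]
        push_cast
        ring
      rw [h3] at h2
      have h4 : 4 * (k + 2) * ck k / ((P + 3 + 4 * (i - 1) : ℕ) : ℝ) ^ (k + 3) ≤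
          4 * (k + 2) * ck k / (P : ℝ) ^ (k + 3) := by
        refine div_le_div_of_nonneg_left (by positivity) (by positivity)
          (pow_le_pow_left₀ hPR.le ?_ _)
        have : P ≤ P + 3 + 4 * (i - 1) := by omega
        exact_mod_cast this
      rw [wu_succ k hPR]
      linarith

end Pool.Agent.H932R3
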