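import Mathlib
import Pool.Agent.H932R3.Walk

set_option autoImplicit false

/-!
# Reachable slopes very close to every large integer
-/

namespace Pool.Agent.H932R3

theorem ck_zero : ck 0 = 4 := by
  unfold ck
  norm_num [shQ]

theorem main_ind {δ r P K : ℕ} (hδ : 0 < δ) (hP : 15 ≤ P) (hsm : Small r P)
    (hmod : P % 4 = r % 4) (hth : ∀ k ≤ K, 10 * ((k + 2) * (3 + shS k)) ≤ P)
    (hr : 5 ^ (K + 1) * P ≤ r) (hbud : 4 * ((K : ℝ) + 2) / (P : ℝ) ^ 2 ≤ 1 / (32 * (r : ℝ)))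
    {T : ℝ} (hT : RR δ r P T) (hT1 : wl 0 P ≤ T) (hT2 : T ≤ wu 0 P) :
    ∃ σ T', Reach δ σ ∧ Real.log σ = Real.log r - 2 * T' ∧ 0 < T' ∧
      T' ≤ wu (K + 1) (5 ^ (K + 1) * (P : ℝ)) := by
  have hPR : (0 : ℝ) < P := by exact_mod_cast (show 0 < P by omega)
  have hmodk : ∀ k : ℕ, (5 ^ k * P) % 4 = r % 4 := by
    intro k
    have h : 5 ^ k % 4 = 1 := by
      rw [Nat.pow_mod]
      norm_num
    rw [Nat.mul_mod, h, one_mul, Nat.mod_mod, hmod]
  have hG0 : Gk 0 P ≤ 4 / (P : ℝ) ^ 2 := by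
    have := (Gk_bounds 0 hPR).2
    rwa [ck_zero] at this
  have hwu0 : wu 0 P ≤ 4 / (P : ℝ) ^ 2 := by
    unfold wu
    have h2 : (P : ℝ) ^ (0 + 2) = (P : ℝ) ^ 2 := rfl
    rw [ck_zero, h2, div_le_div_iff₀ (by positivity) (by positivity)]
    nlinarith [pow_pos hPR 2]
  have hwl0 : ∀ k (x : ℝ), 0 < x → 0 < wl k x := by
    intro k x hx
    unfold wl
    have := ck_pos k
    positivity
  have key : ∀ k ≤ K + 1, ∃ T', RR δ r (5 ^ k * P) T' ∧ wl k (5 ^ k * (P : ℝ)) ≤ T' ∧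
      T' ≤ wu k (5 ^ k * (P : ℝ)) ∧ T' ≤ 4 / (P : ℝ) ^ 2 := by
    intro k
    induction k with
    | zero =>
      intro _
      refine ⟨T, by simpa using hT, by simpa using hT1, by simpa using hT2, hT2.trans hwu0⟩
    | succ k ih =>
      intro hk
      obtain ⟨T', h1, h2, h3, h4⟩ := ih (by omega)
      have h5 := hth k (by omega)
      have h6 : P ≤ 5 ^ k * P := Nat.le_mul_of_pos_left P (by positivity)
      have hSk : shS k + 10 ≤ P := by
        have : 1 * (3 + shS k) ≤ (k + 2) * (3 + shS k) := Nat.mul_le_mul_right _ (by omega)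
        omega
      have h7 : ((5 ^ k * P : ℕ) : ℝ) = 5 ^ k * (P : ℝ) := by push_cast; ring
      obtain ⟨i, hi1, hi2, hi3⟩ := stage k (5 ^ k * P) (h5.trans h6) (T := T')
        (by rw [h7]; exact h2) (by rw [h7]; exact h3)
      have h8 : 5 ^ (k + 1) * P = 5 * (5 ^ k * P) := by ring
      have h8' : (5 : ℝ) ^ (k + 1) * P = 5 * (5 ^ k * P) := by ring
      have h9 : 5 ^ (k + 1) * P ≤ r :=
        (Nat.mul_le_mul_right P (Nat.pow_le_pow_right (by norm_num) hk)).trans hr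
      have hT0 : 0 < T' := lt_of_lt_of_le (hwl0 k _ (by positivity)) h2
      have hkK : (k : ℝ) ≤ K := by exact_mod_cast (show k ≤ K by omega)
      have h10 := (RR.gad hδ hP hsm k).1 (5 ^ k * P) (5 ^ k * P + 3 + 4 * i) (5 ^ (k + 1) * P) T'
        h6 (hmodk k) (hmodk (k + 1)) (by omega) (by
          have := hmodk k
          omega) (by omega) h9 (by
          rw [abs_of_pos hT0]
          refine le_trans ?_ hbud
          have h11 : (k + 1) * Gk 0 P ≤ (K + 1) * (4 / (P : ℝ) ^ 2) :=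
            mul_le_mul (by linarith) hG0 (Gk_pos 0 hPR).le (by positivity)
          have h12 : 4 * ((K : ℝ) + 2) / (P : ℝ) ^ 2 =
              4 / (P : ℝ) ^ 2 + (K + 1) * (4 / (P : ℝ) ^ 2) := by ring
          rw [h12]
          linarith) h1
      have hy : (0 : ℝ) < ((5 ^ k * P + 3 + 4 * i : ℕ) : ℝ) := by positivity
      have h13 := Gk_pos k hy
      refine ⟨_, h10, ?_, ?_, by linarith⟩
      · rw [h8', ← h7]
        exact hi2
      · rw [h8', ← h7]
        exact hi3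
  obtain ⟨T', h1, h2, h3, h4⟩ := key (K + 1) le_rfl
  have hT0 : 0 < T' := lt_of_lt_of_le (hwl0 (K + 1) _ (by positivity)) h2
  have h5 : P ≤ 5 ^ (K + 1) * P := Nat.le_mul_of_pos_left P (by positivity)
  obtain ⟨σ, hσ, hlog⟩ := RR.to hδ hP hsm h5 (hmodk (K + 1)) rfl (T := T') (by
    rw [abs_of_pos hT0]
    refine h4.trans (le_trans ?_ hbud)
    have h6 : 4 * ((K : ℝ) + 2) / (P : ℝ) ^ 2 =
        4 / (P : ℝ) ^ 2 + (K + 1) * (4 / (P : ℝ) ^ 2) := by ring
    rw [h6]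
    have : 0 ≤ ((K : ℝ) + 1) * (4 / (P : ℝ) ^ 2) := by positivity
    linarith) h1 hr le_rfl
  refine ⟨σ, T', hσ, ?_, hT0, h3⟩
  rw [hlog]
  unfold gam
  ring

theorem log_bounds {u : ℝ} (hu : 0 < u) : u / (1 + u) ≤ Real.log (1 + u) ∧
    Real.log (1 + u) ≤ u := by
  have h1 : 0 < 1 + u := by linarith
  constructor
  · have h2 := Real.one_sub_inv_le_log_of_pos h1
    have h3 : u / (1 + u) = 1 - (1 + u)⁻¹ := by
      field_simp
      ring
    rw [h3]
    exact h2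
  · have := Real.log_le_sub_one_of_pos h1
    linarith

theorem start_two {δ r : ℕ} (hδ : 1000 ≤ δ * δ) (hmod : (δ * δ + 10) % 4 = r % 4)
    (hr : δ * δ + 10 ≤ r) :
    ∃ T, RR δ r (δ * δ + 10) T ∧ wl 0 ((δ * δ + 10 : ℕ) : ℝ) ≤ T ∧
      T ≤ wu 0 ((δ * δ + 10 : ℕ) : ℝ) := by
  obtain ⟨X, hX⟩ : ∃ X : ℝ, X = (δ : ℝ) ^ 2 := ⟨_, rfl⟩
  have hX1 : 1000 ≤ X := by
    have : ((1000 : ℕ) : ℝ) ≤ ((δ * δ : ℕ) : ℝ) := by exact_mod_cast hδ
    push_cast at this
    rw [hX, pow_two]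
    linarith
  have hX0 : 0 < X := by linarith
  have hcast : ((δ * δ : ℕ) : ℝ) = X := by rw [hX]; push_cast; ring
  have h1 : Reach δ X := by rw [hX]; exact Reach.base
  have h2 := Reach.step X (δ * δ + 3) h1 (by push_cast at hcast ⊢; rw [hcast]; linarith)
  have e3 : ((δ * δ + 3 : ℕ) : ℝ) = X + 3 := by rw [← hcast]; push_cast; ring
  have e8 : ((δ * δ + 8 : ℕ) : ℝ) = X + 8 := by rw [← hcast]; push_cast; ring
  have e10 : ((δ * δ + 10 : ℕ) : ℝ) = X + 10 := by rw [← hcast]; push_cast; ring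
  rw [e3] at h2
  have h3 := Reach.step _ (δ * δ + 8) h2 (by
    rw [e8, div_le_iff₀ hX0]
    nlinarith)
  rw [e8] at h3
  obtain ⟨hg1, hg2⟩ := gam_le (p := δ * δ + 10) (by omega) ((r - (δ * δ + 10)) / 4)
  have hrr : δ * δ + 10 + 4 * ((r - (δ * δ + 10)) / 4) = r := by omega
  rw [hrr] at hg1 hg2
  have hg2' : gam (δ * δ + 10) - gam r ≤ 1 / (4 * (X + 10 - 2) ^ 2) := by
    refine hg2.trans ?_
    rw [e10]
    have : 0 ≤ 1 / (4 * (X + 10 + 4 * (((r - (δ * δ + 10)) / 4 : ℕ) : ℝ) - 2) ^ 2) := by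
      positivity
    linarith
  obtain ⟨u, hu⟩ : ∃ u, u = (5 * X + 90) / (X * (X + 8) ^ 2) := ⟨_, rfl⟩
  have hu0 : 0 < u := by rw [hu]; positivity
  obtain ⟨hl1, hl2⟩ := log_bounds hu0
  have hlog : Real.log ((X + 8) ^ 2 / ((X + 3) ^ 2 / X)) =
      Real.log (X + 10) - Real.log (1 + u) := by
    have h4 : 1 + u = ((X + 10) * (X + 3) ^ 2) / (X * (X + 8) ^ 2) := by
      rw [hu]
      field_simp
      ring
    rw [h4, Real.log_div (by positivity) (by positivity), Real.log_div (by positivity)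
      (by positivity), Real.log_div (by positivity) (by positivity), Real.log_mul (by positivity)
      (by positivity), Real.log_mul (by positivity) (by positivity)]
    ring
  have hgam : gam (δ * δ + 10) = bet (δ * δ + 10) - Real.log (X + 10) / 2 := by
    unfold gam
    rw [e10]
  refine ⟨gam (δ * δ + 10) - gam r + Real.log (1 + u) / 2, ⟨_, h3, ?_⟩, ?_, ?_⟩
  · rw [hlog, hgam]
    ring
  · unfold wl
    rw [ck_zero, e10]
    have h5 : 4 / (X + 10) ^ 2 ≤ u / (1 + u) := by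
      have h6 : u / (1 + u) = (5 * X + 90) / ((X + 10) * (X + 3) ^ 2) := by
        rw [hu]
        field_simp
        ring
      rw [h6, div_le_div_iff₀ (by positivity) (by positivity)]
      have h7 : 0 ≤ (5 * X + 90) * (X + 10) - 4 * (X + 3) ^ 2 := by nlinarith
      have h8 : 0 ≤ (X + 10) * ((5 * X + 90) * (X + 10) - 4 * (X + 3) ^ 2) :=
        mul_nonneg (by linarith) h7
      nlinarith
    have h9 : (4 : ℝ) / (2 * (X + 10) ^ (0 + 2)) = (4 / (X + 10) ^ 2) / 2 := by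
      field_simp
    rw [h9]
    linarith
  · unfold wu
    rw [ck_zero, e10]
    have h5 : 1 / (4 * (X + 10 - 2) ^ 2) + u / 2 ≤ 9 * 4 / (10 * (X + 10) ^ (0 + 2)) := by
      have h6 : 1 / (4 * (X + 10 - 2) ^ 2) + u / 2 =
          (X + 2 * (5 * X + 90)) / (4 * X * (X + 8) ^ 2) := by
        rw [hu]
        have : X + 10 - 2 = X + 8 := by ring
        rw [this]
        field_simp
        ring
      rw [h6, div_le_div_iff₀ (by positivity) (by positivity)]
      obtain ⟨y, hy, rfl⟩ : ∃ y : ℝ, 0 ≤ y ∧ X = y + 1000 := ⟨X - 1000, by linarith, by ring⟩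
      have h7 : 0 ≤ 9 * 4 * (4 * (y + 1000) * (y + 1000 + 8) ^ 2) -
          (y + 1000 + 2 * (5 * (y + 1000) + 90)) * (10 * (y + 1000 + 10) ^ (0 + 2)) := by
        ring_nf
        positivity
      linarith
    linarith

theorem start_zero {δ r : ℕ} (hδ : 1000 ≤ δ * δ) (hmod : (δ * δ + 16) % 4 = r % 4)
    (hr : δ * δ + 16 ≤ r) :
    ∃ T, RR δ r (δ * δ + 16) T ∧ wl 0 ((δ * δ + 16 : ℕ) : ℝ) ≤ T ∧
      T ≤ wu 0 ((δ * δ + 16 : ℕ) : ℝ) := by
  obtain ⟨X, hX⟩ : ∃ X : ℝ, X = (δ : ℝ) ^ 2 := ⟨_, rfl⟩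
  have hX1 : 1000 ≤ X := by
    have : ((1000 : ℕ) : ℝ) ≤ ((δ * δ : ℕ) : ℝ) := by exact_mod_cast hδ
    push_cast at this
    rw [hX, pow_two]
    linarith
  have hX0 : 0 < X := by linarith
  have hcast : ((δ * δ : ℕ) : ℝ) = X := by rw [hX]; push_cast; ring
  have h1 : Reach δ X := by rw [hX]; exact Reach.base
  have e1 : ((δ * δ + 1 : ℕ) : ℝ) = X + 1 := by rw [← hcast]; push_cast; ring
  have e6 : ((δ * δ + 6 : ℕ) : ℝ) = X + 6 := by rw [← hcast]; push_cast; ring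
  have e13 : ((δ * δ + 13 : ℕ) : ℝ) = X + 13 := by rw [← hcast]; push_cast; ring
  have e16 : ((δ * δ + 16 : ℕ) : ℝ) = X + 16 := by rw [← hcast]; push_cast; ring
  have h2 := Reach.step X (δ * δ + 1) h1 (by rw [e1]; linarith)
  rw [e1] at h2
  have h3 := Reach.step _ (δ * δ + 6) h2 (by
    rw [e6, div_le_iff₀ hX0]
    nlinarith)
  rw [e6] at h3
  have h3' := Reach.step _ (δ * δ + 13) h3 (by
    rw [e13, div_le_iff₀ (by positivity), mul_div_assoc', le_div_iff₀ hX0]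
    nlinarith)
  rw [e13] at h3'
  obtain ⟨hg1, hg2⟩ := gam_le (p := δ * δ + 16) (by omega) ((r - (δ * δ + 16)) / 4)
  have hrr : δ * δ + 16 + 4 * ((r - (δ * δ + 16)) / 4) = r := by omega
  rw [hrr] at hg1 hg2
  have hg2' : gam (δ * δ + 16) - gam r ≤ 1 / (4 * (X + 16 - 2) ^ 2) := by
    refine hg2.trans ?_
    rw [e16]
    have : 0 ≤ 1 / (4 * (X + 16 + 4 * (((r - (δ * δ + 16)) / 4 : ℕ) : ℝ) - 2) ^ 2) := by
      positivity
    linarith
  obtain ⟨u, hu⟩ : ∃ u, u = (6 * X ^ 2 + 212 * X - 169) / ((X + 13) ^ 2 * (X + 1) ^ 2) := ⟨_, rfl⟩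
  have hnum : 0 < 6 * X ^ 2 + 212 * X - 169 := by nlinarith
  have hu0 : 0 < u := by rw [hu]; positivity
  obtain ⟨hl1, hl2⟩ := log_bounds hu0
  have hlog : Real.log ((X + 13) ^ 2 / ((X + 6) ^ 2 / ((X + 1) ^ 2 / X))) =
      Real.log (X + 16) - Real.log (1 + u) := by
    have h4 : 1 + u = ((X + 16) * X * (X + 6) ^ 2) / ((X + 13) ^ 2 * (X + 1) ^ 2) := by
      rw [hu]
      field_simp
      ring
    rw [h4, Real.log_div (by positivity) (by positivity), Real.log_div (by positivity)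
      (by positivity), Real.log_div (by positivity) (by positivity), Real.log_div (by positivity)
      (by positivity), Real.log_mul (by positivity)
      (by positivity), Real.log_mul (by positivity) (by positivity), Real.log_mul (by positivity)
      (by positivity)]
    ring
  have hgam : gam (δ * δ + 16) = bet (δ * δ + 16) - Real.log (X + 16) / 2 := by
    unfold gam
    rw [e16]
  refine ⟨gam (δ * δ + 16) - gam r + Real.log (1 + u) / 2, ⟨_, h3', ?_⟩, ?_, ?_⟩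
  · rw [hlog, hgam]
    ring
  · unfold wl
    rw [ck_zero, e16]
    have h5 : 4 / (X + 16) ^ 2 ≤ u / (1 + u) := by
      have h6 : u / (1 + u) = (6 * X ^ 2 + 212 * X - 169) / ((X + 16) * X * (X + 6) ^ 2) := by
        have hDN : (X + 13) ^ 2 * (X + 1) ^ 2 + (6 * X ^ 2 + 212 * X - 169) =
            (X + 16) * X * (X + 6) ^ 2 := by ring
        rw [hu, ← hDN]
        have hD0 : (X + 13) ^ 2 * (X + 1) ^ 2 ≠ 0 := by positivity
        have hD1 : (X + 13) ^ 2 * (X + 1) ^ 2 + (6 * X ^ 2 + 212 * X - 169) ≠ 0 := by positivity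
        generalize (X + 13) ^ 2 * (X + 1) ^ 2 = D at hD0 hD1
        generalize 6 * X ^ 2 + 212 * X - 169 = N at hD1
        have hD2 : 1 + N / D ≠ 0 := by
          have : 1 + N / D = (D + N) / D := by field_simp
          rw [this]
          positivity
        field_simp
      rw [h6, div_le_div_iff₀ (by positivity) (by positivity)]
      have h7 : 0 ≤ (6 * X ^ 2 + 212 * X - 169) * (X + 16) - 4 * (X * (X + 6) ^ 2) := by
        obtain ⟨y, hy, rfl⟩ : ∃ y : ℝ, 0 ≤ y ∧ X = y + 1000 := ⟨X - 1000, by linarith, by ring⟩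
        ring_nf
        positivity
      have h8 : 0 ≤ (X + 16) * ((6 * X ^ 2 + 212 * X - 169) * (X + 16) -
          4 * (X * (X + 6) ^ 2)) := mul_nonneg (by linarith) h7
      nlinarith
    have h9 : (4 : ℝ) / (2 * (X + 16) ^ (0 + 2)) = (4 / (X + 16) ^ 2) / 2 := by
      field_simp
    rw [h9]
    linarith
  · unfold wu
    rw [ck_zero, e16]
    have h5 : 1 / (4 * (X + 16 - 2) ^ 2) + u / 2 ≤ 9 * 4 / (10 * (X + 16) ^ (0 + 2)) := by
      have h6 : 1 / (4 * (X + 16 - 2) ^ 2) + u / 2 =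
          ((X + 13) ^ 2 * (X + 1) ^ 2 + 2 * (6 * X ^ 2 + 212 * X - 169) * (X + 14) ^ 2) /
            (4 * (X + 14) ^ 2 * ((X + 13) ^ 2 * (X + 1) ^ 2)) := by
        rw [hu]
        have : X + 16 - 2 = X + 14 := by ring
        rw [this]
        field_simp
        ring
      rw [h6, div_le_div_iff₀ (by positivity) (by positivity)]
      obtain ⟨y, hy, rfl⟩ : ∃ y : ℝ, 0 ≤ y ∧ X = y + 1000 := ⟨X - 1000, by linarith, by ring⟩
      have h7 : 0 ≤ 9 * 4 * (4 * (y + 1000 + 14) ^ 2 * ((y + 1000 + 13) ^ 2 *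
          (y + 1000 + 1) ^ 2)) -
          ((y + 1000 + 13) ^ 2 * (y + 1000 + 1) ^ 2 +
            2 * (6 * (y + 1000) ^ 2 + 212 * (y + 1000) - 169) * (y + 1000 + 14) ^ 2) *
            (10 * (y + 1000 + 16) ^ (0 + 2)) := by
        ring_nf
        positivity
      linarith
    linarith

theorem choose_delta {A r : ℕ} (hA : 0 < A) (hr : 1000 * A ≤ r) :
    ∃ δ P, (P = δ * δ + 10 ∨ P = δ * δ + 16) ∧ P % 4 = r % 4 ∧ A * P ≤ r ∧ r ≤ 3 * (A * P) := by
  have hL : 1000 ≤ r / A := (Nat.le_div_iff_mul_le hA).2 (by linarith)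
  have hL1 : A * (r / A) ≤ r := Nat.mul_div_le r A
  have hL2 : r < A * (r / A) + A := by
    have h1 := Nat.div_add_mod r A
    have h2 := Nat.mod_lt r hA
    omega
  obtain ⟨L, hLd⟩ : ∃ L, L = r / A := ⟨_, rfl⟩
  rw [← hLd] at hL hL1 hL2
  have h0 : (L - 16).sqrt * (L - 16).sqrt ≤ L - 16 := Nat.sqrt_le _
  have h1 : L - 16 < ((L - 16).sqrt + 1) * ((L - 16).sqrt + 1) := Nat.lt_succ_sqrt _
  obtain ⟨q, hq⟩ : ∃ q, q = (L - 16).sqrt := ⟨_, rfl⟩
  rw [← hq] at h0 h1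
  have hq10 : 10 ≤ q := by
    rw [hq]
    exact Nat.le_sqrt.2 (by omega)
  obtain ⟨δ, hδ1, hδ2, hδ3⟩ : ∃ δ, δ ≤ q ∧ q ≤ δ + 1 ∧ δ % 2 = r % 2 := by
    by_cases h : q % 2 = r % 2
    · exact ⟨q, le_rfl, by omega, h⟩
    · exact ⟨q - 1, by omega, by omega, by omega⟩
  have h2 : δ * δ ≤ L - 16 := (Nat.mul_le_mul hδ1 hδ1).trans h0
  have h3 : L - 16 < (δ + 2) * (δ + 2) := lt_of_lt_of_le h1 (Nat.mul_le_mul (by omega) (by omega))
  have h4 : (δ + 2) * (δ + 2) = δ * δ + 4 * δ + 4 := by ring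
  have h5 : 16 * δ ≤ δ * δ + 64 := by nlinarith [sq_nonneg ((δ : ℤ) - 8)]
  have hδmod : δ * δ % 4 = (δ % 2) := by
    rcases Nat.even_or_odd' δ with ⟨c, rfl | rfl⟩
    · have : 2 * c * (2 * c) = 4 * (c * c) := by ring
      omega
    · have : (2 * c + 1) * (2 * c + 1) = 4 * (c * c + c) + 1 := by ring
      omega
  have hPex : ∃ P, (P = δ * δ + 10 ∨ P = δ * δ + 16) ∧ P % 4 = r % 4 := by
    by_cases h : (δ * δ + 10) % 4 = r % 4
    · exact ⟨_, Or.inl rfl, h⟩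
    · have h7 : r % 4 = r % 2 ∨ r % 4 = r % 2 + 2 := by omega
      have h8 : δ % 2 = 0 ∨ δ % 2 = 1 := by omega
      refine ⟨_, Or.inr rfl, ?_⟩
      rcases h7 with h7 | h7 <;> rcases h8 with h8 | h8 <;> omega
  obtain ⟨P, hP1, hP2⟩ := hPex
  refine ⟨δ, P, hP1, hP2, ?_, ?_⟩
  · exact (Nat.mul_le_mul_left A (by omega : P ≤ L)).trans hL1
  · have h6 : 2 * L ≤ 3 * P - 2 := by omega
    have h7 : A * (2 * L + 2) ≤ A * (3 * P) := Nat.mul_le_mul_left A (by omega)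
    have h8 : A * (2 * L + 2) = 2 * (A * L) + 2 * A := by ring
    have h9 : A * (3 * P) = 3 * (A * P) := by ring
    omega

theorem shS_mono {k K : ℕ} (h : k ≤ K) : shS k ≤ shS K := by
  induction K, h using Nat.le_induction with
  | base => exact le_rfl
  | succ n _ ih => exact ih.trans (by rw [shS]; omega)

/-- **Reachable slopes very close to every large integer.** -/
theorem exists_close (K : ℕ) : ∃ N : ℕ, ∀ r : ℕ, N ≤ r → ∃ δ σ, 4 ≤ δ ∧ δ * δ ≤ r ∧
    Reach δ σ ∧ 0 < (r : ℝ) - σ ∧ (r : ℝ) - σ ≤ 1 / (r : ℝ) ^ K := by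
  obtain ⟨A, hA⟩ : ∃ A : ℕ, A = 5 ^ (K + 1) := ⟨_, rfl⟩
  have hA0 : 0 < A := by rw [hA]; positivity
  obtain ⟨W, hW⟩ : ∃ W : ℕ, W = (K + 2) * (3 + shS K) := ⟨_, rfl⟩
  have hW0 : K + 2 ≤ W := by
    rw [hW]
    exact Nat.le_mul_of_pos_right _ (by omega)
  obtain ⟨V, hV⟩ : ∃ V : ℕ, V = 2 * (shQ (K + 1) * (K + 2).factorial) * 3 ^ (K + 3) := ⟨_, rfl⟩
  refine ⟨100000 * (A * A * W) + V, fun r hr => ?_⟩
  have hAA : A ≤ A * A := Nat.le_mul_of_pos_left A hA0
  have hAW : A * A ≤ A * A * W := Nat.le_mul_of_pos_right _ (by omega)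
  obtain ⟨δ, P, hP1, hP2, hP3, hP4⟩ := choose_delta (A := A) (r := r) hA0 (by omega)
  have hPW : 10000 * (A * W) ≤ P := by
    have h1 : A * (30000 * (A * W)) ≤ A * (3 * P) := by
      have e1 : A * (30000 * (A * W)) = 30000 * (A * A * W) := by ring
      have e2 : A * (3 * P) = 3 * (A * P) := by ring
      rw [e1, e2]
      omega
    have := Nat.le_of_mul_le_mul_left h1 hA0
    omega
  have hWAW : W ≤ A * W := Nat.le_mul_of_pos_left W hA0
  have hP5000 : 10000 ≤ P := by omega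
  have hPP : 128 * (K + 2) * r ≤ P * P := by
    have h1 : 10000 * (A * W) * P ≤ P * P := Nat.mul_le_mul_right P hPW
    have h2 : 10000 * (A * W) * P = 10000 * W * (A * P) := by ring
    have h3 : 128 * (K + 2) * r ≤ 128 * W * (3 * (A * P)) :=
      Nat.mul_le_mul (Nat.mul_le_mul_left _ hW0) hP4
    have h4 : 128 * W * (3 * (A * P)) = 384 * (W * (A * P)) := by ring
    have h5 : 10000 * W * (A * P) = 10000 * (W * (A * P)) := by ring
    omega
  have hPR : (10000 : ℝ) ≤ P := by exact_mod_cast hP5000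
  have hAP : P ≤ A * P := Nat.le_mul_of_pos_left P hA0
  have hrR : (10000 : ℝ) ≤ r := by
    have : 10000 ≤ r := by omega
    exact_mod_cast this
  have hPPR : 128 * ((K : ℝ) + 2) * r ≤ (P : ℝ) * P := by exact_mod_cast hPP
  have hδδ : 1000 ≤ δ * δ := by omega
  have hδ : 4 ≤ δ := by
    by_contra h
    have : δ * δ ≤ 3 * 3 := Nat.mul_le_mul (by omega) (by omega)
    omega
  have hK0 : (0 : ℝ) ≤ K := Nat.cast_nonneg K
  have hsm : Small r P := by
    intro p hp hpr hmod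
    obtain ⟨hg1, hg2⟩ := gam_le (p := p) (by omega) ((r - p) / 4)
    have hrr : p + 4 * ((r - p) / 4) = r := by omega
    rw [hrr] at hg1 hg2
    rw [abs_of_nonneg hg1]
    refine hg2.trans ?_
    have hpP : (P : ℝ) ≤ p := by exact_mod_cast hp
    have h1 : 0 ≤ 1 / (4 * ((p : ℝ) + 4 * (((r - p) / 4 : ℕ) : ℝ) - 2) ^ 2) := by positivity
    have h2 : 1 / (4 * ((p : ℝ) - 2) ^ 2) ≤ 1 / (32 * (r : ℝ)) := by
      refine div_le_div_of_nonneg_left (by norm_num) (by positivity) ?_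
      have h3 : ((P : ℝ) / 2) ^ 2 ≤ ((p : ℝ) - 2) ^ 2 :=
        pow_le_pow_left₀ (by linarith) (by linarith) 2
      have h4 : 256 * (r : ℝ) ≤ 128 * ((K : ℝ) + 2) * r := by nlinarith
      nlinarith
    linarith
  have hT : ∃ T, RR δ r P T ∧ wl 0 (P : ℝ) ≤ T ∧ T ≤ wu 0 (P : ℝ) := by
    rcases hP1 with rfl | rfl
    · exact start_two hδδ hP2 (by omega)
    · exact start_zero hδδ hP2 (by omega)
  obtain ⟨T, hT1, hT2, hT3⟩ := hT
  have hth : ∀ k ≤ K, 10 * ((k + 2) * (3 + shS k)) ≤ P := by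
    intro k hk
    have h1 : (k + 2) * (3 + shS k) ≤ (K + 2) * (3 + shS K) :=
      Nat.mul_le_mul (by omega) (by have := shS_mono hk; omega)
    rw [← hW] at h1
    omega
  obtain ⟨σ, T', hσ, hlog, hT'0, hT'⟩ := main_ind (K := K) (by omega) (by omega) hsm hP2 hth
    (by rw [← hA]; exact hP3) (by
      rw [div_le_div_iff₀ (by positivity) (by positivity)]
      nlinarith) hT1 hT2 hT3
  have hσ0 : 0 < σ := hσ.pos (by omega)
  have hr0 : (0 : ℝ) < r := by linarith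
  have hσe : σ = r * Real.exp (-(2 * T')) := by
    rw [← Real.exp_log hσ0, hlog, sub_eq_add_neg, Real.exp_add, Real.exp_log hr0]
  have hexp1 : Real.exp (-(2 * T')) < 1 := by
    rw [Real.exp_lt_one_iff]
    linarith
  have hexp2 : 1 - 2 * T' ≤ Real.exp (-(2 * T')) := by
    have := Real.add_one_le_exp (-(2 * T'))
    linarith
  refine ⟨δ, σ, hδ, by omega, hσ, ?_, ?_⟩
  · rw [hσe]
    nlinarith
  · have h1 : (r : ℝ) - σ ≤ 2 * r * T' := by
      rw [hσe]
      nlinarith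
    refine h1.trans ?_
    have h2 : (r : ℝ) / 3 ≤ 5 ^ (K + 1) * (P : ℝ) := by
      have h3 : (r : ℝ) ≤ 3 * ((A : ℝ) * P) := by exact_mod_cast hP4
      have h4 : (A : ℝ) = 5 ^ (K + 1) := by rw [hA]; push_cast; ring
      rw [h4] at h3
      linarith
    have h5 : wu (K + 1) (5 ^ (K + 1) * (P : ℝ)) ≤ ck (K + 1) / ((r : ℝ) / 3) ^ (K + 3) := by
      unfold wu
      have hc := ck_pos (K + 1)
      have h6 : ((r : ℝ) / 3) ^ (K + 3) ≤ (5 ^ (K + 1) * (P : ℝ)) ^ (K + 3) :=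
        pow_le_pow_left₀ (by positivity) h2 _
      have h7 : K + 1 + 2 = K + 3 := rfl
      rw [h7, div_le_div_iff₀ (by positivity) (by positivity)]
      have h8 : 0 < (5 ^ (K + 1) * (P : ℝ)) ^ (K + 3) := by positivity
      nlinarith [mul_le_mul_of_nonneg_left h6 hc.le, mul_pos hc h8]
    have h9 : ck (K + 1) / ((r : ℝ) / 3) ^ (K + 3) * (2 * r) = (V : ℝ) / (r : ℝ) ^ (K + 2) := by
      rw [hV]
      unfold ck
      have : K + 1 + 1 = K + 2 := rfl
      rw [this]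
      push_cast
      rw [div_pow, pow_succ (r : ℝ) (K + 2)]
      field_simp
    have h10 : (V : ℝ) / (r : ℝ) ^ (K + 2) ≤ 1 / (r : ℝ) ^ K := by
      rw [div_le_div_iff₀ (by positivity) (by positivity), one_mul, pow_add]
      have h11 : (V : ℝ) ≤ r := by
        have : V ≤ r := by omega
        exact_mod_cast this
      have h12 : (V : ℝ) ≤ (r : ℝ) ^ 2 := by nlinarith
      have h13 : (0 : ℝ) < (r : ℝ) ^ K := by positivity
      nlinarith
    calc 2 * r * T' ≤ 2 * r * (ck (K + 1) / ((r : ℝ) / 3) ^ (K + 3)) :=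
          mul_le_mul_of_nonneg_left (hT'.trans h5) (by positivity)
      _ = (V : ℝ) / (r : ℝ) ^ (K + 2) := by rw [← h9]; ring
      _ ≤ 1 / (r : ℝ) ^ K := h10

end Pool.Agent.H932R3
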