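import Mathlib
import Pool.Agent.H932R3.TwoSided
import Pool.Agent.H932R3.OpenV

set_option autoImplicit false

/-!
# The staircase of a family of multiplicities
-/

namespace Pool.Agent.H932R3

open Polynomial Pool.Agent.H932R2

/-- The staircase of the multiplicities `w`. -/
def Ww {n : ℕ} (w : Fin n → ℕ) : Finset (ℕ × ℕ) := rowsF (∑ a, w a) fun l => ∑ a, (w a - l)

theorem mem_Ww {n : ℕ} {w : Fin n → ℕ} {i l : ℕ} : (i, l) ∈ Ww w ↔ i < ∑ a, (w a - l) := by
  unfold Ww
  rw [mem_rowsF]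
  refine ⟨fun h => h.2, fun h => ⟨?_, h⟩⟩
  by_contra hl
  have : ∑ a, (w a - l) = 0 := by
    refine Finset.sum_eq_zero fun a _ => ?_
    have := Finset.single_le_sum (f := w) (fun _ _ => Nat.zero_le _) (Finset.mem_univ a)
    omega
  omega

theorem sum_sub_range (k M : ℕ) (h : k ≤ M) : ∑ l ∈ Finset.range M, (k - l) = (k + 1).choose 2 := by
  obtain ⟨e, rfl⟩ := Nat.exists_eq_add_of_le h
  rw [Finset.sum_range_add]
  have h1 : ∑ x ∈ Finset.range e, (k - (k + x)) = 0 := Finset.sum_eq_zero fun x _ => by omega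
  rw [h1, add_zero]
  have h2 := Finset.sum_range_reflect (fun l => l + 1) k
  have h3 : ∀ j ∈ Finset.range k, k - 1 - j + 1 = k - j := by
    intro j hj
    rw [Finset.mem_range] at hj
    omega
  rw [Finset.sum_congr rfl h3] at h2
  rw [h2]
  have h4 := Finset.sum_range_succ' (fun l => l) k
  simp only [add_zero] at h4
  rw [← h4, Finset.sum_range_id, Nat.choose_two_right]

theorem card_Ww {n : ℕ} (w : Fin n → ℕ) : (Ww w).card = ∑ a, (w a + 1).choose 2 := by
  unfold Ww
  rw [card_rowsF, Finset.sum_comm]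
  refine Finset.sum_congr rfl fun a _ => sum_sub_range _ _ ?_
  exact Finset.single_le_sum (f := w) (fun _ _ => Nat.zero_le _) (Finset.mem_univ a)

theorem base_Ww {K : Type*} [Field K] {n : ℕ} {𝒞 : Set (Fin n → K)} {x : Fin n → K} (hx : x ∈ 𝒞)
    (w : Fin n → ℕ) : RkS (wFam 𝒞 w) (↑(Ww w) : Set (ℕ × ℕ)) (Ww w).card := by
  refine RkS.base hx w _ ?_
  rintro ⟨i, l⟩ hp
  exact mem_Ww.1 hp

theorem Ww_upper {n : ℕ} {w : Fin n → ℕ} {m : ℕ} (hm : ∀ a, m ≤ w a) {a₀ : Fin n}
    (ha : w a₀ = m) {σ X : ℝ} (hσ : (n : ℝ) - 1 ≤ σ) (hX : X < ∑ a, (w a : ℝ))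
    (hX2 : X < ∑ a, (w a : ℝ) - (n - σ) * m) :
    ∀ p : ℕ × ℕ, (p.1 : ℝ) + σ * p.2 ≤ X → p ∈ Ww w := by
  rintro ⟨i, l⟩ hp
  rw [mem_Ww]
  simp only at hp
  have hi0 : (0 : ℝ) ≤ i := Nat.cast_nonneg i
  have hl0 : (0 : ℝ) ≤ l := Nat.cast_nonneg l
  have hn1 : 1 ≤ n := Fin.pos a₀
  rcases Nat.lt_or_ge m l with h | h
  · -- above the smallest multiplicity
    have h1 : ∑ a, w a ≤ ∑ a, (w a - l) + (n * m + (n - 1) * (l - m)) := by
      have h2 : ∀ a, w a ≤ (w a - l) + (m + if a = a₀ then 0 else (l - m)) := by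
        intro a
        split_ifs with h3
        · rw [h3, ha]; omega
        · omega
      refine (Finset.sum_le_sum fun a _ => h2 a).trans ?_
      rw [Finset.sum_add_distrib, Finset.sum_add_distrib, Finset.sum_const, Finset.card_univ,
        Fintype.card_fin, smul_eq_mul]
      refine Nat.add_le_add_left (Nat.add_le_add_left (le_of_eq ?_) _) _
      rw [Finset.sum_ite, Finset.sum_const_zero, zero_add, Finset.sum_const, smul_eq_mul]
      congr 1
      rw [Finset.filter_ne' Finset.univ a₀, Finset.card_erase_of_mem (Finset.mem_univ _),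
        Finset.card_univ, Fintype.card_fin]
    have h2 : ((∑ a, w a : ℕ) : ℝ) ≤
        ((∑ a, (w a - l) + (n * m + (n - 1) * (l - m)) : ℕ) : ℝ) := by exact_mod_cast h1
    have h3 : (((n - 1) * (l - m) : ℕ) : ℝ) = (n - 1) * (l - m) := by
      rw [Nat.cast_mul, Nat.cast_sub hn1, Nat.cast_sub h.le]
      push_cast
      ring
    rw [Nat.cast_add, Nat.cast_add, h3, Nat.cast_mul] at h2
    have h4 : ((∑ a, w a : ℕ) : ℝ) = ∑ a, (w a : ℝ) := by push_cast; rfl
    rw [h4] at h2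
    have hlm : (0 : ℝ) ≤ l - m := by
      have : (m : ℝ) ≤ l := by exact_mod_cast h.le
      linarith
    have h5 : (n - 1) * ((l : ℝ) - m) ≤ σ * (l - m) := mul_le_mul_of_nonneg_right hσ hlm
    have h6 : (i : ℝ) < ((∑ a, (w a - l) : ℕ) : ℝ) := by nlinarith
    exact_mod_cast h6
  · have h1 : ∑ a, (w a - l) + n * l = ∑ a, w a := by
      have h2 : ∑ _a : Fin n, l = n * l := by
        rw [Finset.sum_const, Finset.card_univ, Fintype.card_fin, smul_eq_mul]
      rw [← h2, ← Finset.sum_add_distrib]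
      exact Finset.sum_congr rfl fun a _ => Nat.sub_add_cancel (h.trans (hm a))
    have h2 : ((∑ a, (w a - l) + n * l : ℕ) : ℝ) = ((∑ a, w a : ℕ) : ℝ) := by rw [h1]
    have h4 : ((∑ a, w a : ℕ) : ℝ) = ∑ a, (w a : ℝ) := by push_cast; rfl
    rw [h4, Nat.cast_add, Nat.cast_mul] at h2
    have hlm : (l : ℝ) ≤ m := by exact_mod_cast h
    have h6 : (i : ℝ) < ((∑ a, (w a - l) : ℕ) : ℝ) := by
      rcases le_total σ n with h7 | h7
      · have : (n - σ) * l ≤ (n - σ) * m := mul_le_mul_of_nonneg_left hlm (by linarith)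
        nlinarith
      · have : (n : ℝ) * l ≤ σ * l := mul_le_mul_of_nonneg_right h7 hl0
        nlinarith
    exact_mod_cast h6

theorem Ww_lower {n : ℕ} {w : Fin n → ℕ} {m : ℕ} (hw : ∀ a, w a = m ∨ w a = m + 1)
    {σ Y : ℝ} (h1 : ∑ a, (w a : ℝ) - 1 ≤ Y) (h2 : ∑ a, (w a : ℝ) - 1 + (σ - n) * m ≤ Y) :
    ∀ p ∈ Ww w, (p.1 : ℝ) + σ * p.2 ≤ Y := by
  rintro ⟨i, l⟩ hp
  rw [mem_Ww] at hp
  simp only
  have hlm : l ≤ m := by
    by_contra h
    have : ∑ a, (w a - l) = 0 := Finset.sum_eq_zero fun a _ => by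
      rcases hw a with h' | h' <;> omega
    omega
  have h3 : ∑ a, (w a - l) + n * l = ∑ a, w a := by
    have h2 : ∑ _a : Fin n, l = n * l := by
      rw [Finset.sum_const, Finset.card_univ, Fintype.card_fin, smul_eq_mul]
    rw [← h2, ← Finset.sum_add_distrib]
    exact Finset.sum_congr rfl fun a _ => Nat.sub_add_cancel (by
      rcases hw a with h' | h' <;> omega)
  have h4 : i + 1 + n * l ≤ ∑ a, w a := by omega
  have h5 : ((i + 1 + n * l : ℕ) : ℝ) ≤ ((∑ a, w a : ℕ) : ℝ) := by exact_mod_cast h4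
  push_cast at h5
  have hl0 : (0 : ℝ) ≤ l := Nat.cast_nonneg l
  have hlm' : (l : ℝ) ≤ m := by exact_mod_cast hlm
  rcases le_total σ n with h7 | h7
  · have : σ * l ≤ n * l := mul_le_mul_of_nonneg_right h7 hl0
    linarith
  · have : (σ - n) * l ≤ (σ - n) * m := mul_le_mul_of_nonneg_left hlm' (by linarith)
    nlinarith

/-- The dimension below and above two degrees. -/
theorem finrank_two {K : Type*} [Field K] {ι : Type*} [Fintype ι] {r : ℕ} {w : ι → ℕ}
    {c : ι → K} {γ : ι → K[X]} {e f : ℕ}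
    (h2 : RkI (vIdeal r w c γ) (Tset e) (Tfin e).card)
    (h3 : RkI (vIdeal r w c γ) (Tset f) (∑ a, (EE r (w a)).card)) (d : ℕ) (hd : d ≤ e ∨ f ≤ d) :
    Module.finrank K ↥(mspan K (Tset d) ⊓ Submodule.restrictScalars K (vIdeal r w c γ)) =
      (d + 2).choose 2 - ∑ a, (EE r (w a)).card := by
  have hN : ∀ d, (Tfin d).card = (d + 2).choose 2 := by
    intro d
    have h4 := card_Tfin d
    have h5 : (d + 2).choose 2 * 2 = (d + 2) * (d + 1) := by
      rw [Nat.choose_two_right, Nat.div_mul_cancel (Nat.even_mul_pred_self _).two_dvd]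
      rfl
    linarith
  rcases hd with h | h
  · rw [← coe_Tfin, ← hN]
    refine finrank_infV (n := (Tfin d).card) ?_ (Or.inl rfl)
    rw [← coe_Tfin] at h2
    refine h2.subset ?_
    have := Tset_mono h
    rw [← coe_Tfin, ← coe_Tfin] at this
    exact_mod_cast this
  · rw [← coe_Tfin, ← hN]
    refine finrank_infV (n := ∑ a, (EE r (w a)).card) ?_ (Or.inr rfl)
    rw [coe_Tfin]
    exact h3.mono (Tset_mono h)

/-- Independent conditions remain independent for smaller multiplicities. -/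
theorem RkI.smaller {K : Type*} [Field K] {ι : Type*} [Fintype ι] {r : ℕ} {w w' : ι → ℕ}
    (hw : ∀ a, w a ≤ w' a) {c : ι → K} {γ : ι → K[X]} {M : Finset (ℕ × ℕ)}
    (h : RkI (vIdeal r w' c γ) (↑M : Set (ℕ × ℕ)) (∑ a, (EE r (w' a)).card)) :
    RkI (vIdeal r w c γ) (↑M : Set (ℕ × ℕ)) (∑ a, (EE r (w a)).card) := by
  classical
  obtain ⟨v, hv, hli⟩ := h
  have hcard : ∀ w : ι → ℕ, Fintype.card (Σ a : ι, EE r (w a)) = ∑ a, (EE r (w a)).card := by
    intro w
    rw [Fintype.card_sigma]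
    exact Finset.sum_congr rfl fun a _ => Fintype.card_coe _
  -- the conditions of `w'` are onto on the span of `v`
  let L : (Fin (∑ a, (EE r (w' a)).card) → K) →ₗ[K] ((Σ a : ι, EE r (w' a)) → K) :=
    (condMapV r w' c γ).comp (Fintype.linearCombination K v)
  have hL : ∀ a, L a = condMapV r w' c γ (∑ i, a i • v i) := fun a => rfl
  have hinj : Function.Injective L := by
    rw [← LinearMap.ker_eq_bot, LinearMap.ker_eq_bot']
    intro a ha
    rw [hL, ← mem_vIdeal_iff] at ha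
    exact funext (hli a ha)
  have hsurj : Function.Surjective L := by
    refine (LinearMap.injective_iff_surjective_of_finrank_eq_finrank ?_).1 hinj
    rw [Module.finrank_fintype_fun_eq_card, Module.finrank_fintype_fun_eq_card, hcard,
      Fintype.card_fin]
  have hsub : ∀ p : Σ a : ι, EE r (w a), p.2.1 ∈ EE r (w' p.1) := by
    rintro ⟨a, ⟨⟨i, l⟩, he⟩⟩
    rw [mem_EE] at he ⊢
    refine ⟨lt_of_lt_of_le he.1 (hw a), lt_of_lt_of_le he.2 ?_⟩
    exact Nat.mul_le_mul_left _ (Nat.sub_le_sub_right (hw a) _)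
  let emb : (Σ a : ι, EE r (w a)) → (Σ a : ι, EE r (w' a)) := fun p => ⟨p.1, ⟨p.2.1, hsub p⟩⟩
  have hemb : Function.Injective emb := by
    rintro ⟨a, e, he⟩ ⟨b, e', he'⟩ h
    simp only [emb, Sigma.mk.injEq] at h
    obtain ⟨rfl, h2⟩ := h
    have h3 := congrArg Subtype.val (eq_of_heq h2)
    simp only at h3
    subst h3
    rfl
  have hcoord : ∀ (f : K[X][X]) (p : Σ a : ι, EE r (w a)),
      condMapV r w c γ f p = condMapV r w' c γ f (emb p) := fun f p => rfl
  choose u hu using fun q : Σ a : ι, EE r (w' a) => hsurj (Pi.single q 1)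
  let e := Fintype.equivFinOfCardEq (hcard w)
  refine ⟨fun i => ∑ j, u (emb (e.symm i)) j • v j, fun i => ?_, fun b hb i => ?_⟩
  · exact Submodule.sum_mem _ fun j _ => Submodule.smul_mem _ _ (hv j)
  · rw [mem_vIdeal_iff] at hb
    have h1 := congrFun hb (e.symm i)
    rw [hcoord, map_sum] at h1
    rw [Finset.sum_apply, Finset.sum_eq_single i] at h1
    · rw [map_smul, ← hL, hu, Pi.smul_apply, Pi.single_eq_same] at h1
      simpa using h1
    · intro j _ hj
      rw [map_smul, ← hL, hu, Pi.smul_apply, Pi.single_eq_of_ne, smul_zero]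
      intro h2
      exact hj (e.symm.injective (hemb h2)).symm
    · intro h2
      exact absurd (Finset.mem_univ i) h2

end Pool.Agent.H932R3
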