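import Mathlib
import Pool.Agent.H932R3.Numeric
import Pool.Agent.H932R3.Stair

set_option autoImplicit false

/-!
# Slopes for the degrees near the critical one
-/

namespace Pool.Agent.H932R3

theorem crit_A {δ k M : ℕ} (hδ : 9 ≤ δ) (hk : k ≤ δ) (hM : 100 * M ≤ (δ * δ + 4 * k) ^ 2) :
    ∃ σ : ℝ, Reach δ σ ∧ |σ - ((δ * δ + 4 * k : ℕ) : ℝ)| ≤ 1 ∧
      M * |σ - ((δ * δ + 4 * k : ℕ) : ℝ)| ≤ Real.sqrt σ / 8 := by
  obtain ⟨σ, h1, h2, h3⟩ := reach_unit (show 4 ≤ δ by omega) k hk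
  refine ⟨σ, h1, ?_⟩
  obtain ⟨D, hD⟩ : ∃ D : ℝ, D = δ := ⟨_, rfl⟩
  have hD9 : 9 ≤ D := by rw [hD]; exact_mod_cast hδ
  have hkD : (k : ℝ) ≤ D := by rw [hD]; exact_mod_cast hk
  have hk0 : (0 : ℝ) ≤ k := Nat.cast_nonneg k
  rw [← hD] at h2 h3
  obtain ⟨R, hR⟩ : ∃ R : ℝ, R = D ^ 2 + 4 * k := ⟨_, rfl⟩
  rw [← hR] at h2 h3
  have hRr : ((δ * δ + 4 * k : ℕ) : ℝ) = R := by
    rw [hR, hD]
    push_cast
    ring
  rw [hRr]
  have hD5 : (0 : ℝ) < D ^ 5 := by positivity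
  have hD6 : (0 : ℝ) < D ^ 6 := by positivity
  have hR0 : 0 < R := by rw [hR]; positivity
  have hR1 : R ≤ D * (D + 4) := by rw [hR]; nlinarith
  have hg1 : R - σ ≤ R * (4 / D ^ 5) := by
    have e1 : R * (1 - 4 * k / D ^ 6) = R - R * (4 * k / D ^ 6) := by ring
    have e2 : R * (4 * k / D ^ 6) ≤ R * (4 / D ^ 5) := by
      apply mul_le_mul_of_nonneg_left _ hR0.le
      rw [div_le_div_iff₀ hD6 hD5]
      have : 4 * (k : ℝ) * D ^ 5 ≤ 4 * D * D ^ 5 := by gcongr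
      calc 4 * (k : ℝ) * D ^ 5 ≤ 4 * D * D ^ 5 := this
        _ = 4 * D ^ 6 := by ring
    linarith
  have habs : |σ - R| = R - σ := by rw [abs_sub_comm, abs_of_nonneg (by linarith)]
  rw [habs]
  have hD3 : (729 : ℝ) ≤ D ^ 3 := by
    calc (729 : ℝ) = 9 ^ 3 := by norm_num
      _ ≤ D ^ 3 := by gcongr
  have hg2 : R * (4 / D ^ 5) ≤ 1 / 100 := by
    rw [mul_div_assoc', div_le_div_iff₀ hD5 (by norm_num)]
    have h4 : R * 4 ≤ D * (D + 4) * 4 := by gcongr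
    have h5 : D * (D + 4) * 4 * 100 ≤ D ^ 2 * D ^ 3 := by
      have h6 : D * (D + 4) ≤ D ^ 2 * (13 / 9) := by nlinarith
      have h7 : D ^ 2 * 729 ≤ D ^ 2 * D ^ 3 := by gcongr
      have h8 : 0 ≤ D ^ 2 := by positivity
      linarith
    calc R * 4 * 100 ≤ D * (D + 4) * 4 * 100 := by linarith
      _ ≤ D ^ 2 * D ^ 3 := h5
      _ = 1 * D ^ 5 := by ring
  have hRD : D ^ 2 ≤ R := by rw [hR]; linarith
  have hs : 99 / 100 * D ≤ Real.sqrt σ := by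
    apply Real.le_sqrt_of_sq_le
    nlinarith
  refine ⟨by linarith, ?_⟩
  have hM' : (100 : ℝ) * M ≤ R ^ 2 := by
    have : ((100 * M : ℕ) : ℝ) ≤ (((δ * δ + 4 * k) ^ 2 : ℕ) : ℝ) := by exact_mod_cast hM
    rw [Nat.cast_pow, hRr] at this
    push_cast at this
    exact this
  have hM0 : (0 : ℝ) ≤ M := Nat.cast_nonneg M
  have hMR : (M : ℝ) ≤ R ^ 2 / 100 := by linarith
  have h4 : (M : ℝ) * (R - σ) ≤ R ^ 2 / 100 * (R * (4 / D ^ 5)) := by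
    apply mul_le_mul hMR hg1 (by linarith) (by positivity)
  refine h4.trans ?_
  have h5 : R ^ 2 / 100 * (R * (4 / D ^ 5)) = R ^ 3 / (25 * D ^ 5) := by
    field_simp
    norm_num
  rw [h5]
  have h6 : R ^ 3 ≤ (D * (D + 4)) ^ 3 := by gcongr
  have h7 : D + 4 ≤ 13 / 9 * D := by linarith
  have h8 : (D * (D + 4)) ^ 3 ≤ (D * (13 / 9 * D)) ^ 3 := by gcongr
  have h9 : R ^ 3 / (25 * D ^ 5) ≤ (D * (13 / 9 * D)) ^ 3 / (25 * D ^ 5) :=
    div_le_div_of_nonneg_right (h6.trans h8) (by positivity)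
  refine h9.trans ?_
  have h10 : (D * (13 / 9 * D)) ^ 3 / (25 * D ^ 5) = 2197 / 18225 * D := by
    field_simp
    norm_num
  rw [h10]
  linarith

theorem crit_B {δ k M : ℕ} (hδ : 9 ≤ δ) (hk : k ≤ δ)
    (hM : 256 * M ^ 2 ≤ (δ * δ + 4 * k + 2) ^ 3) :
    ∃ σ : ℝ, Reach δ σ ∧ |σ - ((δ * δ + 4 * k + 2 : ℕ) : ℝ)| ≤ 1 ∧
      M * |σ - ((δ * δ + 4 * k + 2 : ℕ) : ℝ)| ≤ Real.sqrt σ / 8 := by
  obtain ⟨τ, h1, h2, h3⟩ := reach_unit (show 4 ≤ δ by omega) k hk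
  have hτ0 : 0 < τ := h1.pos (by omega)
  obtain ⟨D, hD⟩ : ∃ D : ℝ, D = δ := ⟨_, rfl⟩
  have hD9 : 9 ≤ D := by rw [hD]; exact_mod_cast hδ
  have hkD : (k : ℝ) ≤ D := by rw [hD]; exact_mod_cast hk
  have hk0 : (0 : ℝ) ≤ k := Nat.cast_nonneg k
  rw [← hD] at h2 h3
  obtain ⟨x, hx⟩ : ∃ x : ℝ, x = D ^ 2 + 4 * k := ⟨_, rfl⟩
  rw [← hx] at h2 h3
  have hRr : ((δ * δ + 4 * k + 2 : ℕ) : ℝ) = x + 2 := by
    rw [hx, hD]
    push_cast
    ring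
  rw [hRr]
  have hx1 : ((δ * δ + 4 * k + 1 : ℕ) : ℝ) = x + 1 := by
    rw [hx, hD]
    push_cast
    ring
  have h4 := Reach.step τ (δ * δ + 4 * k + 1) h1 (by rw [hx1]; linarith)
  rw [hx1] at h4
  refine ⟨_, h4, ?_⟩
  have hD5 : (0 : ℝ) < D ^ 5 := by positivity
  have hD6 : (0 : ℝ) < D ^ 6 := by positivity
  have hx0 : 0 < x := by rw [hx]; positivity
  have hx81 : 81 ≤ x := by rw [hx]; nlinarith
  have hR1 : x ≤ D * (D + 4) := by rw [hx]; nlinarith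
  have hg1 : x - τ ≤ x * (4 / D ^ 5) := by
    have e1 : x * (1 - 4 * k / D ^ 6) = x - x * (4 * k / D ^ 6) := by ring
    have e2 : x * (4 * k / D ^ 6) ≤ x * (4 / D ^ 5) := by
      apply mul_le_mul_of_nonneg_left _ hx0.le
      rw [div_le_div_iff₀ hD6 hD5]
      have : 4 * (k : ℝ) * D ^ 5 ≤ 4 * D * D ^ 5 := by gcongr
      calc 4 * (k : ℝ) * D ^ 5 ≤ 4 * D * D ^ 5 := this
        _ = 4 * D ^ 6 := by ring
    linarith
  obtain ⟨g, hg⟩ : ∃ g, g = x - τ := ⟨_, rfl⟩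
  rw [← hg] at hg1
  have hg0 : 0 ≤ g := by linarith
  have hτ : τ = x - g := by linarith
  -- `(x + 2) g ≤ 19 / 20`
  have hgx : (x + 2) * g ≤ 19 / 20 := by
    have h5 : (x + 2) * g ≤ (x + 2) * (x * (4 / D ^ 5)) := by gcongr
    refine h5.trans ?_
    have h6 : (x + 2) * (x * (4 / D ^ 5)) = (x + 2) * x * 4 / D ^ 5 := by ring
    rw [h6, div_le_iff₀ hD5]
    have h7 : x ≤ 13 / 9 * D ^ 2 := by nlinarith
    have h8 : x + 2 ≤ 119 / 81 * D ^ 2 := by nlinarith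
    have h9 : (x + 2) * x ≤ 119 / 81 * D ^ 2 * (13 / 9 * D ^ 2) := by gcongr
    have h10 : D ^ 4 * 9 ≤ D ^ 4 * D := by gcongr
    have h11 : D ^ 5 = D ^ 4 * D := by ring
    rw [h11]
    have h12 : 119 / 81 * D ^ 2 * (13 / 9 * D ^ 2) = 1547 / 729 * D ^ 4 := by ring
    rw [h12] at h9
    have h13 : 0 ≤ D ^ 4 := by positivity
    linarith
  have hg2 : g ≤ 1 / 50 := by nlinarith
  have hdiff : (x + 1) ^ 2 / τ - (x + 2) = (1 + (x + 2) * g) / τ := by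
    rw [hτ]
    have : x - g ≠ 0 := by linarith
    field_simp
    ring
  have hpos : 0 ≤ (x + 1) ^ 2 / τ - (x + 2) := by
    rw [hdiff]
    positivity
  rw [abs_of_nonneg hpos]
  have hle : (x + 2) * ((x + 1) ^ 2 / τ - (x + 2)) ≤ 2 := by
    rw [hdiff, mul_div_assoc', div_le_iff₀ hτ0, hτ]
    nlinarith
  refine ⟨?_, ?_⟩
  · nlinarith
  · obtain ⟨σ, hσ⟩ : ∃ σ, σ = (x + 1) ^ 2 / τ := ⟨_, rfl⟩
    rw [← hσ] at hpos hle ⊢
    have hs : Real.sqrt (x + 2) ≤ Real.sqrt σ := Real.sqrt_le_sqrt (by linarith)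
    have hM' : (256 : ℝ) * (M : ℝ) ^ 2 ≤ (x + 2) ^ 3 := by
      have : ((256 * M ^ 2 : ℕ) : ℝ) ≤ (((δ * δ + 4 * k + 2) ^ 3 : ℕ) : ℝ) := by
        exact_mod_cast hM
      rw [Nat.cast_pow, hRr] at this
      push_cast at this
      exact this
    have hM0 : (0 : ℝ) ≤ M := Nat.cast_nonneg M
    have hss : Real.sqrt (x + 2) * Real.sqrt (x + 2) = x + 2 :=
      Real.mul_self_sqrt (by linarith)
    have hs0 : 0 < Real.sqrt (x + 2) := Real.sqrt_pos.2 (by linarith)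
    have hM2 : 16 * (M : ℝ) ≤ (x + 2) * Real.sqrt (x + 2) := by
      refine le_of_sq_le_sq ?_ (by positivity)
      calc (16 * (M : ℝ)) ^ 2 = 256 * (M : ℝ) ^ 2 := by ring
        _ ≤ (x + 2) ^ 3 := hM'
        _ = (x + 2) ^ 2 * (Real.sqrt (x + 2) * Real.sqrt (x + 2)) := by rw [hss]; ring
        _ = ((x + 2) * Real.sqrt (x + 2)) ^ 2 := by ring
    have h5 : 16 * (M : ℝ) * (σ - (x + 2)) ≤ (x + 2) * Real.sqrt (x + 2) * (σ - (x + 2)) :=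
      mul_le_mul_of_nonneg_right hM2 hpos
    have h6 : (x + 2) * Real.sqrt (x + 2) * (σ - (x + 2)) =
        Real.sqrt (x + 2) * ((x + 2) * (σ - (x + 2))) := by ring
    have h7 : Real.sqrt (x + 2) * ((x + 2) * (σ - (x + 2))) ≤ Real.sqrt (x + 2) * 2 :=
      mul_le_mul_of_nonneg_left hle hs0.le
    linarith

theorem exists_crit {n M : ℕ} (hn : 100 ≤ n)
    (h : 256 * M ^ 2 ≤ n ^ 3 ∨ (n % 4 ≤ 1 ∧ 100 * M ≤ n ^ 2)) :
    ∃ (δ : ℕ) (σ : ℝ), 9 ≤ δ ∧ δ * δ ≤ n ∧ n < (δ + 2) * (δ + 2) ∧ Reach δ σ ∧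
      |σ - n| ≤ 1 ∧ M * |σ - n| ≤ Real.sqrt σ / 8 := by
  have key : ∀ n : ℕ, 100 ≤ n → n % 4 ≤ 1 → ∃ δ k, 9 ≤ δ ∧ k ≤ δ ∧ n = δ * δ + 4 * k := by
    intro n hn hn4
    have h0 : n.sqrt * n.sqrt ≤ n := Nat.sqrt_le n
    have h1 : n < (n.sqrt + 1) * (n.sqrt + 1) := Nat.lt_succ_sqrt n
    have h3 : 10 ≤ n.sqrt := Nat.le_sqrt.2 (by omega)
    obtain ⟨q, hq⟩ : ∃ q, q = n.sqrt := ⟨_, rfl⟩
    rw [← hq] at h0 h1 h3
    have h1' : (q + 1) * (q + 1) = q * q + 2 * q + 1 := by ring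
    by_cases hpar : q % 2 = n % 2
    · have h6 : (n - q * q) % 4 = 0 := by
        rcases Nat.even_or_odd q with ⟨a, ha⟩ | ⟨a, ha⟩
        · have : q * q = 4 * (a * a) := by rw [ha]; ring
          omega
        · have : q * q = 4 * (a * a + a) + 1 := by rw [ha]; ring
          omega
      exact ⟨q, (n - q * q) / 4, by omega, by omega, by omega⟩
    · obtain ⟨p, rfl⟩ : ∃ p, q = p + 1 := ⟨q - 1, by omega⟩
      have h2 : (p + 1) * (p + 1) = p * p + 2 * p + 1 := by ring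
      have h6 : (n - p * p) % 4 = 0 := by
        rcases Nat.even_or_odd p with ⟨a, ha⟩ | ⟨a, ha⟩
        · have : p * p = 4 * (a * a) := by rw [ha]; ring
          omega
        · have : p * p = 4 * (a * a + a) + 1 := by rw [ha]; ring
          omega
      exact ⟨p, (n - p * p) / 4, by omega, by omega, by omega⟩
  by_cases h4 : n % 4 ≤ 1
  · have hM : 100 * M ≤ n ^ 2 := by
      rcases h with h | ⟨_, h⟩
      · have h5 : (100 * M) ^ 2 ≤ (n ^ 2) ^ 2 := by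
          have h6 : 100 * n ^ 3 ≤ n * n ^ 3 := Nat.mul_le_mul_right _ hn
          have e1 : (100 * M) ^ 2 = 10000 * M ^ 2 := by ring
          have e2 : (n ^ 2) ^ 2 = n * n ^ 3 := by ring
          rw [e1, e2]
          omega
        exact (Nat.pow_le_pow_iff_left (by norm_num)).1 h5
      · exact h
    obtain ⟨δ, k, h1, h2, rfl⟩ := key n hn h4
    obtain ⟨σ, h5, h6, h7⟩ := crit_A h1 h2 hM
    have h8 : (δ + 2) * (δ + 2) = δ * δ + 4 * δ + 4 := by ring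
    exact ⟨δ, σ, h1, by omega, by omega, h5, h6, h7⟩
  · have hM : 256 * M ^ 2 ≤ n ^ 3 := by
      rcases h with h | ⟨h, _⟩
      · exact h
      · exact absurd h h4
    obtain ⟨δ, k, h1, h2, h3⟩ := key (n - 2) (by omega) (by omega)
    obtain ⟨n', rfl⟩ : ∃ n', n = n' + 2 := ⟨n - 2, by omega⟩
    rw [Nat.add_sub_cancel] at h3
    subst h3
    obtain ⟨σ, h5, h6, h7⟩ := crit_B h1 h2 hM
    have h8 : (δ + 2) * (δ + 2) = δ * δ + 4 * δ + 4 := by ring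
    exact ⟨δ, σ, h1, by omega, by omega, h5, h6, h7⟩

end Pool.Agent.H932R3
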