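import Mathlib
import Pool.Agent.H932R3.OpenV
import Pool.Agent.H932R2.Main

set_option autoImplicit false

/-!
# Multiplicities differing by at most one, at generic points
-/

namespace Pool.Agent.H932R3

open Polynomial Pool.Agent.H932R2

section ext

variable {K L : Type*} [Field K] [Field L] [Algebra K L]

theorem aeval_gen {σ : Type*} (P : σ → L) (c : MvPolynomial σ K) (γ : (MvPolynomial σ K)[X])
    (f : K[X][X]) (i l : ℕ) :
    MvPolynomial.aeval P (((sh c γ (f.map (mapRingHom MvPolynomial.C))).coeff l).coeff i) =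
      ((sh (MvPolynomial.aeval P c)
        (γ.map ((MvPolynomial.aeval P : MvPolynomial σ K →ₐ[K] L) : MvPolynomial σ K →+* L))
        (f.map (mapRingHom (algebraMap K L)))).coeff l).coeff i := by
  let φ : MvPolynomial σ K →+* L :=
    ((MvPolynomial.aeval P : MvPolynomial σ K →ₐ[K] L) : MvPolynomial σ K →+* L)
  have h1 := map_sh φ c γ (f.map (mapRingHom MvPolynomial.C))
  have h2 : (f.map (mapRingHom (MvPolynomial.C (σ := σ)))).map (mapRingHom φ) =
      f.map (mapRingHom (algebraMap K L)) := by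
    rw [Polynomial.map_map, mapRingHom_comp]
    have : φ.comp MvPolynomial.C = algebraMap K L := by
      ext a
      simp [φ]
    rw [this]
  rw [h2] at h1
  show φ _ = ((sh (φ c) (γ.map φ) _).coeff l).coeff i
  rw [← h1, coeff_map, coe_mapRingHom, coeff_map]

theorem map_mspan {M : Set (ℕ × ℕ)} {v : K[X][X]} (hv : v ∈ mspan K M) :
    v.map (mapRingHom (algebraMap K L)) ∈ mspan L M := by
  refine Submodule.span_induction ?_ ?_ ?_ ?_ hv
  · rintro _ ⟨p, hp, rfl⟩
    refine Submodule.subset_span ⟨p, hp, ?_⟩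
    simp [mon]
  · rw [Polynomial.map_zero]
    exact Submodule.zero_mem _
  · intro a b _ _ ha hb
    rw [Polynomial.map_add]
    exact Submodule.add_mem _ ha hb
  · intro c a _ ha
    have : (c • a).map (mapRingHom (algebraMap K L)) =
        (algebraMap K L c) • a.map (mapRingHom (algebraMap K L)) := by
      ext i j
      simp
    rw [this]
    exact Submodule.smul_mem _ _ ha

theorem exists_openV_ext {σ ι : Type*} [Fintype ι] (r : ℕ) (w : ι → ℕ)
    (c : ι → MvPolynomial σ K)
    (γ : ι → (MvPolynomial σ K)[X]) (T : Set (ℕ × ℕ)) (n : ℕ) (P0 : σ → K)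
    (h : RkI (vIdeal r w (fun a => MvPolynomial.eval P0 (c a))
      (fun a => (γ a).map (MvPolynomial.eval P0))) T n) :
    ∃ F : MvPolynomial σ K, F ≠ 0 ∧ ∀ P : σ → L, MvPolynomial.aeval P F ≠ 0 →
      RkI (vIdeal r w (fun a => MvPolynomial.aeval P (c a))
        (fun a => (γ a).map
          ((MvPolynomial.aeval P : MvPolynomial σ K →ₐ[K] L) : MvPolynomial σ K →+* L))) T n := by
  classical
  obtain ⟨v, hv, hli⟩ := h
  let Gen : (Σ a : ι, EE r (w a)) → Fin n → MvPolynomial σ K := fun p i =>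
    ((sh (c p.1) (γ p.1) ((v i).map (mapRingHom MvPolynomial.C))).coeff p.2.1.2).coeff p.2.1.1
  let L0 : (Fin n → K) →ₗ[K] ((Σ a : ι, EE r (w a)) → K) :=
    (condMapV r w (fun a => MvPolynomial.eval P0 (c a))
      (fun a => (γ a).map (MvPolynomial.eval P0))).comp (Fintype.linearCombination K v)
  have hL0 : ∀ a : Fin n → K, L0 a = condMapV r w (fun a => MvPolynomial.eval P0 (c a))
      (fun a => (γ a).map (MvPolynomial.eval P0)) (∑ i, a i • v i) := fun a => rfl
  have hker : LinearMap.ker L0 = ⊥ := by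
    rw [LinearMap.ker_eq_bot']
    intro a ha
    rw [hL0, ← mem_vIdeal_iff] at ha
    exact funext (hli a ha)
  obtain ⟨G, hG⟩ := LinearMap.exists_leftInverse_of_injective L0 hker
  have hGen : ∀ p i, MvPolynomial.eval P0 (Gen p i) = L0 (Pi.single i 1) p := by
    intro p i
    rw [hL0]
    have h1 : ∑ j, (Pi.single i 1 : Fin n → K) j • v j = v i := by
      rw [Finset.sum_eq_single i]
      · simp
      · intro j _ hj
        rw [Pi.single_eq_of_ne hj, zero_smul]
      · intro h
        exact absurd (Finset.mem_univ i) h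
    rw [h1]
    exact eval_gen P0 (c p.1) (γ p.1) (v i) _ _
  let Mx : Matrix (Fin n) (Fin n) (MvPolynomial σ K) := fun k i =>
    ∑ p, MvPolynomial.C (G (Pi.single p 1) k) * Gen p i
  refine ⟨Mx.det, ?_, fun P hP => ?_⟩
  · intro h0
    have h1 : MvPolynomial.eval P0 Mx.det = 1 := by
      rw [RingHom.map_det]
      have h2 : (MvPolynomial.eval P0).mapMatrix Mx = (1 : Matrix (Fin n) (Fin n) K) := by
        ext k i
        rw [RingHom.mapMatrix_apply, Matrix.map_apply]
        show MvPolynomial.eval P0 (∑ p, MvPolynomial.C (G (Pi.single p 1) k) * Gen p i) = _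
        rw [map_sum]
        have h3 : G (L0 (Pi.single i 1)) = Pi.single i 1 :=
          LinearMap.congr_fun hG (Pi.single i 1)
        have h4 : L0 (Pi.single i 1) = ∑ p, (L0 (Pi.single i 1) p) • (Pi.single p 1 : _ → K) := by
          ext q
          simp [Finset.sum_apply, Pi.single_apply]
        have h5 : (1 : Matrix (Fin n) (Fin n) K) k i = G (L0 (Pi.single i 1)) k := by
          rw [h3, Matrix.one_apply, Pi.single_apply]
        rw [h5]
        conv_rhs => rw [h4]
        rw [map_sum, Finset.sum_apply]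
        refine Finset.sum_congr rfl fun p _ => ?_
        rw [map_mul, MvPolynomial.eval_C, hGen, map_smul, Pi.smul_apply, smul_eq_mul, mul_comm]
      rw [h2, Matrix.det_one]
    rw [h0, map_zero] at h1
    exact zero_ne_one h1
  · let φ : MvPolynomial σ K →+* L :=
      ((MvPolynomial.aeval P : MvPolynomial σ K →ₐ[K] L) : MvPolynomial σ K →+* L)
    refine ⟨fun i => (v i).map (mapRingHom (algebraMap K L)), fun i => map_mspan (hv i),
      fun a ha => ?_⟩
    rw [mem_vIdeal_iff, map_sum] at ha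
    have hAP : ∀ p, ∑ i, φ (Gen p i) * a i = 0 := by
      intro p
      have h1 := congrFun ha p
      rw [Finset.sum_apply, Pi.zero_apply] at h1
      rw [← h1]
      refine Finset.sum_congr rfl fun i _ => ?_
      rw [map_smul, Pi.smul_apply, smul_eq_mul, mul_comm]
      congr 1
      exact aeval_gen P (c p.1) (γ p.1) (v i) _ _
    have hne : (φ.mapMatrix Mx).det ≠ 0 := by
      rw [← RingHom.map_det]
      exact hP
    have h4 : (φ.mapMatrix Mx).mulVec a = 0 := by
      ext k
      rw [Matrix.mulVec, dotProduct, Pi.zero_apply]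
      have h5 : ∀ i, (φ.mapMatrix Mx) k i =
          ∑ p, algebraMap K L (G (Pi.single p 1) k) * φ (Gen p i) := by
        intro i
        rw [RingHom.mapMatrix_apply, Matrix.map_apply]
        show φ (∑ p, MvPolynomial.C (G (Pi.single p 1) k) * Gen p i) = _
        rw [map_sum]
        refine Finset.sum_congr rfl fun p _ => ?_
        rw [map_mul]
        congr 1
        simp [φ]
      rw [Finset.sum_congr rfl fun i _ => by rw [h5 i, Finset.sum_mul]]
      rw [Finset.sum_comm]
      refine Finset.sum_eq_zero fun p _ => ?_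
      rw [Finset.sum_congr rfl fun i _ => mul_assoc _ _ _, ← Finset.mul_sum, hAP p, mul_zero]
    exact fun i => congrFun (Matrix.eq_zero_of_mulVec_eq_zero hne h4) i

end ext

variable {K : Type*} [Field K]

/-- Twice the number of conditions. -/
theorem two_mul_sum {n : ℕ} (w : Fin n → ℕ) :
    2 * ∑ i, (w i + 1).choose 2 = ∑ i, w i * (w i + 1) := by
  rw [Finset.mul_sum]
  refine Finset.sum_congr rfl fun i _ => ?_
  have h5 : (w i + 1).choose 2 * 2 = (w i + 1) * w i := by
    rw [Nat.choose_two_right, Nat.div_mul_cancel (Nat.even_mul_pred_self _).two_dvd]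
    rfl
  linarith

theorem near_base {n m : ℕ} {𝒞 : Set (Fin n → K)} {x : Fin n → K} (hx : x ∈ 𝒞)
    {w : Fin n → ℕ} (hw : ∀ i, w i = m ∨ w i = m + 1) {t : ℕ}
    (ht : t = (Finset.univ.filter fun i => w i = m + 1).card) :
    RkS (wFam 𝒞 w) (↑(Lfin n m t 0) : Set (ℕ × ℕ)) (Lfin n m t 0).card := by
  refine RkS.base hx w _ ?_
  rintro ⟨i, l⟩ hp
  rw [Lfin, mem_rowsF] at hp
  obtain ⟨h1, h2⟩ := hp
  simp only [not_lt_zero, if_false, add_zero] at h2
  show i < ∑ a, (w a - l)
  have h3 : ∑ a, (w a - l) = n * (m - l) + t := by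
    have h4 : ∀ a, w a - l = (m - l) + if w a = m + 1 then 1 else 0 := by
      intro a
      rcases hw a with h | h
      · rw [if_neg (by omega)]
        omega
      · rw [if_pos h]
        omega
    rw [Finset.sum_congr rfl fun a _ => h4 a, Finset.sum_add_distrib, Finset.sum_const,
      Finset.card_univ, Fintype.card_fin, smul_eq_mul, Finset.sum_boole, ht]
    rfl
  omega

theorem near_count {n m : ℕ} {w : Fin n → ℕ} (hw : ∀ i, w i = m ∨ w i = m + 1) {t : ℕ}
    (ht : t = (Finset.univ.filter fun i => w i = m + 1).card) :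
    sz n m t 0 = 2 * ∑ i, (w i + 1).choose 2 := by
  rw [two_mul_sum]
  have h4 : ∀ a, w a * (w a + 1) = m * (m + 1) + 2 * (m + 1) * if w a = m + 1 then 1 else 0 := by
    intro a
    rcases hw a with h | h
    · rw [if_neg (by omega), h]
      ring
    · rw [if_pos h, h]
      ring
  rw [Finset.sum_congr rfl fun a _ => h4 a, Finset.sum_add_distrib, Finset.sum_const,
    Finset.card_univ, Fintype.card_fin, smul_eq_mul, ← Finset.mul_sum, Finset.sum_boole]
  unfold sz
  rw [ht]
  push_cast
  ring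

/-- The ranks in the two critical degrees, for multiplicities differing by at most one. -/
theorem near_rank [Infinite K] {n m : ℕ} (hn : 10 ≤ n) (hm : 1 ≤ m) {𝒞 : Set (Fin n → K)}
    {x : Fin n → K} (hx : x ∈ 𝒞) (h𝒞 : AffInv 𝒞)
    {w : Fin n → ℕ} (hw : ∀ i, w i = m ∨ w i = m + 1)
    (hcond : ∃ δ κ, CondN n (∑ i, (w i + 1).choose 2) δ κ)
    (hK : ∀ k : ℕ, 0 < k → k ≤ n * (m + 2) → (k : K) ≠ 0) :
    ∃ d, RkS (wFam 𝒞 w) (Tset d) (Tfin d).card ∧
      RkS (wFam 𝒞 w) (Tset (d + 1)) (∑ i, (w i + 1).choose 2) := by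
  obtain ⟨N₀, hN₀⟩ : ∃ N₀, N₀ = ∑ i, (w i + 1).choose 2 := ⟨_, rfl⟩
  rw [← hN₀] at hcond ⊢
  obtain ⟨t, ht⟩ : ∃ t, t = (Finset.univ.filter fun i => w i = m + 1).card := ⟨_, rfl⟩
  have hsz : sz n m t 0 = 2 * N₀ := by rw [hN₀]; exact near_count hw ht
  have htn : t ≤ n := by
    rw [ht]
    refine (Finset.card_filter_le _ _).trans ?_
    rw [Finset.card_univ, Fintype.card_fin]
  have hNlow : n * m * (m + 1) ≤ 2 * N₀ := by
    rw [← hsz]
    unfold sz
    omega
  have hnm : n * 1 * (1 + 1) ≤ n * m * (m + 1) := Nat.mul_le_mul (Nat.mul_le_mul_left _ hm) (by omega)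
  have hN10 : 10 ≤ N₀ := by omega
  have hNup : 2 * N₀ ≤ n * ((m + 1) * (m + 2)) := by
    rw [hN₀, two_mul_sum]
    calc ∑ i, w i * (w i + 1) ≤ ∑ _i : Fin n, (m + 1) * (m + 2) := by
          refine Finset.sum_le_sum fun i _ => Nat.mul_le_mul ?_ ?_ <;> rcases hw i with h | h <;> omega
      _ = n * ((m + 1) * (m + 2)) := by
          rw [Finset.sum_const, Finset.card_univ, Fintype.card_fin, smul_eq_mul]
  have hB : 2 * N₀ * n ≤ n * (m + 2) * (n * (m + 2)) := by
    calc 2 * N₀ * n ≤ n * ((m + 1) * (m + 2)) * n := Nat.mul_le_mul_right _ hNup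
      _ ≤ n * ((m + 2) * (m + 2)) * n :=
        Nat.mul_le_mul_right _ (Nat.mul_le_mul_left _ (Nat.mul_le_mul_right _ (by omega)))
      _ = n * (m + 2) * (n * (m + 2)) := by ring
  have key : ∃ u t' : ℕ, t' < n ∧ sz n u t' 0 = 2 * N₀ ∧
      RkS (wFam 𝒞 w) (↑(Lfin n u t' 0) : Set (ℕ × ℕ)) (Lfin n u t' 0).card := by
    rcases Nat.lt_or_ge t n with h | h
    · exact ⟨m, t, h, hsz, near_base hx hw ht⟩
    · have htn' : t = n := le_antisymm htn h
      have hall : ∀ i, w i = m + 1 := by
        intro i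
        have h1 : (Finset.univ.filter fun i => w i = m + 1) = Finset.univ := by
          refine Finset.eq_univ_of_card _ ?_
          rw [← ht, htn', Fintype.card_fin]
        have h2 : i ∈ (Finset.univ.filter fun i => w i = m + 1) := by
          rw [h1]
          exact Finset.mem_univ i
        exact (Finset.mem_filter.1 h2).2
      have h3 : (0 : ℕ) = (Finset.univ.filter fun i => w i = m + 1 + 1).card := by
        symm
        rw [Finset.card_eq_zero, Finset.filter_eq_empty_iff]
        intro i _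
        rw [hall i]
        omega
      refine ⟨m + 1, 0, by omega, ?_, near_base hx (fun i => Or.inl (hall i)) h3⟩
      rw [hN₀]
      exact near_count (fun i => Or.inl (hall i)) h3
  obtain ⟨u, t', ht', hsz', hbase⟩ := key
  obtain ⟨d, hd1, hd2, hd3, hd4⟩ := exists_rank (wFam_stable h𝒞 w) hN10 ht' (Nat.zero_le _)
    hbase hsz' hcond (n * (m + 2)) hB hK
  exact ⟨d, hd3 _ (card_Tfin d), hd4⟩

theorem condN_of_le {n m N : ℕ} (hn : 10 ≤ n) (hN : 2 * N ≤ n * (m + 1) * (m + 2))
    (h : ((m + 1 : ℕ) : ℝ) ≤ n - 6 * Real.sqrt n + 11) : ∃ δ κ, CondN n N δ κ := by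
  obtain ⟨δ, κ, h1, h2, h3⟩ := cond_of_le (r := n) (m := m + 1) hn h
  refine ⟨δ, κ, h1, h2, ?_⟩
  rcases h3 with h3 | h3
  · exact Or.inl h3
  · exact Or.inr (lt_of_le_of_lt hN h3)

end Pool.Agent.H932R3
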