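import Mathlib
import Pool.Agent.H932R3.Empty

set_option autoImplicit false

/-!
# Points of the projective plane: Taylor coefficients and homogenised conditions
-/

namespace Pool.Agent.H932R3

open Polynomial Pool.Agent.H932R2

variable {K : Type*} [Field K]

theorem aeval_mul_homog {A : Type*} [CommRing A] [Algebra K A] {d : ℕ}
    {F : MvPolynomial (Fin 3) K} (hF : F.IsHomogeneous d) (c : A) (g : Fin 3 → A) :
    MvPolynomial.aeval (fun j => c * g j) F = c ^ d * MvPolynomial.aeval g F := by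
  conv_lhs => rw [F.as_sum]
  conv_rhs => rw [F.as_sum]
  rw [map_sum, map_sum, Finset.mul_sum]
  refine Finset.sum_congr rfl fun s hs => ?_
  have h1 := sum_eq_of_homog hF (MvPolynomial.mem_support_iff.1 hs)
  rw [MvPolynomial.aeval_monomial, MvPolynomial.aeval_monomial,
    Finsupp.prod_fintype _ _ (fun i => by simp), Finsupp.prod_fintype _ _ (fun i => by simp),
    Fin.prod_univ_three, Fin.prod_univ_three, mul_pow, mul_pow, mul_pow, ← h1, pow_add, pow_add]
  ring

/-- Restriction to `X₂ = 0`. -/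
noncomputable def res0 (K : Type*) [Field K] : MvPolynomial (Fin 3) K →ₐ[K] K[X][X] :=
  MvPolynomial.aeval ![C X, X, 0]

theorem coeff_res0 (A : MvPolynomial (Fin 3) K) (i l : ℕ) :
    ((res0 K A).coeff l).coeff i =
      A.coeff (Finsupp.single 0 i + Finsupp.single 1 l) := by
  classical
  have h : ∀ (s : Fin 3 →₀ ℕ) (a : K),
      ((res0 K (MvPolynomial.monomial s a)).coeff l).coeff i =
        (MvPolynomial.monomial s a).coeff (Finsupp.single 0 i + Finsupp.single 1 l) := by
    intro s a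
    rw [res0, MvPolynomial.aeval_monomial, Finsupp.prod_fintype _ _ (fun i => by simp),
      Fin.prod_univ_three, MvPolynomial.coeff_monomial]
    by_cases h2 : s 2 = 0
    · have h3 : (algebraMap K K[X][X]) a * ((![C X, X, 0] : Fin 3 → K[X][X]) 0 ^ s 0 *
          (![C X, X, 0] : Fin 3 → K[X][X]) 1 ^ s 1 * (![C X, X, 0] : Fin 3 → K[X][X]) 2 ^ s 2) =
          a • mon K (s 0, s 1) := by
        rw [h2, pow_zero, mul_one, Algebra.smul_def, mon]
        simp
      rw [h3, coeff_smul, coeff_smul, coeff_mon]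
      by_cases h4 : s = Finsupp.single 0 i + Finsupp.single 1 l
      · rw [if_pos h4, if_pos]
        · simp
        · rw [h4]
          simp
      · rw [if_neg h4, if_neg]
        · simp
        · intro h5
          rw [Prod.mk.injEq] at h5
          apply h4
          ext j
          fin_cases j
          · simp [← h5.1]
          · simp [← h5.2]
          · simp [h2]
    · rw [if_neg]
      · have h3 : (![C X, X, 0] : Fin 3 → K[X][X]) 2 ^ s 2 = 0 := by
          show (0 : K[X][X]) ^ s 2 = 0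
          exact zero_pow h2
        rw [h3, mul_zero, mul_zero]
        simp
      · intro h4
        apply h2
        rw [h4]
        simp
  conv_lhs => rw [A.as_sum]
  conv_rhs => rw [A.as_sum]
  rw [map_sum, finsetSum_coeff, finsetSum_coeff, MvPolynomial.coeff_sum]
  exact Finset.sum_congr rfl fun s _ => h s _

/-- From the vanishing of Taylor coefficients to ideal membership. -/
theorem mem_of_taylor {v : Fin 3 → K} (hv : v 2 ≠ 0) {F : MvPolynomial (Fin 3) K} {d m : ℕ}
    (hF : F.IsHomogeneous d)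
    (h : ∀ s : Fin 3 →₀ ℕ, (∑ j, s j) < m →
      MvPolynomial.coeff s (MvPolynomial.aeval
        (fun j : Fin 3 => (MvPolynomial.X j + MvPolynomial.C (v j) : MvPolynomial (Fin 3) K)) F)
        = 0) :
    deh K F ∈ cIdeal (fun _ : Fin 1 => v 0 / v 2) (C (v 1 / v 2)) m := by
  rw [mem_cIdeal_iff]
  intro l hl i hi
  obtain ⟨t, ht⟩ : ∃ t, t = v 2 := ⟨_, rfl⟩
  rw [← ht] at hv
  have h1 := h (Finsupp.single 0 i + Finsupp.single 1 l) (by
    rw [Fin.sum_univ_three]
    simp
    omega)
  rw [← coeff_res0] at h1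
  let g : Fin 3 → K[X][X] := ![C (C t⁻¹ * X + C (v 0 / t)), C (C t⁻¹) * X + C (C (v 1 / t)), 1]
  have h2 : res0 K (MvPolynomial.aeval (fun j : Fin 3 =>
      (MvPolynomial.X j + MvPolynomial.C (v j) : MvPolynomial (Fin 3) K)) F) =
      C (C t) ^ d * MvPolynomial.aeval g F := by
    have hC : ∀ a : K, res0 K (MvPolynomial.C a) = C (C a) := fun a => (res0 K).commutes a
    have hX0 : res0 K (MvPolynomial.X 0) = C X := by simp [res0]
    have hX1 : res0 K (MvPolynomial.X 1) = X := by simp [res0]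
    have hX2 : res0 K (MvPolynomial.X 2) = 0 := by simp [res0]
    have htt : C (C t) * C (C t⁻¹) = (1 : K[X][X]) := by
      rw [← C_mul, ← C_mul, mul_inv_cancel₀ hv, C_1, C_1]
    have htv : ∀ a : K, C (C t) * C (C (a / t)) = (C (C a) : K[X][X]) := by
      intro a
      rw [← C_mul, ← C_mul, mul_div_cancel₀ a hv]
    have hcomp : (res0 K).comp (MvPolynomial.aeval (fun j : Fin 3 =>
        (MvPolynomial.X j + MvPolynomial.C (v j) : MvPolynomial (Fin 3) K))) =
        MvPolynomial.aeval (fun j => C (C t) * g j) := by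
      refine MvPolynomial.algHom_ext fun j => ?_
      rw [AlgHom.comp_apply, MvPolynomial.aeval_X, MvPolynomial.aeval_X, map_add, hC]
      fin_cases j
      · show res0 K (MvPolynomial.X 0) + C (C (v 0)) = C (C t) * C (C t⁻¹ * X + C (v 0 / t))
        rw [C_add, C_mul, mul_add, ← mul_assoc, htt, one_mul, htv, hX0]
      · show res0 K (MvPolynomial.X 1) + C (C (v 1)) =
          C (C t) * (C (C t⁻¹) * X + C (C (v 1 / t)))
        rw [mul_add, ← mul_assoc, htt, one_mul, htv, hX1]
      · show res0 K (MvPolynomial.X 2) + C (C (v 2)) = C (C t) * 1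
        rw [mul_one, hX2, zero_add, ht]
    have h4 := AlgHom.congr_fun hcomp F
    rw [AlgHom.comp_apply] at h4
    rw [h4, aeval_mul_homog hF]
  let ψ : K[X][X] →+* K[X][X] :=
    (compRingHom (C (C t⁻¹) * X)).comp (mapRingHom (compRingHom (C t⁻¹ * X)))
  have hψ : ∀ f : K[X][X], ψ f = (f.map (compRingHom (C t⁻¹ * X))).comp (C (C t⁻¹) * X) :=
    fun f => rfl
  have h3 : ψ (sh (v 0 / t) (C (v 1 / t)) (deh K F)) = MvPolynomial.aeval g F := by
    have h4 : (ψ.comp (sh (v 0 / t) (C (v 1 / t)))).comp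
        (deh K : MvPolynomial (Fin 3) K →+* K[X][X]) =
        ((MvPolynomial.aeval g : MvPolynomial (Fin 3) K →ₐ[K] K[X][X]) :
          MvPolynomial (Fin 3) K →+* K[X][X]) := by
      refine MvPolynomial.ringHom_ext (fun c => ?_) fun j => ?_
      · have h5 : deh K (MvPolynomial.C c) = C (C c) := (deh K).commutes c
        have h6 : MvPolynomial.aeval g (MvPolynomial.C c) = C (C c) := MvPolynomial.aeval_C _ _
        simp only [RingHom.comp_apply, RingHom.coe_coe, h5, h6, hψ, sh_C, C_comp,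
          Polynomial.map_C, coe_compRingHom_apply]
      · fin_cases j
        · show ψ (sh (v 0 / t) (C (v 1 / t)) (deh K (MvPolynomial.X 0))) =
            MvPolynomial.aeval g (MvPolynomial.X 0)
          rw [deh_X0, sh_C, MvPolynomial.aeval_X, hψ]
          simp [g]
        · show ψ (sh (v 0 / t) (C (v 1 / t)) (deh K (MvPolynomial.X 1))) =
            MvPolynomial.aeval g (MvPolynomial.X 1)
          rw [deh_X1, sh_X, MvPolynomial.aeval_X, hψ]
          simp [g]
        · show ψ (sh (v 0 / t) (C (v 1 / t)) (deh K (MvPolynomial.X 2))) =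
            MvPolynomial.aeval g (MvPolynomial.X 2)
          rw [deh_X2, MvPolynomial.aeval_X, map_one, map_one]
          rfl
    exact congrArg (fun φ : MvPolynomial (Fin 3) K →+* K[X][X] => φ F) h4
  rw [h2, ← h3, hψ, ← C_pow, coeff_C_mul, ← C_pow, coeff_C_mul, comp_C_mul_X_coeff, coeff_map,
    coe_compRingHom_apply, ← C_pow, coeff_mul_C, comp_C_mul_X_coeff] at h1
  have h4 : t ^ d ≠ 0 := pow_ne_zero _ hv
  have h5 : t⁻¹ ^ i ≠ 0 := pow_ne_zero _ (inv_ne_zero hv)
  have h6 : t⁻¹ ^ l ≠ 0 := pow_ne_zero _ (inv_ne_zero hv)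
  rw [← ht]
  rcases mul_eq_zero.1 h1 with h7 | h7
  · exact absurd h7 h4
  · rcases mul_eq_zero.1 h7 with h8 | h8
    · rcases mul_eq_zero.1 h8 with h9 | h9
      · exact h9
      · exact absurd h9 h5
    · exact absurd h8 h6

/-- Homogenising a polynomial condition on affine points. -/
theorem exists_homogenise {n : ℕ} [Infinite K] (F : MvPolynomial (Fin n × Fin 2) K)
    (hF : F ≠ 0) :
    ∃ G : MvPolynomial (Fin n × Fin 3) K, G ≠ 0 ∧ ∀ v : Fin n → Fin 3 → K,
      MvPolynomial.eval (fun q : Fin n × Fin 3 => v q.1 q.2) G ≠ 0 →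
        (∀ i, v i 2 ≠ 0) ∧
        MvPolynomial.eval (fun q : Fin n × Fin 2 => v q.1 (Fin.castSucc q.2) / v q.1 2) F ≠ 0 := by
  classical
  obtain ⟨N, hN⟩ : ∃ N, N = F.totalDegree := ⟨_, rfl⟩
  have hle : ∀ s ∈ F.support, ∀ q, s q ≤ N := by
    intro s hs q
    rw [hN]
    refine le_trans ?_ (MvPolynomial.le_totalDegree hs)
    by_cases hq : s q = 0
    · rw [hq]; exact Nat.zero_le _
    · exact Finset.single_le_sum (f := fun q => s q) (fun _ _ => Nat.zero_le _)
        (Finsupp.mem_support_iff.2 hq)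
  let G0 : MvPolynomial (Fin n × Fin 3) K := ∑ s ∈ F.support, MvPolynomial.C (F.coeff s) *
    ∏ q : Fin n × Fin 2, (MvPolynomial.X (q.1, Fin.castSucc q.2) ^ s q *
      MvPolynomial.X (q.1, 2) ^ (N - s q))
  have hG0 : ∀ v : Fin n → Fin 3 → K, (∀ i, v i 2 ≠ 0) →
      MvPolynomial.eval (fun q : Fin n × Fin 3 => v q.1 q.2) G0 =
        (∏ q : Fin n × Fin 2, v q.1 2 ^ N) *
        MvPolynomial.eval (fun q : Fin n × Fin 2 => v q.1 (Fin.castSucc q.2) / v q.1 2) F := by
    intro v hv
    rw [MvPolynomial.eval_eq' _ F, map_sum, Finset.mul_sum]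
    refine Finset.sum_congr rfl fun s hs => ?_
    rw [map_mul, MvPolynomial.eval_C, map_prod]
    simp only [map_mul, map_pow, MvPolynomial.eval_X]
    rw [mul_left_comm, ← Finset.prod_mul_distrib]
    congr 1
    refine Finset.prod_congr rfl fun q _ => ?_
    have h1 := hle s hs q
    have h2 : v q.1 2 ^ N = v q.1 2 ^ (N - s q) * v q.1 2 ^ s q := by
      rw [← pow_add, Nat.sub_add_cancel h1]
    rw [h2, div_pow]
    have h3 : v q.1 2 ^ s q ≠ 0 := pow_ne_zero _ (hv q.1)
    field_simp
  refine ⟨G0 * ∏ i : Fin n, MvPolynomial.X (i, 2), ?_, fun v hv => ?_⟩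
  · refine mul_ne_zero ?_ (Finset.prod_ne_zero_iff.2 fun i _ => MvPolynomial.X_ne_zero _)
    intro h0
    apply hF
    refine MvPolynomial.funext fun x => ?_
    rw [map_zero]
    have h1 := hG0 (fun i => ![x (i, 0), x (i, 1), 1]) (fun i => by simp)
    rw [h0, map_zero] at h1
    have h2 : (fun q : Fin n × Fin 2 => (![x (q.1, 0), x (q.1, 1), 1] : Fin 3 → K)
        (Fin.castSucc q.2) / (![x (q.1, 0), x (q.1, 1), 1] : Fin 3 → K) 2) = x := by
      funext q
      obtain ⟨i, j⟩ := q
      fin_cases j <;> simp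
    rw [h2] at h1
    simpa using h1.symm
  · rw [map_mul, map_prod] at hv
    simp only [MvPolynomial.eval_X] at hv
    have h1 := left_ne_zero_of_mul hv
    have h2 : ∀ i, v i 2 ≠ 0 := fun i =>
      (Finset.prod_ne_zero_iff.1 (right_ne_zero_of_mul hv)) i (Finset.mem_univ i)
    rw [hG0 v h2] at h1
    exact ⟨h2, right_ne_zero_of_mul h1⟩

end Pool.Agent.H932R3
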