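import Mathlib
import Pool.Agent.H932R3.NearMain
import Pool.Agent.H932R3.Proj

set_option autoImplicit false

/-!
# Final forms for multiplicities differing by at most one
-/

namespace Pool.Agent.H932R3

open Polynomial Pool.Agent.H932R2

theorem near_cond {n m : ℕ} (hn : 9 < n) {w : Fin n → ℕ} (hw : ∀ i, w i = m ∨ w i = m + 1)
    (h : ((m + 1 : ℕ) : ℝ) ≤ n - 6 * Real.sqrt n + 11 ∨
      ∃ δ κ : ℕ, 2 ≤ δ ∧ n = δ ^ 2 + 2 * κ ∧
        (κ = 0 ∨ ∑ i, w i * (w i + 1) < δ ^ 2 * (δ ^ 2 + 3) * (δ ^ 2 + 4))) :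
    ∃ δ κ, CondN n (∑ i, (w i + 1).choose 2) δ κ := by
  rcases h with h | ⟨δ, κ, h1, h2, h3⟩
  · refine condN_of_le (m := m) (by omega) ?_ h
    rw [two_mul_sum]
    calc ∑ i, w i * (w i + 1) ≤ ∑ _i : Fin n, (m + 1) * (m + 2) := by
          refine Finset.sum_le_sum fun i _ => Nat.mul_le_mul ?_ ?_ <;> rcases hw i with h | h <;> omega
      _ = n * (m + 1) * (m + 2) := by
          rw [Finset.sum_const, Finset.card_univ, Fintype.card_fin, smul_eq_mul, mul_assoc]
  · refine ⟨δ, κ, h1, by rw [h2]; ring, ?_⟩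
    rcases h3 with h3 | h3
    · exact Or.inl h3
    · right
      rw [two_mul_sum]
      simpa [pow_two] using h3

/-- No linearly independent family of more than the expected number of forms. -/
theorem near_not_special {L : Type*} [Field L] [CharZero L] {n m : ℕ} (hn : 10 ≤ n) (hm : 1 ≤ m)
    {w : Fin n → ℕ} (hw : ∀ i, w i = m ∨ w i = m + 1)
    (hcond : ∃ δ κ, CondN n (∑ i, (w i + 1).choose 2) δ κ) :
    ∃ Q : MvPolynomial (Fin n × Fin 3) L, Q ≠ 0 ∧
      ∀ p : Fin n → Fin 3 → L,
        MvPolynomial.eval (fun ij : Fin n × Fin 3 => p ij.1 ij.2) Q ≠ 0 →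
        ∀ (d : ℕ) (F : Fin ((d + 2).choose 2 - ∑ i, (w i + 1).choose 2 + 1) →
          MvPolynomial (Fin 3) L),
          (∀ k, F k ∈ MvPolynomial.homogeneousSubmodule (Fin 3) L d ∧
            ∀ i, ∀ s : Fin 3 →₀ ℕ, ∑ j, s j < w i →
              MvPolynomial.coeff s
                (MvPolynomial.aeval (R := L)
                  (fun j : Fin 3 => (MvPolynomial.X j + MvPolynomial.C (p i j) :
                    MvPolynomial (Fin 3) L)) (F k)) = 0) →
          ¬ LinearIndependent L F := by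
  classical
  obtain ⟨F0, hF0, hF0'⟩ := near_points (L := L) hn hm hw hcond
  have hF1 : F0.map (algebraMap ℚ L) ≠ 0 := by
    intro h0
    exact hF0 (MvPolynomial.map_injective (algebraMap ℚ L) (algebraMap ℚ L).injective (by
      rw [h0, map_zero]))
  obtain ⟨Q, hQ, hQ'⟩ := exists_homogenise (F0.map (algebraMap ℚ L)) hF1
  refine ⟨Q, hQ, fun p hp d F hF hli => ?_⟩
  obtain ⟨h2, h3⟩ := hQ' p hp
  let P : Fin n → Fin 2 → L := fun i j => p i (Fin.castSucc j) / p i 2
  have h4 : MvPolynomial.aeval (fun ij : Fin n × Fin 2 => P ij.1 ij.2) F0 ≠ 0 := by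
    rw [MvPolynomial.eval_map] at h3
    exact h3
  have h5 := hF0' P h4 d
  set S := (MvPolynomial.homogeneousSubmodule (Fin 3) L d ⊓
              Submodule.restrictScalars L
                (⨅ i : Fin n,
                  (Ideal.span
                    ({MvPolynomial.X 0 - MvPolynomial.C (P i 0) * MvPolynomial.X 2,
                      MvPolynomial.X 1 - MvPolynomial.C (P i 1) * MvPolynomial.X 2} :
                      Set (MvPolynomial (Fin 3) L))) ^ (w i))) with hS
  have hmem : ∀ k, F k ∈ S := by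
    intro k
    refine Submodule.mem_inf.2 ⟨(hF k).1, ?_⟩
    rw [Submodule.restrictScalars_mem, Ideal.mem_iInf]
    intro i
    have h6 : deh L (F k) ∈ cIdeal (fun _ : Fin 1 => p i 0 / p i 2) (C (p i 1 / p i 2)) (w i) :=
      mem_of_taylor (h2 i) ((MvPolynomial.mem_homogeneousSubmodule _ _).1 (hF k).1) ((hF k).2 i)
    exact (mem_ptIdeal_iff (hF k).1).2 h6
  have hfinH : Module.Finite L ↥(MvPolynomial.homogeneousSubmodule (Fin 3) L d) :=
    Module.Finite.iff_fg.2 (MvPolynomial.homogeneousSubmodule_fg _ _ d)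
  have hfin : Module.Finite L ↥S :=
    Submodule.finiteDimensional_of_le (S₁ := S)
      (S₂ := MvPolynomial.homogeneousSubmodule (Fin 3) L d) inf_le_left
  let G : Fin ((d + 2).choose 2 - ∑ i, (w i + 1).choose 2 + 1) → S := fun k => ⟨F k, hmem k⟩
  have hG : LinearIndependent L G := by
    refine LinearIndependent.of_comp S.subtype ?_
    exact hli
  have h7 := hG.fintype_card_le_finrank
  rw [h5, Fintype.card_fin] at h7
  omega

end Pool.Agent.H932R3
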