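import Mathlib
import Pool.Agent.H932R3.CritRank
import Pool.Agent.H932R3.NearFinal

set_option autoImplicit false

/-!
# All degrees but three: ranks and dimensions
-/

namespace Pool.Agent.H932R3

open Polynomial Pool.Agent.H932R2

theorem crit_ranks {K : Type*} [Field K] [Infinite K] {n m : ℕ} (hn : 100 ≤ n) (hm : 1 ≤ m)
    {𝒞 : Set (Fin n → K)} {x : Fin n → K} (hx : x ∈ 𝒞)
    (h𝒞 : AffInv 𝒞) {w : Fin n → ℕ} (hw : ∀ a, w a = m ∨ w a = m + 1)
    (h : 256 * (m + 1) ^ 2 ≤ n ^ 3 ∨ (n % 4 ≤ 1 ∧ 100 * (m + 1) ≤ n ^ 2))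
    (hK : ∀ k : ℕ, 0 < k → k ≤ n * (m + 2) → (k : K) ≠ 0) :
    ∃ e f : ℕ, RkS (wFam 𝒞 w) (Tset e) (Tfin e).card ∧
      RkS (wFam 𝒞 w) (Tset f) (∑ a, (w a + 1).choose 2) ∧
      ∀ d : ℕ, 3 ≤ |2 * (d : ℝ) + 3 - Real.sqrt n - 2 * (∑ a, (w a : ℝ)) / Real.sqrt n| →
        d ≤ e ∨ f ≤ d := by
  by_cases hlin : ((m + 1 : ℕ) : ℝ) ≤ n - 6 * Real.sqrt n + 11
  · obtain ⟨e, h1, h2⟩ := near_rank (by omega) hm hx h𝒞 hw (near_cond (by omega) hw (Or.inl hlin)) hK
    exact ⟨e, e + 1, h1, h2, fun d _ => by omega⟩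
  · have hlin' := not_le.1 hlin
    obtain ⟨δ, σ, hδ, h1, h2, hσ, h3, h4⟩ := exists_crit hn h
    obtain ⟨s, hs⟩ : ∃ s, s = Real.sqrt n := ⟨_, rfl⟩
    have hnR : (100 : ℝ) ≤ n := by exact_mod_cast hn
    have hss : s * s = n := by rw [hs]; exact Real.mul_self_sqrt (by linarith)
    have hs10 : 10 ≤ s := by rw [hs]; exact Real.le_sqrt_of_sq_le (by norm_num; linarith)
    have hs0 : 0 < s := by linarith
    have hmR : (0 : ℝ) ≤ m := Nat.cast_nonneg m
    rw [← hs] at hlin' ⊢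
    obtain ⟨S, hS⟩ : ∃ S, S = ∑ a, (w a : ℝ) := ⟨_, rfl⟩
    have hS1 : n * (m : ℝ) ≤ S := by
      rw [hS]
      calc n * (m : ℝ) = ∑ _a : Fin n, (m : ℝ) := by
            rw [Finset.sum_const, Finset.card_univ, Fintype.card_fin, nsmul_eq_mul]
        _ ≤ ∑ a, (w a : ℝ) := by
            refine Finset.sum_le_sum fun a _ => ?_
            rcases hw a with h' | h' <;> rw [h']
            push_cast
            linarith
    have hS2 : S ≤ n * (m + 1) := by rw [hS]; exact sum_near_le hw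
    obtain ⟨T, hT⟩ : ∃ T, T = s + 2 * S / s := ⟨_, rfl⟩
    have hT1 : s + 2 * s * m ≤ T := by
      have : 2 * s * m ≤ 2 * S / s := by
        rw [le_div_iff₀ hs0]
        nlinarith
      linarith
    have hT2 : T ≤ s + 2 * s * (m + 1) := by
      have : 2 * S / s ≤ 2 * s * (m + 1) := by
        rw [div_le_iff₀ hs0]
        nlinarith
      linarith
    push_cast at hlin'
    rw [← hss] at hlin'
    have hm2 : s * s - 6 * s + 10 < m := by linarith
    have hT3 : s * (s - 1) * (s - 2) + 8 ≤ T := by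
      have h5 : s + 2 * s * (s * s - 6 * s + 10) ≤ T := by nlinarith
      nlinarith [mul_pos hs0 hs0]
    have hδs : (δ : ℝ) ≤ s := by
      rw [hs]
      apply Real.le_sqrt_of_sq_le
      have : ((δ * δ : ℕ) : ℝ) ≤ n := by exact_mod_cast h1
      push_cast at this
      nlinarith
    have hδR : (9 : ℝ) ≤ δ := by exact_mod_cast hδ
    have hδ3 : ((δ * ((δ - 1) * (δ - 2)) : ℕ) : ℝ) ≤ s * (s - 1) * (s - 2) := by
      rw [Nat.cast_mul, Nat.cast_mul, Nat.cast_sub (by omega), Nat.cast_sub (by omega)]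
      push_cast
      have h5 : (δ : ℝ) * ((δ - 1) * (δ - 2)) ≤ s * ((s - 1) * (s - 2)) := by
        apply mul_le_mul hδs _ _ hs0.le
        · apply mul_le_mul (by linarith) (by linarith) (by linarith) (by linarith)
        · apply mul_nonneg <;> linarith
      linarith
    have hT0 : 0 ≤ (T - 6) / 2 := by
      have : 0 ≤ s * (s - 1) * (s - 2) := by
        apply mul_nonneg (mul_nonneg hs0.le (by linarith)) (by linarith)
      linarith
    obtain ⟨e, he⟩ : ∃ e, e = ⌊(T - 6) / 2⌋₊ := ⟨_, rfl⟩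
    obtain ⟨f, hf⟩ : ∃ f, f = ⌈T / 2⌉₊ := ⟨_, rfl⟩
    have he1 : (e : ℝ) ≤ (T - 6) / 2 := by rw [he]; exact Nat.floor_le hT0
    have he2 : (T - 6) / 2 < e + 1 := by rw [he]; exact Nat.lt_floor_add_one _
    have hf1 : T / 2 ≤ f := by rw [hf]; exact Nat.le_ceil _
    have hf2 : (f : ℝ) < T / 2 + 1 := by rw [hf]; exact Nat.ceil_lt_add_one (by linarith)
    have hef : e ≤ f := by
      have : (e : ℝ) ≤ f := by linarith
      exact_mod_cast this
    have hBf : δ * f ≤ n * (m + 2) := by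
      have h5 : (δ : ℝ) * f ≤ n * (m + 2) := by
        have h6 : (f : ℝ) ≤ s * (m + 2) := by nlinarith
        calc (δ : ℝ) * f ≤ s * (s * (m + 2)) := by
              apply mul_le_mul hδs h6 (Nat.cast_nonneg _) hs0.le
          _ = n * (m + 2) := by rw [← hss]; ring
      exact_mod_cast h5
    have hde : δ * ((δ - 1) * (δ - 2)) ≤ 2 * e := by
      have : ((δ * ((δ - 1) * (δ - 2)) : ℕ) : ℝ) ≤ ((2 * e : ℕ) : ℝ) := by
        push_cast at hδ3 ⊢
        linarith
      exact_mod_cast this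
    refine ⟨e, f, ?_, ?_, fun d hd => ?_⟩
    · refine crit_upper (by omega) hx h𝒞 hw hδ h2 hσ h3 h4 ?_ hde
        ((Nat.mul_le_mul_left _ hef).trans hBf) hK
      rw [← hs, ← hS, ← hT]
      linarith
    · refine crit_lower (by omega) hx h𝒞 hw hδ h2 hσ h3 h4 ?_ (hde.trans (by omega)) hBf hK
      rw [← hs, ← hS, ← hT]
      linarith
    · rw [← hS] at hd
      have hd' : 3 ≤ |2 * (d : ℝ) + 3 - T| := by
        rw [hT]
        convert hd using 2
        ring
      rcases le_abs.1 hd' with h5 | h5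
      · right
        rw [hf, Nat.ceil_le]
        linarith
      · left
        rw [he, Nat.le_floor_iff hT0]
        linarith

/-- Points over an extension field: the dimension formula from two ranks over `ℚ`. -/
theorem points_two {L : Type*} [Field L] [CharZero L] {n : ℕ} {w : Fin n → ℕ} {e f : ℕ}
    (h1 : RkS (wFam {x : Fin n → ℚ | Function.Injective x} w) (Tset e) (Tfin e).card)
    (h2 : RkS (wFam {x : Fin n → ℚ | Function.Injective x} w) (Tset f)
      (∑ a, (w a + 1).choose 2)) :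
    ∃ F : MvPolynomial (Fin n × Fin 2) ℚ, F ≠ 0 ∧
      ∀ P : Fin n → Fin 2 → L,
        MvPolynomial.aeval (fun ij : Fin n × Fin 2 => P ij.1 ij.2) F ≠ 0 →
        ∀ d : ℕ, (d ≤ e ∨ f ≤ d) →
          Module.finrank L
            ↥(MvPolynomial.homogeneousSubmodule (Fin 3) L d ⊓
              Submodule.restrictScalars L
                (⨅ i : Fin n,
                  (Ideal.span
                    ({MvPolynomial.X 0 - MvPolynomial.C (P i 0) * MvPolynomial.X 2,
                      MvPolynomial.X 1 - MvPolynomial.C (P i 1) * MvPolynomial.X 2} :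
                      Set (MvPolynomial (Fin 3) L))) ^ (w i)))
          = Nat.choose (d + 2) 2 - ∑ i, Nat.choose (w i + 1) 2 := by
  classical
  let 𝒞 : Set (Fin n → ℚ) := {x | Function.Injective x}
  let c : Fin n → MvPolynomial (Fin n × Fin 2) ℚ := fun a => MvPolynomial.X (a, 0)
  let γ : Fin n → (MvPolynomial (Fin n × Fin 2) ℚ)[X] := fun a => C (MvPolynomial.X (a, 1))
  have hop : ∀ (T : Set (ℕ × ℕ)) (N : ℕ), RkS (wFam 𝒞 w) T N →
      ∃ F : MvPolynomial (Fin n × Fin 2) ℚ, F ≠ 0 ∧ ∀ P : Fin n × Fin 2 → L,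
        MvPolynomial.aeval P F ≠ 0 →
        RkI (vIdeal 1 w (fun a => P (a, 0)) (fun a => C (P (a, 1)))) T N := by
    rintro T N ⟨_, ⟨x, hx, g, rfl⟩, hR⟩
    have h3 := hR.anti (iInf_le_wIdeal hx g w)
    let P0 : Fin n × Fin 2 → ℚ := fun ij => if ij.2 = 0 then x ij.1 else g.eval (x ij.1)
    obtain ⟨F, hF, hF'⟩ := exists_openV_ext (L := L) 1 w c γ T N P0 (by
      simpa [P0, c, γ, vIdeal] using h3)
    refine ⟨F, hF, fun P hP => ?_⟩
    have h4 := hF' P hP
    have e1 : (fun a => MvPolynomial.aeval P (c a)) = fun a => P (a, 0) := by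
      funext a
      exact MvPolynomial.aeval_X _ _
    have e2 : (fun a => (γ a).map
        ((MvPolynomial.aeval P : MvPolynomial (Fin n × Fin 2) ℚ →ₐ[ℚ] L) :
          MvPolynomial (Fin n × Fin 2) ℚ →+* L)) = fun a => C (P (a, 1)) := by
      funext a
      show (C (MvPolynomial.X (a, 1))).map _ = _
      rw [Polynomial.map_C]
      congr 1
      exact MvPolynomial.aeval_X _ _
    rw [e1, e2] at h4
    exact h4
  obtain ⟨F1, hF1, hF1'⟩ := hop _ _ h1
  obtain ⟨F2, hF2, hF2'⟩ := hop _ _ h2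
  refine ⟨F1 * F2, mul_ne_zero hF1 hF2, fun P hP d hd => ?_⟩
  rw [map_mul] at hP
  have h3 := hF1' _ (left_ne_zero_of_mul hP)
  have h4 := hF2' _ (right_ne_zero_of_mul hP)
  have hsum : ∑ a, (EE 1 (w a)).card = ∑ i, (w i + 1).choose 2 :=
    Finset.sum_congr rfl fun i _ => card_EE_eq (w i)
  have h5 := finrank_two h3 (by rw [hsum]; exact h4) d hd
  rw [hsum] at h5
  rw [← h5]
  refine finrank_forms _ _ fun F hF => ?_
  rw [Submodule.restrictScalars_mem, Submodule.restrictScalars_mem]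
  unfold vIdeal
  rw [Ideal.mem_iInf, Ideal.mem_iInf]
  exact forall_congr' fun i => mem_ptIdeal_iff hF

/-- All degrees but three, at generic points. -/
theorem crit_points {L : Type*} [Field L] [CharZero L] {n m : ℕ} (hn : 100 ≤ n) (hm : 1 ≤ m)
    {w : Fin n → ℕ} (hw : ∀ a, w a = m ∨ w a = m + 1)
    (h : 256 * (m + 1) ^ 2 ≤ n ^ 3 ∨ (n % 4 ≤ 1 ∧ 100 * (m + 1) ≤ n ^ 2)) :
    ∃ F : MvPolynomial (Fin n × Fin 2) ℚ, F ≠ 0 ∧
      ∀ P : Fin n → Fin 2 → L,
        MvPolynomial.aeval (fun ij : Fin n × Fin 2 => P ij.1 ij.2) F ≠ 0 →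
        ∀ d : ℕ, 3 ≤ |2 * (d : ℝ) + 3 - Real.sqrt n - 2 * (∑ a, (w a : ℝ)) / Real.sqrt n| →
          Module.finrank L
            ↥(MvPolynomial.homogeneousSubmodule (Fin 3) L d ⊓
              Submodule.restrictScalars L
                (⨅ i : Fin n,
                  (Ideal.span
                    ({MvPolynomial.X 0 - MvPolynomial.C (P i 0) * MvPolynomial.X 2,
                      MvPolynomial.X 1 - MvPolynomial.C (P i 1) * MvPolynomial.X 2} :
                      Set (MvPolynomial (Fin 3) L))) ^ (w i)))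
          = Nat.choose (d + 2) 2 - ∑ i, Nat.choose (w i + 1) 2 := by
  have hx0 : (fun i : Fin n => Infinite.natEmbedding ℚ i) ∈
      {x : Fin n → ℚ | Function.Injective x} := by
    intro a b hab
    exact Fin.ext ((Infinite.natEmbedding ℚ).injective hab)
  obtain ⟨e, f, h1, h2, h3⟩ := crit_ranks (K := ℚ) hn hm hx0 (affInv_inj n) hw h
    (fun k hk _ => by exact_mod_cast hk.ne')
  obtain ⟨F, hF, hF'⟩ := points_two (L := L) h1 h2
  exact ⟨F, hF, fun P hP d hd => hF' P hP d (h3 d hd)⟩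

end Pool.Agent.H932R3
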