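import Mathlib
import Pool.Agent.H932R3.WedgeMain

set_option autoImplicit false

/-!
# Two-sided results for general collisions
-/

namespace Pool.Agent.H932R3

open Polynomial Pool.Agent.H932R2

variable {K : Type*} [Field K]

theorem vIdeal_jet {r m : ℕ} (c : K) (a : Fin r → K) :
    vIdeal r (fun _ : Unit => m) (fun _ => c) (fun _ => ∑ j : Fin r, C (a j) * X ^ (j : ℕ)) =
      jetIdeal m c a := by
  simp only [vIdeal, iInf_const, cIdeal, jetIdeal, rootPoly_const]

theorem hopC {r m : ℕ} (hr : 0 < r) {T : Set (ℕ × ℕ)} {N : ℕ}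
    (h : RkS (wFam {x : Fin r → K | ∃ c, x = fun _ => c} fun _ => m) T N) :
    ∃ F : MvPolynomial (Fin (r + 1)) K, F ≠ 0 ∧
      ∀ (c : K) (a : Fin r → K), MvPolynomial.eval (Fin.cons c a : Fin (r + 1) → K) F ≠ 0 →
        RkI (jetIdeal m c a) T N := by
  classical
  obtain ⟨_, ⟨_, ⟨c1, rfl⟩, g, rfl⟩, hR⟩ := h
  have hR' := hR.anti (cIdeal_le_wIdeal _ g m)
  let c : Unit → MvPolynomial (Fin (r + 1)) K := fun _ => MvPolynomial.X 0
  let γ : Unit → (MvPolynomial (Fin (r + 1)) K)[X] := fun _ =>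
    ∑ j : Fin r, C (MvPolynomial.X j.succ) * X ^ (j : ℕ)
  have hev : ∀ (c0 : K) (a : Fin r → K),
      uIdeal r m (fun i => MvPolynomial.eval (Fin.cons c0 a : Fin (r + 1) → K) (c i))
        (fun i => (γ i).map (MvPolynomial.eval (Fin.cons c0 a : Fin (r + 1) → K))) =
      jetIdeal m c0 a := by
    intro c0 a
    simp only [c, γ, MvPolynomial.eval_X, Fin.cons_zero, uIdeal, iInf_const, cIdeal, jetIdeal,
      rootPoly_const, Polynomial.map_sum, Polynomial.map_mul, Polynomial.map_C,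
      Polynomial.map_pow, Polynomial.map_X, Fin.cons_succ]
  have h3 := hR'.anti (cIdeal_mod _ g m)
  have hdeg : (g %ₘ rootPoly (fun _ : Fin r => c1)).natDegree < r := by
    have h4 := natDegree_modByMonic_lt g (rootPoly_monic (fun _ : Fin r => c1)) (by
      intro h5
      have h6 := rootPoly_natDegree (fun _ : Fin r => c1)
      rw [h5, natDegree_one] at h6
      omega)
    rwa [rootPoly_natDegree] at h4
  obtain ⟨g', hg'⟩ : ∃ g', g' = g %ₘ rootPoly (fun _ : Fin r => c1) := ⟨_, rfl⟩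
  rw [← hg'] at h3 hdeg
  have hsum : ∑ j : Fin r, C (g'.coeff j) * X ^ (j : ℕ) = g' := by
    conv_rhs => rw [as_sum_range_C_mul_X_pow' g' hdeg]
    exact (Finset.sum_range fun j => C (g'.coeff j) * X ^ j).symm
  obtain ⟨F, hF, hF'⟩ := exists_open r m c γ T N
    (Fin.cons c1 (fun j : Fin r => g'.coeff j) : Fin (r + 1) → K) (by
    rw [hev, jetIdeal, hsum]
    unfold cIdeal at h3
    rw [rootPoly_const] at h3
    exact h3)
  exact ⟨F, hF, fun c0 a hP => by rw [← hev]; exact hF' _ hP⟩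

/-- The dimension formula for a collision. -/
def JetDim (r m : ℕ) (c : K) (a : Fin r → K) (d : ℕ) : Prop :=
  Module.finrank K
    ↥(MvPolynomial.homogeneousSubmodule (Fin 3) K d ⊓
      (Submodule.restrictScalars K (jetIdeal m c a)).comap (deh K).toLinearMap)
  = Nat.choose (d + 2) 2 - r * Nat.choose (m + 1) 2

theorem jet_full {r m : ℕ} {c : K} {a : Fin r → K} {e : ℕ}
    (h : RkI (jetIdeal m c a) (Tset e) (Tfin e).card) (d : ℕ) (hd : d ≤ e) :
    JetDim r m c a d := by
  rw [← vIdeal_jet] at h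
  have h5 := finrank_full h d hd
  rw [vIdeal_jet, Fintype.sum_unique, card_EE_eq'] at h5
  unfold JetDim
  rw [← h5]
  exact finrank_forms _ _ fun F _ => Iff.rfl

theorem jet_indep {r m : ℕ} {c : K} {a : Fin r → K} {f : ℕ}
    (h : RkI (jetIdeal m c a) (Tset f) (r * (m + 1).choose 2)) (d : ℕ) (hd : f ≤ d) :
    JetDim r m c a d := by
  rw [← vIdeal_jet, ← card_EE_eq'] at h
  have h6 : (EE r m).card = ∑ _u : Unit, (EE r ((fun _ => m) _u)).card := by
    rw [Fintype.sum_unique]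
  rw [h6] at h
  have h5 := finrank_indep h d hd
  rw [← h6, card_EE_eq', vIdeal_jet] at h5
  unfold JetDim
  rw [← h5]
  exact finrank_forms _ _ fun F _ => Iff.rfl

/-- All degrees but three, for general collisions. -/
theorem crit_collision [Infinite K] {r m : ℕ} (hr : 100 ≤ r) (hm : 1 ≤ m)
    (h : 256 * m ^ 2 ≤ r ^ 3 ∨ (r % 4 ≤ 1 ∧ 100 * m ≤ r ^ 2))
    (hK : ∀ k : ℕ, 0 < k → k ≤ r * (m + 2) → (k : K) ≠ 0) :
    ∃ F : MvPolynomial (Fin (r + 1)) K, F ≠ 0 ∧
      ∀ (c : K) (a : Fin r → K), MvPolynomial.eval (Fin.cons c a : Fin (r + 1) → K) F ≠ 0 →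
        ∀ d : ℕ, 3 ≤ |2 * (d : ℝ) + 3 - Real.sqrt r - 2 * (Real.sqrt r * m)| →
          JetDim r m c a d := by
  have key : ∀ d : ℕ, 3 ≤ |2 * (d : ℝ) + 3 - Real.sqrt r - 2 * (Real.sqrt r * m)| →
      3 ≤ |2 * (d : ℝ) + 3 - Real.sqrt r -
        2 * (∑ _a : Fin r, (((fun _ : Fin r => m) _a : ℕ) : ℝ)) / Real.sqrt r| := by
    intro d hd
    have h1 : (2 * ∑ _a : Fin r, (((fun _ : Fin r => m) _a : ℕ) : ℝ)) / Real.sqrt r
        = 2 * (Real.sqrt r * m) := by
      rw [Finset.sum_const, Finset.card_univ, Fintype.card_fin, nsmul_eq_mul]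
      have h2 : (0 : ℝ) < Real.sqrt r := Real.sqrt_pos.2 (by
        have : (100 : ℝ) ≤ r := by exact_mod_cast hr
        linarith)
      have h3 : Real.sqrt r * Real.sqrt r = r := Real.mul_self_sqrt (Nat.cast_nonneg r)
      rw [div_eq_iff h2.ne']
      linear_combination (2 * (m : ℝ)) * (-1 : ℝ) * h3
    rw [h1]
    exact hd
  have hx0 : (fun _ : Fin r => (0 : K)) ∈ {x : Fin r → K | ∃ c, x = fun _ => c} := ⟨0, rfl⟩
  obtain ⟨e, f, h1, h2, h3⟩ : ∃ e f : ℕ,
      RkS (wFam {x : Fin r → K | ∃ c, x = fun _ => c} fun _ => m) (Tset e) (Tfin e).card ∧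
      RkS (wFam {x : Fin r → K | ∃ c, x = fun _ => c} fun _ => m) (Tset f)
        (∑ _a : Fin r, (m + 1).choose 2) ∧
      ∀ d : ℕ, 3 ≤ |2 * (d : ℝ) + 3 - Real.sqrt r - 2 * (Real.sqrt r * m)| → d ≤ e ∨ f ≤ d := by
    rcases Nat.lt_or_ge 1 m with h1 | h1
    · obtain ⟨e, f, h2, h3, h4⟩ := crit_ranks (K := K) (n := r) (m := m - 1) (w := fun _ => m) hr
        (by omega) hx0 (affInv_const r) (fun a => Or.inr (by omega)) (by
          have : m - 1 + 1 = m := by omega
          rw [this]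
          exact h) (fun k hk hk' => hK k hk (hk'.trans (Nat.mul_le_mul_left _ (by omega))))
      exact ⟨e, f, h2, h3, fun d hd => h4 d (key d hd)⟩
    · obtain ⟨e, f, h2, h3, h4⟩ := crit_ranks (K := K) (n := r) (m := m) (w := fun _ => m) hr
        hm hx0 (affInv_const r) (fun a => Or.inl rfl) (by
          left
          have : m = 1 := by omega
          subst this
          have : 100 ^ 3 ≤ r ^ 3 := Nat.pow_le_pow_left hr 3
          omega) (fun k hk hk' => hK k hk (hk'.trans (Nat.mul_le_mul_left _ (by omega))))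
      exact ⟨e, f, h2, h3, fun d hd => h4 d (key d hd)⟩
  obtain ⟨F1, hF1, hF1'⟩ := hopC (by omega) h1
  obtain ⟨F2, hF2, hF2'⟩ := hopC (by omega) h2
  refine ⟨F1 * F2, mul_ne_zero hF1 hF2, fun c a hP d hd => ?_⟩
  rw [map_mul] at hP
  have h5 := hF1' _ _ (left_ne_zero_of_mul hP)
  have h6 := hF2' _ _ (right_ne_zero_of_mul hP)
  rw [Finset.sum_const, Finset.card_univ, Fintype.card_fin, smul_eq_mul] at h6
  rcases h3 d hd with h7 | h7
  · exact jet_full h5 d h7
  · exact jet_indep h6 d h7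

/-- All multiplicities, outside a thin wedge, for general collisions. -/
theorem wedge_collision [Infinite K] {k r δ m : ℕ} {σ : ℝ} (hr : 16 ≤ r)
    (hD : WedgeData k r δ σ) (hm : 1 ≤ m) (hK : ∀ q : ℕ, 0 < q → q ≤ r ^ 3 * m → (q : K) ≠ 0) :
    ∃ F : MvPolynomial (Fin (r + 1)) K, F ≠ 0 ∧
      ∀ (c : K) (a : Fin r → K), MvPolynomial.eval (Fin.cons c a : Fin (r + 1) → K) F ≠ 0 →
        ∀ d : ℕ, 0 < d →
          ((d : ℝ) ≤ (1 - 1 / (r : ℝ) ^ k) * (Real.sqrt r * m) ∨
            (1 + 1 / (r : ℝ) ^ k) * (Real.sqrt r * m) + Real.sqrt r ≤ d) →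
          JetDim r m c a d := by
  classical
  have hx0 : (fun _ : Fin r => (0 : K)) ∈ {x : Fin r → K | ∃ c, x = fun _ => c} := ⟨0, rfl⟩
  have hrR : (16 : ℝ) ≤ r := by exact_mod_cast hr
  have hr0 : (0 : ℝ) < r := by linarith
  obtain ⟨s, hs⟩ : ∃ s, s = Real.sqrt r := ⟨_, rfl⟩
  have hss : s * s = r := by rw [hs]; exact Real.mul_self_sqrt hr0.le
  have hs4 : 4 ≤ s := by rw [hs]; exact Real.le_sqrt_of_sq_le (by norm_num; linarith)
  obtain ⟨ε, hε⟩ : ∃ ε : ℝ, ε = 1 / (r : ℝ) ^ k := ⟨_, rfl⟩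
  have hε0 : 0 < ε := by rw [hε]; positivity
  have hrk : 1 ≤ (r : ℝ) ^ k := one_le_pow₀ (by linarith)
  have hε1 : ε ≤ 1 := by
    rw [hε, div_le_one (by positivity)]
    exact hrk
  have hmR : (1 : ℝ) ≤ m := by exact_mod_cast hm
  have hup := hD.up
  have hdown := hD.down
  rw [← hs, ← hε] at hup hdown ⊢
  have hsum : ∑ _a : Fin r, (((fun _ : Fin r => m) _a : ℕ) : ℝ) = r * m := by
    rw [Finset.sum_const, Finset.card_univ, Fintype.card_fin, nsmul_eq_mul]
  have hr3 : (r : ℝ) ^ 3 = s ^ 6 := by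
    rw [← hss]
    ring
  -- the first part
  have part1 : ∃ F : MvPolynomial (Fin (r + 1)) K, F ≠ 0 ∧
      ∀ (c : K) (a : Fin r → K), MvPolynomial.eval (Fin.cons c a : Fin (r + 1) → K) F ≠ 0 →
        ∀ d : ℕ, 0 < d → (d : ℝ) ≤ (1 - ε) * (s * m) → JetDim r m c a d := by
    obtain ⟨e, he⟩ : ∃ e, e = ⌊(1 - ε) * (s * m)⌋₊ := ⟨_, rfl⟩
    have hde : ∀ d : ℕ, 0 < d → (d : ℝ) ≤ (1 - ε) * (s * m) → d ≤ e := by
      intro d hd h
      rw [he]
      exact Nat.le_floor h
    rcases Nat.eq_zero_or_pos e with h0 | h0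
    · refine ⟨1, one_ne_zero, fun c a _ d hd h => ?_⟩
      have := hde d hd h
      omega
    · have hpos : 0 ≤ (1 - ε) * (s * m) := by
        apply mul_nonneg (by linarith)
        positivity
      have h1 : (e : ℝ) ≤ (1 - ε) * (s * m) := by
        rw [he]
        exact Nat.floor_le hpos
      have hes : (e : ℝ) ≤ s * m := by
        have : (1 - ε) * (s * m) ≤ 1 * (s * m) :=
          mul_le_mul_of_nonneg_right (by linarith) (by positivity)
        linarith
      have h2 := hup (r * m) e (by positivity) (Nat.cast_nonneg _) (by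
        calc s * e ≤ s * ((1 - ε) * (s * m)) := mul_le_mul_of_nonneg_left h1 (by linarith)
          _ = (1 - ε) * (r * m) := by rw [← hss]; ring)
      obtain ⟨k', hk', h3⟩ := wedge_upper (K := K) hx0 (affInv_const r) (w := fun _ => m) hD.four
        hD.sq hD.reach hD.low hD.high h0 (by rw [hsum]; exact h2) (fun q hq hq' => hK q hq
          (hq'.trans (by
            have h4 : ((r ^ 2 * e : ℕ) : ℝ) ≤ ((r ^ 3 * m : ℕ) : ℝ) := by
              push_cast
              have h5 : (r : ℝ) ^ 2 * e ≤ r ^ 2 * (s * m) :=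
                mul_le_mul_of_nonneg_left hes (by positivity)
              have h6 : (r : ℝ) ^ 2 * (s * m) ≤ r ^ 2 * (r * m) := by
                apply mul_le_mul_of_nonneg_left _ (by positivity)
                apply mul_le_mul_of_nonneg_right _ (by linarith)
                rw [← hss]
                nlinarith
              calc (r : ℝ) ^ 2 * e ≤ r ^ 2 * (r * m) := h5.trans h6
                _ = r ^ 3 * m := by ring
            exact_mod_cast h4)))
      obtain ⟨F, hF, hF'⟩ := hopC (by omega) h3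
      refine ⟨F, hF, fun c a hP d hd h => ?_⟩
      have h4 := NoForm.of_rk (hF' c a hP)
      have h5 : NoForm (jetIdeal m c a) e := by
        refine NoForm.of_pow (k := k') (fun f hf => ?_) h4
        unfold jetIdeal at hf ⊢
        exact ideal_pow_mem hf k'
      exact jet_full h5.rk d (hde d hd h)
  -- the second part
  have part2 : ∃ F : MvPolynomial (Fin (r + 1)) K, F ≠ 0 ∧
      ∀ (c : K) (a : Fin r → K), MvPolynomial.eval (Fin.cons c a : Fin (r + 1) → K) F ≠ 0 →
        ∀ d : ℕ, (1 + ε) * (s * m) + s ≤ d → JetDim r m c a d := by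
    obtain ⟨f, hf⟩ : ∃ f, f = ⌈(1 + ε) * (s * m) + s⌉₊ := ⟨_, rfl⟩
    have hf1 : (1 + ε) * (s * m) + s ≤ f := by
      rw [hf]
      exact Nat.le_ceil _
    have hf2 : (f : ℝ) < (1 + ε) * (s * m) + s + 1 := by
      rw [hf]
      exact Nat.ceil_lt_add_one (by positivity)
    have h3 := wedge_lower (K := K) (M := m) hr hx0 (affInv_const r) hD.four hD.sq hD.reach
      hD.high (by rw [← hs]; exact hdown _ _ (by linarith) hf1) (by
        rw [← hs]
        have : 0 ≤ ε * (s * m) := by positivity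
        nlinarith) (fun q hq hq' => hK q hq (hq'.trans (by
          have h4 : ((r * (f + 1) : ℕ) : ℝ) ≤ ((r ^ 3 * m : ℕ) : ℝ) := by
            push_cast
            have h5 : (f : ℝ) + 1 ≤ 2 * (s * m) + s + 2 := by
              have : (1 + ε) * (s * m) ≤ 2 * (s * m) :=
                mul_le_mul_of_nonneg_right (by linarith) (by positivity)
              linarith
            have h6 : 2 * (s * m) + s + 2 ≤ s ^ 4 * m := by
              have h7 : s + 2 ≤ (s + 2) * m := le_mul_of_one_le_right (by linarith) hmR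
              have h8 : 3 * s + 2 ≤ s ^ 4 := by nlinarith [sq_nonneg (s ^ 2 - 16)]
              have h9 : (3 * s + 2) * m ≤ s ^ 4 * m := mul_le_mul_of_nonneg_right h8 (by linarith)
              nlinarith
            calc (r : ℝ) * (f + 1) ≤ r * (s ^ 4 * m) :=
                  mul_le_mul_of_nonneg_left (h5.trans h6) hr0.le
              _ = r ^ 3 * m := by rw [← hss]; ring
          exact_mod_cast h4)))
    rw [Finset.sum_const, Finset.card_univ, Fintype.card_fin, smul_eq_mul] at h3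
    obtain ⟨F, hF, hF'⟩ := hopC (by omega) h3
    refine ⟨F, hF, fun c a hP d h => ?_⟩
    refine jet_indep (hF' c a hP) d ?_
    rw [hf, Nat.ceil_le]
    exact h
  obtain ⟨F1, hF1, hF1'⟩ := part1
  obtain ⟨F2, hF2, hF2'⟩ := part2
  refine ⟨F1 * F2, mul_ne_zero hF1 hF2, fun c a hP d hd h => ?_⟩
  rw [map_mul] at hP
  rcases h with h | h
  · exact hF1' _ _ (left_ne_zero_of_mul hP) d hd h
  · exact hF2' _ _ (right_ne_zero_of_mul hP) d h

end Pool.Agent.H932R3
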