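import Mathlib
import Pool.Agent.H932R3.Proj
import Pool.Agent.H932R3.Close

set_option autoImplicit false

/-!
# Nagata type theorems
-/

namespace Pool.Agent.H932R3

open Polynomial Pool.Agent.H932R2

variable {K : Type*} [Field K]

theorem NoForm.prod {n d : ℕ} [NeZero n] {P : Fin n → Fin 2 → K} {w : Fin n → ℕ}
    (h : NoForm (ptJ P fun _ => ∑ i, w i) (n * d)) :
    ∃ P0 : Fin n → Fin 2 → K, NoForm (ptJ P0 w) d := by
  classical
  by_contra hcon
  push Not at hcon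
  have h1 : ∀ τ : Fin n, ∃ F ∈ MvPolynomial.homogeneousSubmodule (Fin 3) K d,
      deh K F ∈ ptJ (fun i => P (i + τ)) w ∧ F ≠ 0 := by
    intro τ
    have h2 := hcon (fun i => P (i + τ))
    unfold NoForm at h2
    push Not at h2
    exact h2
  choose F hF1 hF2 hF3 using h1
  have h2 := h (∏ τ, F τ) ?_ ?_
  · exact absurd h2 (Finset.prod_ne_zero_iff.2 fun τ _ => hF3 τ)
  · rw [MvPolynomial.mem_homogeneousSubmodule]
    have h3 := MvPolynomial.IsHomogeneous.prod (Finset.univ : Finset (Fin n)) F (fun _ => d)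
      (fun τ _ => hF1 τ)
    simpa using h3
  · unfold ptJ vIdeal
    rw [Ideal.mem_iInf]
    intro j
    rw [map_prod]
    have h3 : ∀ τ, deh K (F τ) ∈ cIdeal (fun _ : Fin 1 => P j 0) (C (P j 1)) (w (j - τ)) := by
      intro τ
      have h4 := hF2 τ
      unfold ptJ vIdeal at h4
      rw [Ideal.mem_iInf] at h4
      have h5 := h4 (j - τ)
      simpa using h5
    have h4 : ∏ τ, deh K (F τ) ∈ cIdeal (fun _ : Fin 1 => P j 0) (C (P j 1))
        (∑ τ, w (j - τ)) := by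
      have key : ∀ s : Finset (Fin n), ∏ τ ∈ s, deh K (F τ) ∈
          cIdeal (fun _ : Fin 1 => P j 0) (C (P j 1)) (∑ τ ∈ s, w (j - τ)) := by
        intro s
        induction s using Finset.induction_on with
        | empty =>
          rw [Finset.prod_empty, Finset.sum_empty]
          unfold cIdeal
          have : ∀ I : Ideal K[X][X], I ^ 0 = (⊤ : Ideal K[X][X]) := by
            intro I
            simp
          rw [this]
          exact Submodule.mem_top
        | insert τ s hτ ih =>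
          rw [Finset.prod_insert hτ, Finset.sum_insert hτ]
          have h5 := h3 τ
          unfold cIdeal at h5 ih ⊢
          rw [Ideal.IsTwoSided.pow_add]
          exact Ideal.mul_mem_mul h5 ih
      exact key Finset.univ
    have h5 : ∑ τ, w (j - τ) = ∑ i, w i :=
      Equiv.sum_comp (Equiv.subLeft j) w
    rw [h5] at h4
    exact h4

/-- The numerical condition for the emptiness of nonuniform systems. -/
theorem exists_cond [CharZero K] [Infinite K] {n d : ℕ} (hd : 0 < d) (w : Fin n → ℕ)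
    (hn : 0 < n) (h : Empt n (∑ i, w i) (n * d)) :
    ∃ G : MvPolynomial (Fin n × Fin 3) K, G ≠ 0 ∧ ∀ v : Fin n → Fin 3 → K,
      MvPolynomial.eval (fun q : Fin n × Fin 3 => v q.1 q.2) G ≠ 0 →
      ∀ F : MvPolynomial (Fin 3) K, F.IsHomogeneous d →
        (∀ i : Fin n, ∀ s : Fin 3 →₀ ℕ, (∑ j, s j) < w i →
          MvPolynomial.coeff s (MvPolynomial.aeval
            (fun j : Fin 3 => (MvPolynomial.X j + MvPolynomial.C (v i j) :
              MvPolynomial (Fin 3) K)) F) = 0) → F = 0 := by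
  have : NeZero n := ⟨hn.ne'⟩
  obtain ⟨F0, hF0, hF0'⟩ := points_empty (K := K) (fun q hq _ => by exact_mod_cast hq.ne')
    (Nat.mul_pos hn hd) h
  obtain ⟨x, hx⟩ : ∃ x : Fin n × Fin 2 → K, MvPolynomial.eval x F0 ≠ 0 := by
    by_contra hcon
    push Not at hcon
    exact hF0 (MvPolynomial.funext fun x => by rw [hcon x, map_zero])
  obtain ⟨P0, hP0⟩ := NoForm.prod (hF0' (fun i j => x (i, j)) hx)
  obtain ⟨F1, hF1, hF1'⟩ := points_open w P0 hP0
  obtain ⟨G, hG, hG'⟩ := exists_homogenise F1 hF1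
  refine ⟨G, hG, fun v hv F hF hF' => ?_⟩
  obtain ⟨h1, h2⟩ := hG' v hv
  have h3 := hF1' (fun i j => v i (Fin.castSucc j) / v i 2) h2
  refine h3 F hF ?_
  unfold ptJ vIdeal
  rw [Ideal.mem_iInf]
  intro i
  exact mem_of_taylor (h1 i) hF (hF' i)

/-- Countably many conditions at once. -/
theorem exists_conds [CharZero K] [Infinite K] {n : ℕ} (hn : 0 < n) :
    ∃ G : ℕ → MvPolynomial (Fin n × Fin 3) K, (∀ j, G j ≠ 0) ∧ ∀ v : Fin n → Fin 3 → K,
      (∀ j, MvPolynomial.eval (fun q : Fin n × Fin 3 => v q.1 q.2) (G j) ≠ 0) →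
      ∀ (d : ℕ) (w : Fin n → ℕ), 0 < d → Empt n (∑ i, w i) (n * d) →
      ∀ F : MvPolynomial (Fin 3) K, F.IsHomogeneous d →
        (∀ i : Fin n, ∀ s : Fin 3 →₀ ℕ, (∑ j, s j) < w i →
          MvPolynomial.coeff s (MvPolynomial.aeval
            (fun j : Fin 3 => (MvPolynomial.X j + MvPolynomial.C (v i j) :
              MvPolynomial (Fin 3) K)) F) = 0) → F = 0 := by
  classical
  obtain ⟨e, he⟩ := exists_surjective_nat (ℕ × (Fin n → ℕ))
  have h1 : ∀ j : ℕ, ∃ G : MvPolynomial (Fin n × Fin 3) K, G ≠ 0 ∧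
      ∀ v : Fin n → Fin 3 → K,
      MvPolynomial.eval (fun q : Fin n × Fin 3 => v q.1 q.2) G ≠ 0 →
      0 < (e j).1 → Empt n (∑ i, (e j).2 i) (n * (e j).1) →
      ∀ F : MvPolynomial (Fin 3) K, F.IsHomogeneous (e j).1 →
        (∀ i : Fin n, ∀ s : Fin 3 →₀ ℕ, (∑ j, s j) < (e j).2 i →
          MvPolynomial.coeff s (MvPolynomial.aeval
            (fun j : Fin 3 => (MvPolynomial.X j + MvPolynomial.C (v i j) :
              MvPolynomial (Fin 3) K)) F) = 0) → F = 0 := by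
    intro j
    by_cases h : 0 < (e j).1 ∧ Empt n (∑ i, (e j).2 i) (n * (e j).1)
    · obtain ⟨G, hG, hG'⟩ := exists_cond (K := K) h.1 (e j).2 hn h.2
      exact ⟨G, hG, fun v hv _ _ => hG' v hv⟩
    · exact ⟨1, one_ne_zero, fun v _ h1 h2 => absurd ⟨h1, h2⟩ h⟩
  choose G hG hG' using h1
  refine ⟨G, hG, fun v hv d w hd hw F hF hF' => ?_⟩
  obtain ⟨j, hj⟩ := he (d, w)
  have h2 := hG' j v (hv j)
  rw [hj] at h2
  exact h2 hd hw F hF hF'

/-! ### Numerical conditions -/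

theorem isSquare_of_mul_sq {n a b : ℕ} (ha : 0 < a) (h : n * a ^ 2 = b ^ 2) :
    ∃ c, n = c * c ∧ b = c * a := by
  have h1 : a ^ 2 ∣ b ^ 2 := ⟨n, by rw [← h, mul_comm]⟩
  rw [Nat.pow_dvd_pow_iff (by norm_num)] at h1
  obtain ⟨c, rfl⟩ := h1
  refine ⟨c, ?_, by ring⟩
  have h2 : n * a ^ 2 = (c * c) * a ^ 2 := by rw [h]; ring
  exact Nat.eq_of_mul_eq_mul_right (by positivity) h2

theorem Empt.of_square {c m d : ℕ} (hc : 4 ≤ c) (h : d ≤ m * c) : Empt (c * c) m d := by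
  refine ⟨c, (c : ℝ) ^ 2, hc, le_rfl, Reach.base, ?_, ?_⟩
  · rw [Real.sqrt_sq (Nat.cast_nonneg c)]
    exact_mod_cast h
  · rw [Real.sqrt_sq (Nat.cast_nonneg c)]
    have : d * c ≤ m * (c * c) := by
      calc d * c ≤ m * c * c := Nat.mul_le_mul_right c h
        _ = m * (c * c) := by ring
    exact_mod_cast this

/-- Emptiness from a close reachable slope. -/
theorem Empt.of_close {r m d δ : ℕ} {σ : ℝ} (hδ : 4 ≤ δ) (hδr : δ * δ ≤ r) (hσ : Reach δ σ) (h0 : 0 < (r : ℝ) - σ)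
    (h : (d : ℝ) ^ 2 ≤ m ^ 2 * σ) : Empt r m d := by
  have hσ0 : 0 < σ := hσ.pos (by omega)
  have hs0 := Real.sqrt_pos.2 hσ0
  have hss : Real.sqrt σ * Real.sqrt σ = σ := Real.mul_self_sqrt hσ0.le
  have h1 : (d : ℝ) ≤ m * Real.sqrt σ := by
    refine le_of_sq_le_sq ?_ (by positivity)
    rw [mul_pow, pow_two (Real.sqrt σ), hss]
    exact h
  refine ⟨δ, σ, hδ, hδr, hσ, h1, ?_⟩
  calc (d : ℝ) * Real.sqrt σ ≤ m * Real.sqrt σ * Real.sqrt σ :=
        mul_le_mul_of_nonneg_right h1 hs0.le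
    _ = m * σ := by rw [mul_assoc, hss]
    _ ≤ m * r := mul_le_mul_of_nonneg_left (by linarith) (Nat.cast_nonneg m)

/-- Nagata's inequality for multiplicities polynomial in the number of points, and up to a
superpolynomially small error in general. -/
theorem exists_empt (k : ℕ) : ∃ N : ℕ, 16 ≤ N ∧ ∀ r : ℕ, N ≤ r → ∀ m d : ℕ, 0 < d →
    ((d ^ 2 ≤ r * m ^ 2 ∧ m ≤ r ^ k) ∨
      (1 + 1 / (r : ℝ) ^ k) * d ≤ m * Real.sqrt r) → Empt r m d := by
  obtain ⟨N, hN⟩ := exists_close (2 * k + 1)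
  refine ⟨max N 16, le_max_right _ _, fun r hr m d hd h => ?_⟩
  have hr1 : N ≤ r := (le_max_left _ _).trans hr
  have hr2 : 16 ≤ r := (le_max_right _ _).trans hr
  have hrR : (16 : ℝ) ≤ r := by exact_mod_cast hr2
  obtain ⟨δ, σ, hδ, hδr, hσ, h0, h1⟩ := hN r hr1
  have hσ0 : 0 < σ := hσ.pos (by omega)
  have hrk : (0 : ℝ) < (r : ℝ) ^ k := by positivity
  have hrk1 : (1 : ℝ) ≤ (r : ℝ) ^ k := one_le_pow₀ (by linarith)
  have hpow : (r : ℝ) ^ (2 * k + 1) = ((r : ℝ) ^ k) ^ 2 * r := by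
    rw [← pow_mul, mul_comm k 2, pow_succ]
  rcases h with ⟨h2, h3⟩ | h2
  · rcases Nat.lt_or_ge (d ^ 2) (r * m ^ 2) with h4 | h4
    · refine Empt.of_close hδ hδr hσ h0 ?_
      have h5 : (d : ℝ) ^ 2 + 1 ≤ r * (m : ℝ) ^ 2 := by exact_mod_cast h4
      have h6 : (m : ℝ) ^ 2 * (r - σ) ≤ 1 := by
        have h7 : (m : ℝ) ≤ (r : ℝ) ^ k := by exact_mod_cast h3
        have h8 : (m : ℝ) ^ 2 ≤ ((r : ℝ) ^ k) ^ 2 :=
          pow_le_pow_left₀ (Nat.cast_nonneg m) h7 2
        calc (m : ℝ) ^ 2 * (r - σ) ≤ ((r : ℝ) ^ k) ^ 2 * (1 / (r : ℝ) ^ (2 * k + 1)) :=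
              mul_le_mul h8 h1 h0.le (by positivity)
          _ = 1 / r := by
              rw [hpow]
              field_simp
          _ ≤ 1 := by
              rw [div_le_one (by linarith)]
              linarith
      nlinarith
    · have h5 : r * m ^ 2 = d ^ 2 := le_antisymm h4 h2
      have hm : 0 < m := by
        rcases Nat.eq_zero_or_pos m with rfl | hm
        · have : d ^ 2 = 0 := by rw [← h5]; ring
          have := pow_pos hd 2
          omega
        · exact hm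
      obtain ⟨c, rfl, hc⟩ := isSquare_of_mul_sq hm h5
      refine Empt.of_square ?_ (by rw [hc, mul_comm])
      by_contra hc4
      have : c * c ≤ 3 * 3 := Nat.mul_le_mul (by omega) (by omega)
      omega
  · refine Empt.of_close hδ hδr hσ h0 ?_
    have hsr : Real.sqrt r * Real.sqrt r = r := Real.mul_self_sqrt (by linarith)
    obtain ⟨ε, hε⟩ : ∃ ε, ε = 1 / (r : ℝ) ^ k := ⟨_, rfl⟩
    have hε0 : 0 < ε := by rw [hε]; positivity
    have hε1 : ε ≤ 1 := by
      rw [hε, div_le_one hrk]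
      exact hrk1
    rw [← hε] at h2
    have h3 : ((1 + ε) * d) ^ 2 ≤ m ^ 2 * r := by
      have h4 := pow_le_pow_left₀ (by positivity) h2 2
      rw [mul_pow (m : ℝ), pow_two (Real.sqrt r), hsr] at h4
      exact h4
    have h4 : (r : ℝ) - σ ≤ ε := by
      refine h1.trans ?_
      rw [hε, hpow]
      refine div_le_div_of_nonneg_left (by norm_num) hrk ?_
      nlinarith
    have h5 : (r : ℝ) ≤ (1 + ε) ^ 2 * σ := by
      have h5a : (1 + ε) ^ 2 * (r - ε) ≤ (1 + ε) ^ 2 * σ :=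
        mul_le_mul_of_nonneg_left (by linarith) (by positivity)
      have h5b : 0 ≤ ε * (2 * r - 1 - 2 * ε + ε * r - ε ^ 2) := by
        refine mul_nonneg hε0.le ?_
        nlinarith [mul_nonneg hε0.le (show (0 : ℝ) ≤ r by linarith), mul_nonneg hε0.le (show
          (0 : ℝ) ≤ 1 - ε by linarith)]
      nlinarith
    have h6 : ((1 + ε) * d) ^ 2 ≤ (1 + ε) ^ 2 * (m ^ 2 * σ) := by
      calc ((1 + ε) * d) ^ 2 ≤ m ^ 2 * r := h3
        _ ≤ m ^ 2 * ((1 + ε) ^ 2 * σ) := mul_le_mul_of_nonneg_left h5 (by positivity)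
        _ = (1 + ε) ^ 2 * (m ^ 2 * σ) := by ring
    rw [mul_pow] at h6
    exact le_of_mul_le_mul_left h6 (by positivity)

end Pool.Agent.H932R3
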