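import Mathlib
import Pool.Agent.H932R3.Empty
import Pool.Agent.H932R3.Numeric

set_option autoImplicit false

/-!
# An explicit range of multiplicities
-/

namespace Pool.Agent.H932R3

open Polynomial Pool.Agent.H932R2

theorem Reach.ge {δ : ℕ} (hδ : 0 < δ) {σ : ℝ} (h : Reach δ σ) : (δ : ℝ) ^ 2 ≤ σ := by
  induction h with
  | base => exact le_refl _
  | step σ ρ hσ hρ ih =>
    have h0 : 0 < σ := hσ.pos hδ
    refine ih.trans ?_
    rw [le_div_iff₀ h0]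
    nlinarith

/-- The numerical conditions needed in degree `k d` for multiplicity `k m`. -/
def Expl (r m d : ℕ) : Prop :=
  ∃ k δ : ℕ, ∃ σ : ℝ, 0 < k ∧ 4 ≤ δ ∧ δ * δ ≤ r ∧ Reach δ σ ∧
    δ * ((δ - 1) * (δ - 2)) ≤ 2 * (k * d) ∧ k * m ≤ m + (δ - 1) * (δ - 2) ∧
    2 * ((k * d : ℕ) : ℝ) + 3 - δ < 2 * ((k * m : ℕ) : ℝ) * Real.sqrt σ ∧
    (2 * ((k * d : ℕ) : ℝ) + 3 - δ) * Real.sqrt σ < 2 * ((k * m : ℕ) : ℝ) * r

theorem star {r δ : ℕ} {σ : ℝ} (hδ : 4 ≤ δ) (hδr : δ * δ ≤ r) (hσ : Reach δ σ) {m d : ℕ}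
    (hd : d ^ 2 ≤ r * m ^ 2) (hm : (m : ℝ) * |σ - r| < 7 / 8 * δ * (δ - 3)) :
    2 * (d : ℝ) + 3 - δ < 2 * m * Real.sqrt σ ∧ (2 * (d : ℝ) + 3 - δ) * Real.sqrt σ < 2 * m * r := by
  have hδR : (4 : ℝ) ≤ δ := by exact_mod_cast hδ
  have hσ0 : 0 < σ := hσ.pos (by omega)
  have hσ1 := hσ.ge (by omega)
  have hr1 : (δ : ℝ) * δ ≤ r := by exact_mod_cast hδr
  have hr0 : (0 : ℝ) < r := by nlinarith
  obtain ⟨s, hs⟩ : ∃ s, s = Real.sqrt σ := ⟨_, rfl⟩
  obtain ⟨t, ht⟩ : ∃ t, t = Real.sqrt r := ⟨_, rfl⟩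
  have hss : s * s = σ := by rw [hs]; exact Real.mul_self_sqrt hσ0.le
  have htt : t * t = r := by rw [ht]; exact Real.mul_self_sqrt hr0.le
  have hs1 : (δ : ℝ) ≤ s := by
    rw [hs]
    exact Real.le_sqrt_of_sq_le hσ1
  have ht1 : (δ : ℝ) ≤ t := by
    rw [ht]
    exact Real.le_sqrt_of_sq_le (by rw [pow_two]; exact hr1)
  have hm0 : (0 : ℝ) ≤ m := Nat.cast_nonneg m
  have ht0 : 0 < t := by linarith
  have hdt : (d : ℝ) ≤ m * t := by
    refine le_of_sq_le_sq ?_ (by positivity)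
    have h1 : (d : ℝ) ^ 2 ≤ r * (m : ℝ) ^ 2 := by exact_mod_cast hd
    calc (d : ℝ) ^ 2 ≤ r * (m : ℝ) ^ 2 := h1
      _ = (m * t) ^ 2 := by rw [← htt]; ring
  rw [← hs]
  have hs0 : 0 < s := by linarith
  have hgap : 2 * (m : ℝ) * |s - t| < δ - 3 := by
    have h1 : |σ - r| = |s - t| * (s + t) := by
      have h0 : σ - r = (s - t) * (s + t) := by
        rw [← hss, ← htt]
        ring
      rw [h0, abs_mul, abs_of_pos (show 0 < s + t by linarith)]
    rw [h1] at hm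
    have h2 : 2 * (m : ℝ) * |s - t| * δ ≤ m * (|s - t| * (s + t)) := by
      have h3 : 0 ≤ (m : ℝ) * |s - t| := by positivity
      nlinarith
    have h3 : 2 * (m : ℝ) * |s - t| * δ < (δ - 3) * δ := by nlinarith
    exact lt_of_mul_lt_mul_right h3 (by linarith)
  rcases le_total s t with h | h
  · rw [abs_of_nonpos (by linarith)] at hgap
    constructor
    · nlinarith
    · have h1 : 2 * (d : ℝ) + 3 - δ < 2 * m * t := by linarith
      have h2 : (2 * (d : ℝ) + 3 - δ) * s < 2 * m * t * s := mul_lt_mul_of_pos_right h1 hs0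
      have h3 : 2 * m * t * s ≤ 2 * m * t * t := mul_le_mul_of_nonneg_left h (by positivity)
      rw [← htt]
      linarith
  · rw [abs_of_nonneg (by linarith)] at hgap
    constructor
    · have h3 : 2 * (m : ℝ) * t ≤ 2 * m * s := mul_le_mul_of_nonneg_left h (by positivity)
      linarith
    · have h1 : 2 * (d : ℝ) + 3 - δ ≤ 2 * m * t - (δ - 3) := by linarith
      have h2 := mul_le_mul_of_nonneg_right h1 hs0.le
      have h3 : 2 * m * t * (s - t) ≤ s * (2 * m * (s - t)) := by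
        have : 0 ≤ 2 * (m : ℝ) * (s - t) := mul_nonneg (by positivity) (by linarith)
        nlinarith
      have h4 : s * (2 * m * (s - t)) < s * (δ - 3) := mul_lt_mul_of_pos_left hgap hs0
      rw [← htt]
      nlinarith

theorem expl_of_near {r δ : ℕ} {σ : ℝ} (h : Near r δ σ) {m : ℕ} (hm : 0 < m)
    (hm' : (r % 4 ≤ 1 ∧ 65536 * m ^ 2 ≤ r ^ 5) ∨ 80 * m ≤ r ^ 2) :
    Expl r m (Nat.sqrt (r * m ^ 2)) := by
  obtain ⟨d, hd⟩ : ∃ d, d = Nat.sqrt (r * m ^ 2) := ⟨_, rfl⟩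
  rw [← hd]
  have hd1 : d ^ 2 ≤ r * m ^ 2 := by
    rw [hd, pow_two]
    exact Nat.sqrt_le _
  have hd2 : δ * m ≤ d := by
    rw [hd]
    refine Nat.le_sqrt.2 ?_
    calc δ * m * (δ * m) = δ * δ * m ^ 2 := by ring
      _ ≤ r * m ^ 2 := Nat.mul_le_mul_right _ h.sq
  have hδ := h.four
  have hK : 0 < (δ - 1) * (δ - 2) := Nat.mul_pos (by omega) (by omega)
  obtain ⟨A, hA⟩ : ∃ A, A = (δ - 1) * (δ - 2) := ⟨_, rfl⟩
  have hAR : (A : ℝ) = ((δ : ℝ) - 1) * (δ - 2) := by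
    rw [hA]
    push_cast
    rw [Nat.cast_sub (by omega), Nat.cast_sub (by omega)]
    push_cast
    ring
  rcases Nat.lt_or_ge (2 * m) A with h1 | h1
  · -- a multiple is needed
    obtain ⟨k, hk1, hk2⟩ : ∃ k, A ≤ 2 * (k * m) ∧ k * m ≤ A := by
      refine ⟨A / (2 * m) + 1, ?_, ?_⟩
      · have h2 := Nat.div_add_mod A (2 * m)
        have h3 := Nat.mod_lt A (show 0 < 2 * m by omega)
        have e1 : 2 * ((A / (2 * m) + 1) * m) = 2 * m * (A / (2 * m)) + 2 * m := by ring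
        omega
      · have h2 := Nat.mul_div_le A (2 * m)
        have e1 : 2 * ((A / (2 * m) + 1) * m) = 2 * m * (A / (2 * m)) + 2 * m := by ring
        omega
    have hk0 : 0 < k := by
      rcases Nat.eq_zero_or_pos k with rfl | hk
      · omega
      · exact hk
    have hst := star (m := k * m) (d := k * d) hδ h.sq h.reach (by
      calc (k * d) ^ 2 = k ^ 2 * d ^ 2 := by ring
        _ ≤ k ^ 2 * (r * m ^ 2) := Nat.mul_le_mul_left _ hd1
        _ = r * (k * m) ^ 2 := by ring) (by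
      refine lt_of_le_of_lt ?_ h.two
      refine mul_le_mul_of_nonneg_right ?_ (abs_nonneg _)
      rw [← hAR]
      exact_mod_cast hk2)
    refine ⟨k, δ, σ, hk0, hδ, h.sq, h.reach, ?_, ?_, hst.1, hst.2⟩
    · rw [← hA]
      calc δ * A ≤ δ * (2 * (k * m)) := Nat.mul_le_mul_left _ hk1
        _ = 2 * (k * (δ * m)) := by ring
        _ ≤ 2 * (k * d) := Nat.mul_le_mul_left _ (Nat.mul_le_mul_left _ hd2)
    · rw [← hA]
      omega
  · have hst := star (m := m) (d := d) hδ h.sq h.reach hd1 (h.one m hm')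
    refine ⟨1, δ, σ, one_pos, hδ, h.sq, h.reach, ?_, ?_, ?_, ?_⟩
    · rw [← hA, one_mul]
      calc δ * A ≤ δ * (2 * m) := Nat.mul_le_mul_left _ h1
        _ = 2 * (δ * m) := by ring
        _ ≤ 2 * d := Nat.mul_le_mul_left _ hd2
    · omega
    · rw [one_mul, one_mul]
      exact hst.1
    · rw [one_mul, one_mul]
      exact hst.2

variable {K : Type*} [Field K]

theorem Expl.rk [Infinite K] {r m d : ℕ} (hK : ∀ q : ℕ, 0 < q → q ≤ r ^ 2 * (m + r) → (q : K) ≠ 0)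
    (hd : d ^ 2 ≤ r * m ^ 2)
    (h : Expl r m d) {𝒞 : Set (Fin r → K)}
    {x : Fin r → K} (hx : x ∈ 𝒞) (h𝒞 : AffInv 𝒞) :
    ∃ k, 0 < k ∧ RkS (wFam 𝒞 fun _ => k * m) (Tset (k * d)) (Tfin (k * d)).card := by
  obtain ⟨k, δ, σ, hk, h4, h5, hσ, h6, h7, h1, h2⟩ := h
  refine ⟨k, hk, ?_⟩
  refine nagata_rank (wFam_stable h𝒞 _) (r := r) (m := k * m) (δ := δ) (B := δ * (k * d))
      (by omega) (base_EE hx _) h6 le_rfl ?_ hσ h1 h2
  intro j hj hj'
  refine hK j hj (hj'.trans ?_)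
  have h8 : k * m ≤ m + r := by
    refine h7.trans (Nat.add_le_add_left ?_ m)
    exact (Nat.mul_le_mul (Nat.sub_le _ _) (Nat.sub_le _ _)).trans h5
  have hdm : d ≤ r * m := by
    refine (Nat.pow_le_pow_iff_left (by norm_num : 2 ≠ 0)).1 ?_
    refine hd.trans ?_
    rw [mul_pow]
    refine Nat.mul_le_mul_right _ ?_
    rw [pow_two]
    exact Nat.le_mul_self r
  have hδr : δ ≤ r := (Nat.le_mul_self δ).trans h5
  calc δ * (k * d) ≤ r * (k * (r * m)) :=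
        Nat.mul_le_mul hδr (Nat.mul_le_mul_left _ hdm)
    _ = r ^ 2 * (k * m) := by ring
    _ ≤ r ^ 2 * (m + r) := Nat.mul_le_mul_left _ h8

theorem collision_expl [Infinite K] {r m d : ℕ}
    (hK : ∀ q : ℕ, 0 < q → q ≤ r ^ 2 * (m + r) → (q : K) ≠ 0) (hr : 0 < r)
    (hd : d ^ 2 ≤ r * m ^ 2) (h : Expl r m d) :
    ∃ F : MvPolynomial (Fin (r + 1)) K, F ≠ 0 ∧
      ∀ (c : K) (a : Fin r → K), MvPolynomial.eval (Fin.cons c a : Fin (r + 1) → K) F ≠ 0 →
        NoForm (jetIdeal m c a) d := by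
  obtain ⟨k, hk, h1⟩ := h.rk (K := K) hK hd (𝒞 := {x : Fin r → K | ∃ c, x = fun _ => c})
    (x := fun _ => 0) ⟨0, rfl⟩ (affInv_const r)
  obtain ⟨F, hF, hF'⟩ := collision_rank hr h1
  refine ⟨F, hF, fun c a hP => NoForm.of_pow (fun f hf => ?_) (hF' c a hP)⟩
  unfold jetIdeal at hf ⊢
  exact ideal_pow_mem hf k

theorem points_expl [Infinite K] {n m d : ℕ}
    (hK : ∀ q : ℕ, 0 < q → q ≤ n ^ 2 * (m + n) → (q : K) ≠ 0)
    (hd : d ^ 2 ≤ n * m ^ 2) (h : Expl n m d) :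
    ∃ F : MvPolynomial (Fin n × Fin 2) K, F ≠ 0 ∧
      ∀ P : Fin n → Fin 2 → K, MvPolynomial.eval (fun ij : Fin n × Fin 2 => P ij.1 ij.2) F ≠ 0 →
        NoForm (ptJ P fun _ => m) d := by
  have hx0 : (fun i : Fin n => Infinite.natEmbedding K i) ∈
      {x : Fin n → K | Function.Injective x} := by
    intro a b hab
    exact Fin.ext ((Infinite.natEmbedding K).injective hab)
  obtain ⟨k, hk, h1⟩ := h.rk (K := K) hK hd hx0 (affInv_inj n)
  obtain ⟨P0, hP0⟩ := points_rank h1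
  obtain ⟨F, hF, hF'⟩ := points_open _ P0 hP0
  refine ⟨F, hF, fun P hP => NoForm.of_pow (fun f hf => ?_) (hF' P hP)⟩
  unfold ptJ vIdeal at hf ⊢
  rw [Ideal.mem_iInf] at hf ⊢
  intro i
  have h2 := hf i
  unfold cIdeal at h2 ⊢
  exact ideal_pow_mem h2 k

/-- Nagata's degree lies below the critical degree. -/
theorem count_le {r m d : ℕ} (hr : 10 ≤ r) (hm : 0 < m) (hd : d ^ 2 ≤ r * m ^ 2) :
    (d + 1) * (d + 2) ≤ r * m * (m + 1) := by
  by_cases h : 4 ≤ m * (r - 9)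
  · have h1 : 3 * d + 2 ≤ r * m := by
      obtain ⟨u, rfl⟩ : ∃ u, r = u + 9 := ⟨r - 9, by omega⟩
      have h' : 4 ≤ m * u := by simpa using h
      by_contra hcon
      have h2 : (u + 9) * m < 3 * d + 2 := by omega
      have h3 : (u + 9) * m * ((u + 9) * m) + 4 ≤ 9 * d ^ 2 + 4 * ((u + 9) * m) := by
        have h4 : (u + 9) * m ≤ 3 * d + 1 := by omega
        nlinarith
      nlinarith
    nlinarith
  · have hr12 : r ≤ 12 := by
      by_contra hcon
      apply h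
      calc 4 ≤ r - 9 := by omega
        _ ≤ m * (r - 9) := Nat.le_mul_of_pos_left _ hm
    have hm3 : m ≤ 3 := by
      by_contra hcon
      apply h
      calc 4 ≤ m := by omega
        _ ≤ m * (r - 9) := Nat.le_mul_of_pos_right _ (by omega)
    have hd11 : d ≤ 10 := by
      by_contra hcon
      have : 11 ^ 2 ≤ d ^ 2 := Nat.pow_le_pow_left (by omega) 2
      have h2 : r * m ^ 2 ≤ 12 * 3 ^ 2 := Nat.mul_le_mul hr12 (Nat.pow_le_pow_left hm3 2)
      omega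
    interval_cases r <;> interval_cases m <;> simp_all <;> interval_cases d <;> omega

/-- The range coming from the maximal rank theorem. -/
theorem collision_small [Infinite K] {r m d : ℕ} (hr : 10 ≤ r) (hm : 0 < m)
    (hK : ∀ q : ℕ, 0 < q → q ≤ r * (m + 1) → (q : K) ≠ 0)
    (h : (m : ℝ) ≤ r - 6 * Real.sqrt r + 11) (hd : d ^ 2 ≤ r * m ^ 2) :
    ∃ F : MvPolynomial (Fin (r + 1)) K, F ≠ 0 ∧
      ∀ (c : K) (a : Fin r → K), MvPolynomial.eval (Fin.cons c a : Fin (r + 1) → K) F ≠ 0 →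
        NoForm (jetIdeal m c a) d := by
  obtain ⟨e, he1, he2, he3, he4⟩ := H932R2.exists_rank (K := K) (m := m)
    (𝒞 := {x : Fin r → K | ∃ c, x = fun _ => c}) (affInv_const r) (x := fun _ => 0) ⟨0, rfl⟩ hr hm
    (cond_of_le hr h) hK
  obtain ⟨_, ⟨c1, rfl⟩, g, hR⟩ := he3 (Tfin e).card (card_Tfin e)
  obtain ⟨F, hF, hF'⟩ := collision_open (m := m) (d := e) (by omega) hR
  have h1 := count_le hr hm hd
  have h2 : d ≤ e := by
    by_contra hcon
    have : (e + 2) * (e + 3) ≤ (d + 1) * (d + 2) := Nat.mul_le_mul (by omega) (by omega)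
    omega
  exact ⟨F, hF, fun c a hP => (hF' c a hP).mono h2⟩

theorem points_small [Infinite K] {n m d : ℕ} (hn : 10 ≤ n) (hm : 0 < m)
    (hK : ∀ q : ℕ, 0 < q → q ≤ n * (m + 1) → (q : K) ≠ 0)
    (h : (m : ℝ) ≤ n - 6 * Real.sqrt n + 11) (hd : d ^ 2 ≤ n * m ^ 2) :
    ∃ F : MvPolynomial (Fin n × Fin 2) K, F ≠ 0 ∧
      ∀ P : Fin n → Fin 2 → K, MvPolynomial.eval (fun ij : Fin n × Fin 2 => P ij.1 ij.2) F ≠ 0 →
        NoForm (ptJ P fun _ => m) d := by
  have hx0 : (fun i : Fin n => Infinite.natEmbedding K i) ∈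
      {x : Fin n → K | Function.Injective x} := by
    intro a b hab
    exact Fin.ext ((Infinite.natEmbedding K).injective hab)
  obtain ⟨e, he1, he2, he3, he4⟩ := H932R2.exists_rank (K := K) (m := m)
    (affInv_inj n) hx0 hn hm (cond_of_le hn h) hK
  obtain ⟨x, hx, g, hR⟩ := he3 (Tfin e).card (card_Tfin e)
  obtain ⟨P0, hP0⟩ := points_rank' (m := m) (d := e) hx hR
  obtain ⟨F, hF, hF'⟩ := points_open _ P0 hP0
  have h1 := count_le hn hm hd
  have h2 : d ≤ e := by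
    by_contra hcon
    have : (e + 2) * (e + 3) ≤ (d + 1) * (d + 2) := Nat.mul_le_mul (by omega) (by omega)
    omega
  exact ⟨F, hF, fun P hP => (hF' P hP).mono h2⟩

/-- The numerical case distinction. -/
theorem range_cases {r m : ℕ} (hr : 10 ≤ r) (hm : 0 < m) (h : 128 * m ≤ r ^ 2) :
    (m : ℝ) ≤ r - 6 * Real.sqrt r + 11 ∨ Expl r m (Nat.sqrt (r * m ^ 2)) := by
  by_cases h1 : 16 ≤ r ∧ (r % 2 = 0 ∨ 25 ≤ r)
  · obtain ⟨δ, σ, hn⟩ := exists_near h1.1 h1.2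
    exact Or.inr (expl_of_near hn hm (Or.inr (by omega)))
  · left
    have hr25 : r < 25 := by omega
    have hr0 : (0 : ℝ) ≤ r := Nat.cast_nonneg r
    obtain ⟨s, hs⟩ : ∃ s, s = Real.sqrt r := ⟨_, rfl⟩
    have hss : s * s = r := by rw [hs]; exact Real.mul_self_sqrt hr0
    have hs0 : 0 ≤ s := by rw [hs]; exact Real.sqrt_nonneg _
    rw [← hs]
    have hs5 : s ≤ 5 := by
      have : (r : ℝ) ≤ 25 := by exact_mod_cast hr25.le
      nlinarith
    have hs3 : 3 ≤ s := by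
      have : (10 : ℝ) ≤ r := by exact_mod_cast hr
      nlinarith
    have h2 : (128 : ℝ) * m ≤ (r : ℝ) ^ 2 := by exact_mod_cast h
    rw [← hss] at h2 ⊢
    nlinarith [mul_nonneg (show 0 ≤ s - 3 by linarith) (show 0 ≤ 5 - s by linarith), sq_nonneg (s * s - 12)]

end Pool.Agent.H932R3
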