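import Mathlib
import Pool.Agent.H932R3.NearFinal
import Pool.Agent.H932R3.CritMain
import Pool.Agent.H932R3.WedgeMain

set_option autoImplicit false

/-!
# Transfer of dimension statements to other formulations
-/

namespace Pool.Agent.H932R3

open Polynomial Pool.Agent.H932R2

/-- The statement that the forms of degree `d` with multiplicity `w i` at the points `P i` have the
expected dimension. -/
def ExpDim (L : Type*) [Field L] {n : ℕ} (w : Fin n → ℕ) (P : Fin n → Fin 2 → L) (d : ℕ) : Prop :=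
  Module.finrank L
    ↥(MvPolynomial.homogeneousSubmodule (Fin 3) L d ⊓
      Submodule.restrictScalars L
        (⨅ i : Fin n,
          (Ideal.span
            ({MvPolynomial.X 0 - MvPolynomial.C (P i 0) * MvPolynomial.X 2,
              MvPolynomial.X 1 - MvPolynomial.C (P i 1) * MvPolynomial.X 2} :
              Set (MvPolynomial (Fin 3) L))) ^ (w i)))
  = Nat.choose (d + 2) 2 - ∑ i, Nat.choose (w i + 1) 2

/-- No linearly independent family of more than the expected number of forms. -/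
theorem not_special_of {L : Type*} [Field L] [CharZero L] {n : ℕ} {w : Fin n → ℕ} {D : ℕ → Prop}
    (hyp : ∃ F : MvPolynomial (Fin n × Fin 2) ℚ, F ≠ 0 ∧ ∀ P : Fin n → Fin 2 → L,
      MvPolynomial.aeval (fun ij : Fin n × Fin 2 => P ij.1 ij.2) F ≠ 0 →
        ∀ d : ℕ, D d → ExpDim L w P d) :
    ∃ Q : MvPolynomial (Fin n × Fin 3) L, Q ≠ 0 ∧
      ∀ p : Fin n → Fin 3 → L,
        MvPolynomial.eval (fun ij : Fin n × Fin 3 => p ij.1 ij.2) Q ≠ 0 →
        ∀ (d : ℕ), D d → ∀ (F : Fin ((d + 2).choose 2 - ∑ i, (w i + 1).choose 2 + 1) →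
          MvPolynomial (Fin 3) L),
          (∀ k, F k ∈ MvPolynomial.homogeneousSubmodule (Fin 3) L d ∧
            ∀ i, ∀ s : Fin 3 →₀ ℕ, ∑ j, s j < w i →
              MvPolynomial.coeff s
                (MvPolynomial.aeval (R := L)
                  (fun j : Fin 3 => (MvPolynomial.X j + MvPolynomial.C (p i j) :
                    MvPolynomial (Fin 3) L)) (F k)) = 0) →
          ¬ LinearIndependent L F := by
  classical
  obtain ⟨F0, hF0, hF0'⟩ := hyp
  have hF1 : F0.map (algebraMap ℚ L) ≠ 0 := by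
    intro h0
    exact hF0 (MvPolynomial.map_injective (algebraMap ℚ L) (algebraMap ℚ L).injective (by
      rw [h0, map_zero]))
  obtain ⟨Q, hQ, hQ'⟩ := exists_homogenise (F0.map (algebraMap ℚ L)) hF1
  refine ⟨Q, hQ, fun p hp d hd F hF hli => ?_⟩
  obtain ⟨h2, h3⟩ := hQ' p hp
  let P : Fin n → Fin 2 → L := fun i j => p i (Fin.castSucc j) / p i 2
  have h4 : MvPolynomial.aeval (fun ij : Fin n × Fin 2 => P ij.1 ij.2) F0 ≠ 0 := by
    rw [MvPolynomial.eval_map] at h3
    exact h3
  have h5 := hF0' P h4 d hd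
  unfold ExpDim at h5
  set S := (MvPolynomial.homogeneousSubmodule (Fin 3) L d ⊓
              Submodule.restrictScalars L
                (⨅ i : Fin n,
                  (Ideal.span
                    ({MvPolynomial.X 0 - MvPolynomial.C (P i 0) * MvPolynomial.X 2,
                      MvPolynomial.X 1 - MvPolynomial.C (P i 1) * MvPolynomial.X 2} :
                      Set (MvPolynomial (Fin 3) L))) ^ (w i))) with hS
  have hmem : ∀ k, F k ∈ S := by
    intro k
    refine Submodule.mem_inf.2 ⟨(hF k).1, ?_⟩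
    rw [Submodule.restrictScalars_mem, Ideal.mem_iInf]
    intro i
    have h6 : deh L (F k) ∈ cIdeal (fun _ : Fin 1 => p i 0 / p i 2) (C (p i 1 / p i 2)) (w i) :=
      mem_of_taylor (h2 i) ((MvPolynomial.mem_homogeneousSubmodule _ _).1 (hF k).1) ((hF k).2 i)
    exact (mem_ptIdeal_iff (hF k).1).2 h6
  have hfinH : Module.Finite L ↥(MvPolynomial.homogeneousSubmodule (Fin 3) L d) :=
    Module.Finite.iff_fg.2 (MvPolynomial.homogeneousSubmodule_fg _ _ d)
  have hfin : Module.Finite L ↥S :=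
    Submodule.finiteDimensional_of_le (S₁ := S)
      (S₂ := MvPolynomial.homogeneousSubmodule (Fin 3) L d) inf_le_left
  let G : Fin ((d + 2).choose 2 - ∑ i, (w i + 1).choose 2 + 1) → S := fun k => ⟨F k, hmem k⟩
  have hG : LinearIndependent L G := by
    refine LinearIndependent.of_comp S.subtype ?_
    exact hli
  have h7 := hG.fintype_card_le_finrank
  rw [h5, Fintype.card_fin] at h7
  omega

/-- If there is a nonzero form, then the expected dimension means independent conditions. -/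
theorem ExpDim.eff {L : Type*} [Field L] {n : ℕ} {w : Fin n → ℕ} {P : Fin n → Fin 2 → L} {d : ℕ}
    (h1 : ExpDim L w P d) {G : MvPolynomial (Fin 3) L} (hG : G ≠ 0) (hGd : G.IsHomogeneous d)
    (hGm : ∀ i, G ∈ (Ideal.span
      ({MvPolynomial.X 0 - MvPolynomial.C (P i 0) * MvPolynomial.X 2,
        MvPolynomial.X 1 - MvPolynomial.C (P i 1) * MvPolynomial.X 2} :
        Set (MvPolynomial (Fin 3) L))) ^ (w i)) :
    Module.finrank L
      ↥(MvPolynomial.homogeneousSubmodule (Fin 3) L d ⊓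
        Submodule.restrictScalars L
          (⨅ i : Fin n,
            (Ideal.span
              ({MvPolynomial.X 0 - MvPolynomial.C (P i 0) * MvPolynomial.X 2,
                MvPolynomial.X 1 - MvPolynomial.C (P i 1) * MvPolynomial.X 2} :
                Set (MvPolynomial (Fin 3) L))) ^ (w i)))
      + ∑ i, Nat.choose (w i + 1) 2 = Nat.choose (d + 2) 2 := by
  unfold ExpDim at h1
  have h2 : 0 < Module.finrank L
      ↥(MvPolynomial.homogeneousSubmodule (Fin 3) L d ⊓
        Submodule.restrictScalars L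
          (⨅ i : Fin n,
            (Ideal.span
              ({MvPolynomial.X 0 - MvPolynomial.C (P i 0) * MvPolynomial.X 2,
                MvPolynomial.X 1 - MvPolynomial.C (P i 1) * MvPolynomial.X 2} :
                Set (MvPolynomial (Fin 3) L))) ^ (w i))) := by
    have h3 : Module.Finite L ↥(MvPolynomial.homogeneousSubmodule (Fin 3) L d) :=
      Module.Finite.iff_fg.2 (MvPolynomial.homogeneousSubmodule_fg _ _ d)
    have h4 := Submodule.finiteDimensional_of_le
      (S₁ := MvPolynomial.homogeneousSubmodule (Fin 3) L d ⊓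
        Submodule.restrictScalars L
          (⨅ i : Fin n,
            (Ideal.span
              ({MvPolynomial.X 0 - MvPolynomial.C (P i 0) * MvPolynomial.X 2,
                MvPolynomial.X 1 - MvPolynomial.C (P i 1) * MvPolynomial.X 2} :
                Set (MvPolynomial (Fin 3) L))) ^ (w i)))
      (S₂ := MvPolynomial.homogeneousSubmodule (Fin 3) L d) inf_le_left
    rw [Module.finrank_pos_iff]
    refine ⟨⟨⟨G, Submodule.mem_inf.2 ⟨hGd, ?_⟩⟩, 0, fun h5 => hG ?_⟩⟩
    · rw [Submodule.restrictScalars_mem, Ideal.mem_iInf]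
      exact hGm
    · exact congrArg Subtype.val h5
  rw [h1] at h2 ⊢
  omega

theorem map_ne_zero_of {L : Type*} [Field L] [CharZero L] {σ : Type*} {F : MvPolynomial σ ℚ}
    (hF : F ≠ 0) : F.map (algebraMap ℚ L) ≠ 0 := fun h0 =>
  hF (MvPolynomial.map_injective (algebraMap ℚ L) (algebraMap ℚ L).injective (by rw [h0, map_zero]))

/-- Theorem A in the predicate form. -/
theorem crit_exp {L : Type*} [Field L] [CharZero L] {n m : ℕ} (hn : 100 ≤ n) (hm : 1 ≤ m)
    {w : Fin n → ℕ} (hw : ∀ a, w a = m ∨ w a = m + 1)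
    (h : 256 * (m + 1) ^ 2 ≤ n ^ 3 ∨ (n % 4 ≤ 1 ∧ 100 * (m + 1) ≤ n ^ 2)) :
    ∃ F : MvPolynomial (Fin n × Fin 2) ℚ, F ≠ 0 ∧
      ∀ P : Fin n → Fin 2 → L,
        MvPolynomial.aeval (fun ij : Fin n × Fin 2 => P ij.1 ij.2) F ≠ 0 →
        ∀ d : ℕ, 3 ≤ |2 * (d : ℝ) + 3 - Real.sqrt n - 2 * (∑ a, (w a : ℝ)) / Real.sqrt n| →
          ExpDim L w P d := crit_points hn hm hw h

/-- Theorem A for equal multiplicities. -/
theorem crit_uniform {L : Type*} [Field L] [CharZero L] {n m : ℕ} (hn : 100 ≤ n) (hm : 1 ≤ m)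
    (h : 256 * m ^ 2 ≤ n ^ 3 ∨ (n % 4 ≤ 1 ∧ 100 * m ≤ n ^ 2)) :
    ∃ F : MvPolynomial (Fin n × Fin 2) ℚ, F ≠ 0 ∧
      ∀ P : Fin n → Fin 2 → L,
        MvPolynomial.aeval (fun ij : Fin n × Fin 2 => P ij.1 ij.2) F ≠ 0 →
        ∀ d : ℕ, 3 ≤ |2 * (d : ℝ) + 3 - Real.sqrt n - 2 * (Real.sqrt n * m)| →
          ExpDim L (fun _ : Fin n => m) P d := by
  have key : ∀ d : ℕ, 3 ≤ |2 * (d : ℝ) + 3 - Real.sqrt n - 2 * (Real.sqrt n * m)| →
      3 ≤ |2 * (d : ℝ) + 3 - Real.sqrt n -
        2 * (∑ _a : Fin n, (((fun _ : Fin n => m) _a : ℕ) : ℝ)) / Real.sqrt n| := by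
    intro d hd
    have h1 : (2 * ∑ _a : Fin n, (((fun _ : Fin n => m) _a : ℕ) : ℝ)) / Real.sqrt n
        = 2 * (Real.sqrt n * m) := by
      rw [Finset.sum_const, Finset.card_univ, Fintype.card_fin, nsmul_eq_mul]
      have h2 : (0 : ℝ) < Real.sqrt n := Real.sqrt_pos.2 (by
        have : (100 : ℝ) ≤ n := by exact_mod_cast hn
        linarith)
      have h3 : Real.sqrt n * Real.sqrt n = n := Real.mul_self_sqrt (Nat.cast_nonneg n)
      rw [div_eq_iff h2.ne']
      linear_combination (2 * (m : ℝ)) * (-1 : ℝ) * h3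
    rw [h1]
    exact hd
  rcases Nat.lt_or_ge 1 m with h1 | h1
  · obtain ⟨F, hF, hF'⟩ := crit_exp (L := L) (n := n) (m := m - 1) (w := fun _ => m) hn (by omega)
      (fun a => Or.inr (by omega)) (by
        have : m - 1 + 1 = m := by omega
        rw [this]
        exact h)
    exact ⟨F, hF, fun P hP d hd => hF' P hP d (key d hd)⟩
  · obtain ⟨F, hF, hF'⟩ := crit_exp (L := L) (n := n) (m := m) (w := fun _ => m) hn hm
      (fun a => Or.inl rfl) (by
        left
        have : m = 1 := by omega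
        subst this
        have : 100 ^ 3 ≤ n ^ 3 := Nat.pow_le_pow_left hn 3
        omega)
    exact ⟨F, hF, fun P hP d hd => hF' P hP d (key d hd)⟩

/-- Theorem B in the predicate form. -/
theorem wedge_exp (k : ℕ) : ∃ N : ℕ, 16 ≤ N ∧ ∀ (L : Type) [Field L] [CharZero L] (n : ℕ), N ≤ n →
    ∀ w : Fin n → ℕ,
    ∃ F : MvPolynomial (Fin n × Fin 2) ℚ, F ≠ 0 ∧
      ∀ P : Fin n → Fin 2 → L,
        MvPolynomial.aeval (fun ij : Fin n × Fin 2 => P ij.1 ij.2) F ≠ 0 →
        ∀ d : ℕ, 0 < d →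
          (Real.sqrt n * d ≤ (1 - 1 / (n : ℝ) ^ k) * ∑ a, (w a : ℝ) ∨
            ∀ a, (1 + 1 / (n : ℝ) ^ k) * (Real.sqrt n * w a) + Real.sqrt n ≤ d) →
          ExpDim L w P d := by
  obtain ⟨N, hN, h⟩ := exists_wedge k
  refine ⟨N, hN, fun L _ _ n hn w => ?_⟩
  obtain ⟨δ, σ, hD⟩ := h n hn
  exact wedge_points (by omega) hD w

end Pool.Agent.H932R3
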